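import Pool.Agent.TH686.LE.Kill

/-!
# The number of good sets is the permanent; the polynomial of the reduction
-/

namespace Pool.Agent.TH686.LE

open Finset Pool.Agent.H549R2.Convex

variable {A : List (List Bool)}

theorem rowE_count (L : Finset El) (i : ℕ) :
    ((rowE A i).filter (fun x => decide (x ∈ L))).length =
      (univ.filter (fun j : Fin A.length => ent A i j.val = true ∧ (0, i, j.val) ∈ L)).card := by
  unfold rowE
  rw [List.filter_map, List.length_map, List.filter_filter, length_filter_range]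
  congr 1
  refine Finset.filter_congr fun j _ => ?_
  simp only [Function.comp, Bool.and_eq_true, decide_eq_true_eq]
  tauto

theorem colE_count (L : Finset El) (j : ℕ) :
    ((colE A j).filter (fun x => !decide (x ∈ L))).length +
      (univ.filter (fun i : Fin A.length => ent A i.val j = true ∧ (0, i.val, j) ∈ L)).card =
      degL A j := by
  unfold colE degL
  rw [List.filter_map, List.length_map, List.filter_filter, length_filter_range,
    length_filter_range, add_comm,
    ← Finset.card_filter_add_card_filter_not (s := univ.filter (fun i : Fin A.length =>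
      ent A i.val j = true)) (fun i => (0, i.val, j) ∈ L)]
  rw [Finset.filter_filter, Finset.filter_filter]
  congr 2
  refine Finset.filter_congr fun i _ => ?_
  simp only [Function.comp, Bool.and_eq_true, Bool.not_eq_true', decide_eq_false_iff_not]
  tauto

theorem good_iff (hdeg : ∀ j < A.length, 1 ≤ degL A j) (L : Finset El) :
    Good A L ↔ (∀ x ∈ rd A, x ∉ L) ∧ (∀ x ∈ ld A, x ∈ L) ∧
      (∀ i : Fin A.length, (univ.filter (fun j : Fin A.length =>
        ent A i.val j.val = true ∧ (0, i.val, j.val) ∈ L)).card = 1) ∧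
      (∀ j : Fin A.length, (univ.filter (fun i : Fin A.length =>
        ent A i.val j.val = true ∧ (0, i.val, j.val) ∈ L)).card = 1) := by
  unfold Good
  refine and_congr Iff.rfl (and_congr Iff.rfl (and_congr ?_ ?_))
  · constructor
    · intro h i
      rw [← rowE_count]
      exact h i.val i.2
    · intro h i hi
      rw [rowE_count]
      exact h ⟨i, hi⟩
  · constructor
    · intro h j
      have h1 := h j.val j.2
      have h2 := colE_count (A := A) L j.val
      have h3 := hdeg j.val j.2
      rw [h1] at h2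
      unfold kap at h2
      omega
    · intro h j hj
      have h1 := h ⟨j, hj⟩
      have h2 := colE_count (A := A) L j
      have h3 := hdeg j hj
      simp only at h1
      rw [h1] at h2
      unfold kap
      omega

/-- the set of a permutation -/
def Lσ (A : List (List Bool)) (σ : Equiv.Perm (Fin A.length)) : Finset El :=
  (ld A).toFinset ∪ univ.image (fun i : Fin A.length => ((0, i.val, (σ i).val) : El))

theorem mem_Lσ {σ : Equiv.Perm (Fin A.length)} {x : El} : x ∈ Lσ A σ ↔
    x ∈ ld A ∨ ∃ i : Fin A.length, ((0, i.val, (σ i).val) : El) = x := by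
  unfold Lσ
  rw [Finset.mem_union, List.mem_toFinset, Finset.mem_image]
  simp

theorem edge_mem_Lσ {σ : Equiv.Perm (Fin A.length)} {i j : Fin A.length} :
    ((0, i.val, j.val) : El) ∈ Lσ A σ ↔ j = σ i := by
  rw [mem_Lσ, mem_ld]
  constructor
  · rintro (⟨h, _⟩ | ⟨i', h⟩)
    · simp at h
    · rw [Prod.mk.injEq, Prod.mk.injEq] at h
      obtain ⟨_, h1, h2⟩ := h
      have h3 : i' = i := Fin.ext h1
      subst h3
      exact (Fin.ext h2).symm
  · rintro rfl
    exact Or.inr ⟨i, rfl⟩

theorem card_good (hsq : ∀ r ∈ A, r.length = A.length) (hdeg : ∀ j < A.length, 1 ≤ degL A j)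
    [DecidablePred (Good A)] :
    ((seq1 A).toFinset.powerset.filter (Good A)).card = F A := by
  classical
  rw [F_eq_card' A hsq A.length rfl]
  symm
  refine Finset.card_bij (fun σ _ => Lσ A σ) ?_ ?_ ?_
  · intro σ hσ
    rw [Finset.mem_filter] at hσ
    have hσ2 := hσ.2
    rw [Finset.mem_filter, Finset.mem_powerset, good_iff hdeg]
    refine ⟨?_, ?_, ?_, ?_, ?_⟩
    · intro x hx
      rw [List.mem_toFinset, mem_seq1]
      rcases mem_Lσ.1 hx with h | ⟨i, rfl⟩
      · exact Or.inr (Or.inl h)
      · exact Or.inr (Or.inr ⟨rfl, i.2, (σ i).2, hσ2 i⟩)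
    · intro x hx hxL
      rw [mem_rd] at hx
      rcases mem_Lσ.1 hxL with h | ⟨i, rfl⟩
      · rw [mem_ld] at h
        rw [h.1] at hx
        simp at hx
      · simp at hx
    · intro x hx
      exact mem_Lσ.2 (Or.inl hx)
    · intro i
      rw [Finset.card_eq_one]
      refine ⟨σ i, ?_⟩
      ext j
      rw [Finset.mem_filter, Finset.mem_singleton, edge_mem_Lσ]
      constructor
      · rintro ⟨_, _, h⟩; exact h
      · rintro rfl
        exact ⟨Finset.mem_univ _, hσ2 i, rfl⟩
    · intro j
      rw [Finset.card_eq_one]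
      refine ⟨σ.symm j, ?_⟩
      ext i
      rw [Finset.mem_filter, Finset.mem_singleton, edge_mem_Lσ]
      constructor
      · rintro ⟨_, _, h⟩
        rw [h, Equiv.symm_apply_apply]
      · rintro rfl
        have := hσ2 (σ.symm j)
        rw [Equiv.apply_symm_apply] at this
        exact ⟨Finset.mem_univ _, this, (Equiv.apply_symm_apply σ j).symm⟩
  · intro σ _ τ _ h
    apply Equiv.ext
    intro i
    have h1 : ((0, i.val, (σ i).val) : El) ∈ Lσ A τ := by
      rw [← h, edge_mem_Lσ]
    exact edge_mem_Lσ.1 h1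
  · intro L hL
    rw [Finset.mem_filter, Finset.mem_powerset, good_iff hdeg] at hL
    obtain ⟨hsub, hrd, hld, hrow, hcol⟩ := hL
    have hex : ∀ i : Fin A.length, ∃ j : Fin A.length,
        (univ.filter (fun j : Fin A.length =>
          ent A i.val j.val = true ∧ (0, i.val, j.val) ∈ L)) = {j} := fun i =>
      Finset.card_eq_one.1 (hrow i)
    choose f hf using hex
    have hfm : ∀ i j : Fin A.length, (ent A i.val j.val = true ∧ ((0, i.val, j.val) : El) ∈ L) ↔
        j = f i := by
      intro i j
      have h1 : j ∈ (univ.filter (fun j : Fin A.length =>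
          ent A i.val j.val = true ∧ ((0, i.val, j.val) : El) ∈ L)) ↔ j ∈ ({f i} : Finset _) := by
        rw [hf i]
      rw [Finset.mem_filter, Finset.mem_singleton] at h1
      simpa using h1
    have hinj : Function.Injective f := by
      intro a b hab
      obtain ⟨c, hc⟩ := Finset.card_eq_one.1 (hcol (f a))
      have h1 : a ∈ (univ.filter (fun i : Fin A.length =>
          ent A i.val (f a).val = true ∧ ((0, i.val, (f a).val) : El) ∈ L)) := by
        rw [Finset.mem_filter]
        exact ⟨Finset.mem_univ _, (hfm a (f a)).2 rfl⟩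
      have h2 : b ∈ (univ.filter (fun i : Fin A.length =>
          ent A i.val (f a).val = true ∧ ((0, i.val, (f a).val) : El) ∈ L)) := by
        rw [Finset.mem_filter]
        exact ⟨Finset.mem_univ _, (hfm b (f a)).2 hab⟩
      rw [hc, Finset.mem_singleton] at h1 h2
      rw [h1, h2]
    refine ⟨Equiv.ofBijective f (Finite.injective_iff_bijective.1 hinj), ?_, ?_⟩
    · rw [Finset.mem_filter]
      exact ⟨Finset.mem_univ _, fun i => ((hfm i (f i)).2 rfl).1⟩
    · ext x
      rw [mem_Lσ]
      constructor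
      · rintro (h | ⟨i, rfl⟩)
        · exact hld x h
        · exact ((hfm i (f i)).2 rfl).2
      · intro hx
        have h1 := hsub hx
        rw [List.mem_toFinset, mem_seq1] at h1
        rcases h1 with h1 | h1 | ⟨h1, h2, h3, h4⟩
        · exact absurd hx (hrd x h1)
        · exact Or.inl h1
        · right
          refine ⟨⟨x.2.1, h2⟩, ?_⟩
          have h5 : ((0, x.2.1, x.2.2) : El) = x := by rw [← h1]
          have h6 := (hfm ⟨x.2.1, h2⟩ ⟨x.2.2, h3⟩).1 ⟨h4, by rw [h5]; exact hx⟩
          simp only [Equiv.ofBijective_apply]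
          rw [← h6]
          exact h5

section Poly

variable {E : Type*}

open Polynomial in
/-- product of linear polynomials -/
noncomputable def WP (α κ : E → ℤ) : ℤ → List E → Polynomial ℤ
  | _, [] => 1
  | c, x :: l => (C (α x + c) + C (κ x) * X) * WP α κ (c + 1) l

theorem WP_eval (α κ : E → ℤ) (t : ℤ) : ∀ (l : List E) (c : ℤ),
    (WP α κ c l).eval t = WZ (fun x => α x + κ x * t) c l
  | [], c => by simp [WP, WZ]
  | x :: l, c => by
    rw [WP, WZ, Polynomial.eval_mul, WP_eval α κ t l]
    congr 1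
    simp
    ring

theorem WP_natDegree (α κ : E → ℤ) : ∀ (l : List E) (c : ℤ), (WP α κ c l).natDegree ≤ l.length
  | [], c => by simp [WP]
  | x :: l, c => by
    rw [WP]
    refine (Polynomial.natDegree_mul_le).trans ?_
    have h1 := WP_natDegree α κ l (c + 1)
    have h2 : (Polynomial.C (α x + c) + Polynomial.C (κ x) * Polynomial.X : Polynomial ℤ).natDegree
        ≤ 1 := by
      refine (Polynomial.natDegree_add_le _ _).trans ?_
      rw [Polynomial.natDegree_C]
      exact max_le (Nat.zero_le _) ((Polynomial.natDegree_C_mul_le _ _).trans Polynomial.natDegree_X_le)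
    rw [List.length_cons]
    omega

/-- the polynomial of the reduction -/
noncomputable def ZP [DecidableEq E] (l1 l2 : List E) (a b κ1 κ2 : E → ℤ) : Polynomial ℤ :=
  ∑ L ∈ l1.toFinset.powerset, WP a κ1 0 (l1.filter (fun x => decide (x ∈ L))) *
    WP b κ2 0 (l2.filter (fun x => !decide (x ∈ L)))

theorem ZP_natDegree [DecidableEq E] (l1 l2 : List E) (a b κ1 κ2 : E → ℤ) (h : l1.Perm l2) :
    (ZP l1 l2 a b κ1 κ2).natDegree ≤ l1.length := by
  refine Polynomial.natDegree_sum_le_of_forall_le _ _ fun L _ => ?_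
  refine (Polynomial.natDegree_mul_le).trans ?_
  have h1 := WP_natDegree a κ1 (l1.filter (fun x => decide (x ∈ L))) 0
  have h2 := WP_natDegree b κ2 (l2.filter (fun x => !decide (x ∈ L))) 0
  have h3 : (l2.filter (fun x => !decide (x ∈ L))).length =
      (l1.filter (fun x => !decide (x ∈ L))).length := ((h.filter _).length_eq).symm
  have h4 := (List.filter_append_perm (fun x => decide (x ∈ L)) l1).length_eq
  rw [List.length_append] at h4
  omega

theorem ZP_eval [DecidableEq E] (l1 l2 : List E) (a b κ1 κ2 : E → ℤ) (t : ℤ) :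
    (ZP l1 l2 a b κ1 κ2).eval t =
      ∑ L ∈ l1.toFinset.powerset,
        WZ (fun x => a x + κ1 x * t) 0 (l1.filter (fun x => decide (x ∈ L))) *
        WZ (fun x => b x + κ2 x * t) 0 (l2.filter (fun x => !decide (x ∈ L))) := by
  rw [ZP, Polynomial.eval_finsetSum]
  refine Finset.sum_congr rfl fun L _ => ?_
  rw [Polynomial.eval_mul, WP_eval, WP_eval]

theorem WN_cast (α : E → ℕ) (β : E → ℤ) : ∀ (l : List E) (c : ℕ), (∀ x ∈ l, (α x : ℤ) = β x) →
    ((WN α c l : ℕ) : ℤ) = WZ β c l
  | [], c, _ => by simp [WN, WZ]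
  | x :: l, c, h => by
    rw [WN, WZ]
    push_cast
    rw [WN_cast α β l (c + 1) (fun y hy => h y (List.mem_cons_of_mem _ hy)),
      h x List.mem_cons_self]
    push_cast
    ring

end Poly

/-- the value at zero -/
theorem ZP_zero (hsq : ∀ r ∈ A, r.length = A.length) (hdeg : ∀ j < A.length, 1 ≤ degL A j)
    (κ1 κ2 : El → ℤ) :
    (ZP (seq1 A) (seq2 A) (fun x => -(na x : ℤ)) (fun x => -(nb A x : ℤ)) κ1 κ2).eval 0 =
      (-1) ^ A.length * (∏ h ∈ range A.length, cst (kap A h)) * F A := by
  classical
  rw [ZP_eval]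
  simp only [mul_zero, add_zero]
  rw [Finset.sum_congr rfl (fun L _ => term_eq (A := A) (L := L))]
  rw [← Finset.sum_filter, Finset.sum_const, card_good hsq hdeg]
  simp
  ring

/-- Extrapolation to zero. -/
theorem extrap0 (Q : Polynomial ℤ) (n : ℕ) (h : Q.natDegree ≤ n) (g : ℕ → ℤ)
    (hg : ∀ t, 1 ≤ t → t ≤ n + 1 → g t = Q.eval (t : ℤ)) (hg0 : g 0 = 0) :
    ∑ t ∈ range (n + 1 + 1), (-1 : ℤ) ^ t * ((n + 1).choose t) * g t = - Q.eval 0 := by
  have hdeg : Q.natDegree < n + 1 := by omega
  have h2 := Polynomial.fwdDiff_iter_eq_zero_of_degree_lt hdeg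
  have h3 := congrFun h2 0
  rw [fwdDiff_iter_eq_sum_shift] at h3
  have h4 : ∑ t ∈ range (n + 1 + 1), (-1 : ℤ) ^ t * ((n + 1).choose t) * Q.eval (t : ℤ) = 0 := by
    have h5 := congrArg (fun z : ℤ => (-1 : ℤ) ^ (n + 1) * z) h3
    simp only [Pi.zero_apply, mul_zero] at h5
    rw [← h5, Finset.mul_sum]
    refine Finset.sum_congr rfl fun t ht => ?_
    rw [Finset.mem_range] at ht
    have e1 : (-1 : ℤ) ^ t = (-1) ^ (n + 1) * (-1) ^ (n + 1 - t) := by
      rw [← pow_add]
      have e2 : n + 1 + (n + 1 - t) = t + 2 * (n + 1 - t) := by omega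
      rw [e2, pow_add, pow_mul]
      simp
    have e3 : (0 : ℤ) + t • (1 : ℤ) = (t : ℤ) := by
      rw [nsmul_eq_mul]; ring
    rw [e1, e3, smul_eq_mul]
    ring
  rw [Finset.sum_range_succ'] at h4 ⊢
  rw [hg0]
  have h6 : ∀ k ∈ range (n + 1), (-1 : ℤ) ^ (k + 1) * ((n + 1).choose (k + 1)) * g (k + 1) =
      (-1 : ℤ) ^ (k + 1) * ((n + 1).choose (k + 1)) * Q.eval ((k + 1 : ℕ) : ℤ) := by
    intro k hk
    rw [Finset.mem_range] at hk
    rw [hg (k + 1) (by omega) (by omega)]
  rw [Finset.sum_congr rfl h6]
  simp only [pow_zero, Nat.choose_zero_right, Nat.cast_one, one_mul, Nat.cast_zero] at h4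
  linarith

end Pool.Agent.TH686.LE
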