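import Pool.Agent.TH686.LE.Poset
import Pool.Agent.TH686.LE.Match
import Pool.Agent.H549R2.Convex5

/-!
# The posets of the reduction: a chain and an antichain
-/

namespace Pool.Agent.TH686.LE

open Finset Pool.Agent.H549R2.Convex

/-- The order is the union of a chain and an antichain: the elements `0, …, m - 1` form a chain (in
this order) and the other elements are pairwise incomparable. -/
def ChainAntichain (A : List (List Bool)) : Prop :=
  ∃ m ≤ A.length, (∀ i j, i < j → j < m → Lt A i j) ∧ ∀ i j, m ≤ i → m ≤ j → ¬ Lt A i j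

variable (A : List (List Bool))

/-- unit of the keys -/
def YY : ℕ := (A.length + 1) * (A.length + 1) + 1

/-- position in the first order -/
def key1 (x : El) : ℕ := bif decide (x.1 = 0) then YY A * (2 * x.2.1 + 1) + x.2.2 else
  bif decide (x.1 = 1) then YY A * (2 * x.2.1 + 2) else 1 + x.2.1 * (A.length + 1) + x.2.2

/-- position in the second order -/
def key2 (x : El) : ℕ := bif decide (x.1 = 0) then YY A * (2 * x.2.2 + 1) + x.2.1 else
  bif decide (x.1 = 1) then 1 + x.2.1 else YY A * (2 * x.2.1 + 2) + x.2.2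

/-- scaling factor -/
def UU : ℕ := 4 * ((A.length + 1) * (A.length + 1))

/-- bound -/
def GG : ℕ := UU A * (YY A * (2 * A.length + 2))

/-- numbers of slots on the left -/
def al (t : ℕ) (x : El) : ℕ := t * (UU A * key1 A x) - na x

/-- numbers of slots on the right -/
def be (t : ℕ) (x : El) : ℕ := t * (UU A * key2 A x) - nb A x

/-- the intervals of the antichain -/
def ys (t : ℕ) : List (ℕ × ℕ) :=
  (seq1 A).map (fun x => (t * GG A - al A t x, t * GG A - 1 + be A t x))

/-- the posets of the reduction -/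
def Q (t : ℕ) : List (List Bool) := ordM (full (2 * (t * GG A)) (ys A t))

variable {A}

theorem kap_le (j : ℕ) : kap A j ≤ A.length := by
  have := Pool.Agent.NPC.H549Convex.degL_le A j
  unfold kap
  omega

theorem KK_le (j : ℕ) : KK A j ≤ j * A.length := by
  induction j with
  | zero => simp [KK]
  | succ j ih =>
    rw [KK_succ, Nat.succ_mul]
    have := kap_le (A := A) j
    omega

section Pairwise

theorem pairwise_flatMap {E : Type*} (f : ℕ → List E) (key : E → ℕ) (bnd : ℕ → ℕ) : ∀ n : ℕ,
    (∀ i < n, (f i).Pairwise (fun x y => key x < key y)) →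
    (∀ i < n, ∀ x ∈ f i, bnd i ≤ key x ∧ key x < bnd (i + 1)) →
    (∀ i < n, bnd i ≤ bnd (i + 1)) →
    ((List.range n).flatMap f).Pairwise (fun x y => key x < key y) ∧
      bnd 0 ≤ bnd n ∧ ∀ x ∈ (List.range n).flatMap f, bnd 0 ≤ key x ∧ key x < bnd n
  | 0, _, _, _ => by simp
  | n + 1, h1, h2, h3 => by
    obtain ⟨ih1, ih2, ih3⟩ := pairwise_flatMap f key bnd n (fun i hi => h1 i (by omega))
      (fun i hi => h2 i (by omega)) (fun i hi => h3 i (by omega))
    have h4 := h3 n (Nat.lt_succ_self n)
    rw [List.range_succ, List.flatMap_append, List.flatMap_singleton]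
    refine ⟨?_, ih2.trans h4, ?_⟩
    · rw [List.pairwise_append]
      refine ⟨ih1, h1 n (Nat.lt_succ_self n), fun x hx y hy => ?_⟩
      have h5 := (ih3 x hx).2
      have h6 := (h2 n (Nat.lt_succ_self n) y hy).1
      omega
    · intro x hx
      rw [List.mem_append] at hx
      rcases hx with hx | hx
      · have := ih3 x hx
        omega
      · have := h2 n (Nat.lt_succ_self n) x hx
        omega

theorem rowE_pairwise (i : ℕ) : (rowE A i).Pairwise (fun x y => key1 A x < key1 A y) := by
  unfold rowE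
  rw [List.pairwise_map]
  refine List.Pairwise.imp ?_ (List.Pairwise.filter _ List.pairwise_lt_range)
  intro a b hab
  simp only [key1, decide_true, cond_true]
  omega

theorem colE_pairwise (j : ℕ) : (colE A j).Pairwise (fun x y => key2 A x < key2 A y) := by
  unfold colE
  rw [List.pairwise_map]
  refine List.Pairwise.imp ?_ (List.Pairwise.filter _ List.pairwise_lt_range)
  intro a b hab
  simp only [key2, decide_true, cond_true]
  omega

theorem rdc_pairwise1 (j : ℕ) : (rdc A j).Pairwise (fun x y => key1 A x < key1 A y) := by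
  unfold rdc
  rw [List.pairwise_map]
  refine List.Pairwise.imp ?_ List.pairwise_lt_range
  intro a b hab
  simp only [key1, OfNat.ofNat_ne_zero, OfNat.ofNat_ne_one, decide_false, cond_false]
  omega

theorem rdc_pairwise2 (j : ℕ) : (rdc A j).Pairwise (fun x y => key2 A x < key2 A y) := by
  unfold rdc
  rw [List.pairwise_map]
  refine List.Pairwise.imp ?_ List.pairwise_lt_range
  intro a b hab
  simp only [key2, OfNat.ofNat_ne_zero, OfNat.ofNat_ne_one, decide_false, cond_false]
  omega

theorem n_lt_YY : A.length < YY A := by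
  unfold YY
  have := Nat.mul_le_mul_right (A.length + 1) (Nat.le_add_left 1 A.length)
  omega

theorem nn_lt_YY : 1 + A.length * (A.length + 1) ≤ YY A := by
  unfold YY
  rw [Nat.succ_mul]
  omega

theorem key1_edge {x : El} (h : x.1 = 0) : key1 A x = YY A * (2 * x.2.1 + 1) + x.2.2 := by
  simp [key1, h]

theorem key1_row {x : El} (h : x.1 = 1) : key1 A x = YY A * (2 * x.2.1 + 2) := by
  simp [key1, h]

theorem key1_col {x : El} (h : x.1 = 2) : key1 A x = 1 + x.2.1 * (A.length + 1) + x.2.2 := by
  simp [key1, h]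

theorem key2_edge {x : El} (h : x.1 = 0) : key2 A x = YY A * (2 * x.2.2 + 1) + x.2.1 := by
  simp [key2, h]

theorem key2_row {x : El} (h : x.1 = 1) : key2 A x = 1 + x.2.1 := by
  simp [key2, h]

theorem key2_col {x : El} (h : x.1 = 2) : key2 A x = YY A * (2 * x.2.1 + 2) + x.2.2 := by
  simp [key2, h]

theorem seq1_pairwise : (seq1 A).Pairwise (fun x y => key1 A x < key1 A y) := by
  have h1 := pairwise_flatMap (rdc A) (key1 A) (fun j => 1 + j * (A.length + 1)) A.length
    (fun j _ => rdc_pairwise1 j)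
    (fun j _ x hx => by
      rw [mem_rdc] at hx
      obtain ⟨h1, h2, h3⟩ := hx
      have h4 := kap_le (A := A) j
      rw [key1_col h1, h2, Nat.succ_mul]
      omega)
    (fun j _ => by rw [Nat.succ_mul]; omega)
  have h2 := pairwise_flatMap (fun i => rowE A i ++ [(1, i, 0)]) (key1 A)
    (fun i => YY A * (2 * i + 1)) A.length
    (fun i _ => by
      rw [List.pairwise_append]
      refine ⟨rowE_pairwise i, List.pairwise_singleton _ _, fun x hx y hy => ?_⟩
      rw [mem_rowE] at hx
      rw [List.mem_singleton] at hy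
      subst hy
      obtain ⟨h1, h2, h3, _⟩ := hx
      rw [key1_edge h1, h2, key1_row (A := A) rfl]
      simp only
      have := n_lt_YY (A := A)
      have e : YY A * (2 * i + 2) = YY A * (2 * i + 1) + YY A := by ring
      omega)
    (fun i _ x hx => by
      have e : YY A * (2 * i + 2) = YY A * (2 * i + 1) + YY A := by ring
      have e2 : YY A * (2 * (i + 1) + 1) = YY A * (2 * i + 1) + YY A + YY A := by ring
      have h0 := n_lt_YY (A := A)
      rw [List.mem_append, List.mem_singleton, mem_rowE] at hx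
      rcases hx with ⟨h1, h2, h3, _⟩ | rfl
      · rw [key1_edge h1, h2]
        omega
      · rw [key1_row (A := A) rfl]
        simp only
        omega)
    (fun i _ => Nat.mul_le_mul_left _ (by omega))
  unfold seq1
  rw [List.pairwise_append]
  refine ⟨h1.1, h2.1, fun x hx y hy => ?_⟩
  have h3 := (h1.2.2 x hx).2
  have h4 := (h2.2.2 y hy).1
  have h5 := nn_lt_YY (A := A)
  simp only [mul_zero, zero_add, mul_one] at h3 h4
  omega

theorem seq2_pairwise : (seq2 A).Pairwise (fun x y => key2 A x < key2 A y) := by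
  have h1 : (ld A).Pairwise (fun x y => key2 A x < key2 A y) := by
    unfold ld
    rw [List.pairwise_map]
    refine List.Pairwise.imp ?_ List.pairwise_lt_range
    intro a b hab
    rw [key2_row (A := A) rfl, key2_row (A := A) rfl]
    simp only
    omega
  have h2 := pairwise_flatMap (fun j => colE A j ++ rdc A j) (key2 A)
    (fun j => YY A * (2 * j + 1)) A.length
    (fun j _ => by
      rw [List.pairwise_append]
      refine ⟨colE_pairwise j, rdc_pairwise2 j, fun x hx y hy => ?_⟩
      rw [mem_colE] at hx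
      rw [mem_rdc] at hy
      obtain ⟨h1, h2, h3, _⟩ := hx
      obtain ⟨h4, h5, h6⟩ := hy
      rw [key2_edge h1, h3, key2_col h4, h5]
      have := n_lt_YY (A := A)
      have e : YY A * (2 * j + 2) = YY A * (2 * j + 1) + YY A := by ring
      omega)
    (fun j _ x hx => by
      have e : YY A * (2 * j + 2) = YY A * (2 * j + 1) + YY A := by ring
      have e2 : YY A * (2 * (j + 1) + 1) = YY A * (2 * j + 1) + YY A + YY A := by ring
      have h0 := n_lt_YY (A := A)
      rw [List.mem_append, mem_colE, mem_rdc] at hx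
      rcases hx with ⟨h1, h2, h3, _⟩ | ⟨h1, h2, h3⟩
      · rw [key2_edge h1, h3]
        omega
      · have h4 := kap_le (A := A) j
        rw [key2_col h1, h2]
        omega)
    (fun i _ => Nat.mul_le_mul_left _ (by omega))
  unfold seq2
  rw [List.pairwise_append]
  refine ⟨h1, h2.1, fun x hx y hy => ?_⟩
  have h4 := (h2.2.2 y hy).1
  rw [mem_ld] at hx
  rw [key2_row (A := A) hx.1]
  have h5 := n_lt_YY (A := A)
  simp only [mul_zero, zero_add, mul_one] at h4
  omega

theorem seq1_nodup : (seq1 A).Nodup :=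
  seq1_pairwise.imp fun h h' => by rw [h'] at h; exact lt_irrefl _ h

theorem seq2_nodup : (seq2 A).Nodup :=
  seq2_pairwise.imp fun h h' => by rw [h'] at h; exact lt_irrefl _ h

theorem seq_perm : (seq1 A).Perm (seq2 A) :=
  (List.perm_ext_iff_of_nodup seq1_nodup seq2_nodup).2 fun x => by rw [mem_seq1, mem_seq2]

end Pairwise

section Bounds

theorem mem_cases {x : El} (hx : x ∈ seq1 A) :
    (x.1 = 2 ∧ x.2.1 < A.length ∧ x.2.2 < A.length) ∨
    (x.1 = 1 ∧ x.2.1 < A.length ∧ x.2.2 = 0) ∨
    (x.1 = 0 ∧ x.2.1 < A.length ∧ x.2.2 < A.length) := by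
  rw [mem_seq1, mem_rd, mem_ld] at hx
  rcases hx with ⟨h1, h2, h3⟩ | h | ⟨h1, h2, h3, _⟩
  · have := kap_le (A := A) x.2.1
    exact Or.inl ⟨h1, h2, by omega⟩
  · exact Or.inr (Or.inl h)
  · exact Or.inr (Or.inr ⟨h1, h2, h3⟩)

theorem key1_bound {x : El} (hx : x ∈ seq1 A) :
    1 ≤ key1 A x ∧ key1 A x ≤ YY A * (2 * A.length + 2) := by
  have h0 := n_lt_YY (A := A)
  have h00 := nn_lt_YY (A := A)
  rcases mem_cases hx with ⟨h1, h2, h3⟩ | ⟨h1, h2, h3⟩ | ⟨h1, h2, h3⟩
  · rw [key1_col h1]
    have h4 : x.2.1 * (A.length + 1) + (A.length + 1) ≤ A.length * (A.length + 1) := by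
      rw [← Nat.succ_mul]
      exact Nat.mul_le_mul_right _ h2
    have h5 : YY A * 1 ≤ YY A * (2 * A.length + 2) := Nat.mul_le_mul_left _ (by omega)
    omega
  · rw [key1_row h1]
    have h4 : YY A * (2 * x.2.1 + 2) ≤ YY A * (2 * A.length + 2) :=
      Nat.mul_le_mul_left _ (by omega)
    have h5 : YY A * 1 ≤ YY A * (2 * x.2.1 + 2) := Nat.mul_le_mul_left _ (by omega)
    omega
  · rw [key1_edge h1]
    have h4 : YY A * (2 * x.2.1 + 1) + YY A ≤ YY A * (2 * A.length + 2) := by
      have : YY A * (2 * x.2.1 + 1) + YY A = YY A * (2 * x.2.1 + 2) := by ring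
      rw [this]
      exact Nat.mul_le_mul_left _ (by omega)
    have h5 : YY A * 1 ≤ YY A * (2 * x.2.1 + 1) := Nat.mul_le_mul_left _ (by omega)
    omega

theorem key2_bound {x : El} (hx : x ∈ seq1 A) :
    1 ≤ key2 A x ∧ key2 A x ≤ YY A * (2 * A.length + 2) := by
  have h0 := n_lt_YY (A := A)
  rcases mem_cases hx with ⟨h1, h2, h3⟩ | ⟨h1, h2, h3⟩ | ⟨h1, h2, h3⟩
  · rw [key2_col h1]
    have h4 : YY A * (2 * x.2.1 + 2) + YY A ≤ YY A * (2 * A.length + 2) := by
      have : YY A * (2 * x.2.1 + 2) + YY A = YY A * (2 * x.2.1 + 3) := by ring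
      rw [this]
      exact Nat.mul_le_mul_left _ (by omega)
    have h5 : YY A * 1 ≤ YY A * (2 * x.2.1 + 2) := Nat.mul_le_mul_left _ (by omega)
    omega
  · rw [key2_row h1]
    have h5 : YY A * 1 ≤ YY A * (2 * A.length + 2) := Nat.mul_le_mul_left _ (by omega)
    omega
  · rw [key2_edge h1]
    have h4 : YY A * (2 * x.2.2 + 1) + YY A ≤ YY A * (2 * A.length + 2) := by
      have : YY A * (2 * x.2.2 + 1) + YY A = YY A * (2 * x.2.2 + 2) := by ring
      rw [this]
      exact Nat.mul_le_mul_left _ (by omega)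
    have h5 : YY A * 1 ≤ YY A * (2 * x.2.2 + 1) := Nat.mul_le_mul_left _ (by omega)
    omega

theorem na_bound {x : El} (hx : x ∈ seq1 A) : na x < UU A := by
  have e : UU A = 4 * (A.length * A.length) + 8 * A.length + 4 := by unfold UU; ring
  have h0 : 0 ≤ A.length * A.length := Nat.zero_le _
  rcases mem_cases hx with ⟨h1, h2, h3⟩ | ⟨h1, h2, h3⟩ | ⟨h1, h2, h3⟩
  · simp only [na, h1, OfNat.ofNat_ne_zero, OfNat.ofNat_ne_one, decide_false, cond_false]
    omega
  · simp only [na, h1, one_ne_zero, decide_false, cond_false, decide_true, cond_true]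
    omega
  · simp only [na, h1, decide_true, cond_true]
    omega

theorem nb_bound {x : El} (hx : x ∈ seq1 A) : nb A x < UU A := by
  have e : UU A = 4 * (A.length * A.length) + 8 * A.length + 4 := by unfold UU; ring
  rcases mem_cases hx with ⟨h1, h2, h3⟩ | ⟨h1, h2, h3⟩ | ⟨h1, h2, h3⟩
  · simp only [nb, h1, OfNat.ofNat_ne_zero, OfNat.ofNat_ne_one, decide_false, cond_false]
    have h4 := KK_le (A := A) x.2.1
    have h5 := Nat.mul_le_mul_right A.length h2.le
    omega
  · simp only [nb, h1, one_ne_zero, decide_false, cond_false, decide_true, cond_true]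
    omega
  · simp only [nb, h1, decide_true, cond_true]
    have h4 := KK_le (A := A) x.2.2
    have h5 := Nat.mul_le_mul_right A.length h3.le
    have h6 := kap_le (A := A) x.2.2
    omega

theorem UU_pos : 0 < UU A := by unfold UU; positivity

/-- bounds for the numbers of slots -/
theorem slots_bound {t k m : ℕ} (ht : 1 ≤ t) (hk : 1 ≤ k ∧ k ≤ YY A * (2 * A.length + 2))
    (hm : m < UU A) : m + 1 ≤ t * (UU A * k) ∧ t * (UU A * k) ≤ t * GG A := by
  have h1 : UU A * k ≤ GG A := Nat.mul_le_mul_left _ hk.2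
  have h2 : 1 * (UU A * 1) ≤ t * (UU A * k) :=
    Nat.mul_le_mul ht (Nat.mul_le_mul_left _ hk.1)
  exact ⟨by omega, Nat.mul_le_mul_left _ h1⟩

theorem al_bound {t : ℕ} (ht : 1 ≤ t) {x : El} (hx : x ∈ seq1 A) :
    1 ≤ al A t x ∧ al A t x ≤ t * GG A := by
  have := slots_bound ht (key1_bound hx) (na_bound hx)
  unfold al
  omega

theorem be_bound {t : ℕ} (ht : 1 ≤ t) {x : El} (hx : x ∈ seq1 A) :
    1 ≤ be A t x ∧ be A t x ≤ t * GG A := by
  have := slots_bound ht (key2_bound hx) (nb_bound hx)
  unfold be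
  omega

theorem mono_aux {t u k k' m m' : ℕ} (ht : 1 ≤ t) (hk : k < k') (hm : m' < u) :
    t * (u * k) - m ≤ t * (u * k') - m' := by
  have h1 : t * (u * k) + t * u ≤ t * (u * k') := by
    have h2 : t * (u * (k + 1)) ≤ t * (u * k') := Nat.mul_le_mul_left _ (Nat.mul_le_mul_left _ hk)
    calc t * (u * k) + t * u = t * (u * (k + 1)) := by ring
      _ ≤ _ := h2
  have h3 : 1 * u ≤ t * u := Nat.mul_le_mul_right _ ht
  omega

theorem al_cast {t : ℕ} (ht : 1 ≤ t) {x : El} (hx : x ∈ seq1 A) :
    ((al A t x : ℕ) : ℤ) = -(na x : ℤ) + ((UU A * key1 A x : ℕ) : ℤ) * t := by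
  have := slots_bound ht (key1_bound hx) (na_bound hx)
  unfold al
  rw [Nat.cast_sub (by omega)]
  push_cast
  ring

theorem be_cast {t : ℕ} (ht : 1 ≤ t) {x : El} (hx : x ∈ seq1 A) :
    ((be A t x : ℕ) : ℤ) = -(nb A x : ℤ) + ((UU A * key2 A x : ℕ) : ℤ) * t := by
  have := slots_bound ht (key2_bound hx) (nb_bound hx)
  unfold be
  rw [Nat.cast_sub (by omega)]
  push_cast
  ring

end Bounds

theorem ys_mem {t : ℕ} (ht : 1 ≤ t) : ∀ p ∈ ys A t, p.1 < p.2 ∧ p.2 ≤ 2 * (t * GG A) ∧
    p.1 < t * GG A ∧ t * GG A ≤ p.2 ∧ p.2 < 2 * (t * GG A) := by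
  intro p hp
  rw [ys, List.mem_map] at hp
  obtain ⟨x, hx, rfl⟩ := hp
  have h1 := al_bound ht hx
  have h2 := be_bound ht hx
  simp only
  omega

/-- the posets are N-free interval orders and unions of a chain and an antichain -/
theorem Q_valid {t : ℕ} (ht : 1 ≤ t) :
    (IntervalOrder (Q A t) ∧ NFree (Q A t)) ∧ ChainAntichain (Q A t) := by
  have h1 : ∀ p ∈ ys A t, p.1 < p.2 ∧ p.2 ≤ 2 * (t * GG A) := fun p hp =>
    ⟨(ys_mem ht p hp).1, (ys_mem ht p hp).2.1⟩
  refine ⟨⟨intervalOrder_full _ _ h1, nfree_full _ _ h1⟩, 2 * (t * GG A), ?_, ?_, ?_⟩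
  · rw [Q, ordM_length, full_length]
    omega
  · intro i j hij hj
    rw [Q, ordM_lt, full_length]
    refine ⟨by omega, by omega, ?_⟩
    rw [full_left _ _ i (by omega), full_left _ _ j hj]
    exact hij
  · intro i j hi hj h
    rw [Q, ordM_lt, full_length] at h
    obtain ⟨h2, h3, h4⟩ := h
    obtain ⟨a, rfl⟩ := Nat.exists_eq_add_of_le hi
    obtain ⟨b, rfl⟩ := Nat.exists_eq_add_of_le hj
    have ha : a < (ys A t).length := by omega
    have hb : b < (ys A t).length := by omega
    rw [full_right _ _ a ha, full_right _ _ b hb, List.getD_eq_getElem _ _ ha,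
      List.getD_eq_getElem _ _ hb] at h4
    have h5 := ys_mem ht _ (List.getElem_mem ha)
    have h6 := ys_mem ht _ (List.getElem_mem hb)
    omega

/-- the number of linear extensions of the posets -/
theorem numLE_Q {t : ℕ} (ht : 1 ≤ t) : ((numLE (Q A t) : ℕ) : ℤ) =
    (ZP (seq1 A) (seq2 A) (fun x => -(na x : ℤ)) (fun x => -(nb A x : ℤ))
      (fun x => ((UU A * key1 A x : ℕ) : ℤ)) (fun x => ((UU A * key2 A x : ℕ) : ℤ))).eval
      (t : ℤ) := by
  have hlen : (ys A t).length = (seq1 A).length := by simp [ys]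
  have hget : ∀ j : Fin (seq1 A).length, (ys A t).getD j.val (0, 0) =
      (t * GG A - al A t ((seq1 A).get j), t * GG A - 1 + be A t ((seq1 A).get j)) := by
    intro j
    rw [List.getD_eq_getElem _ _ (by rw [hlen]; exact j.2)]
    simp [ys]
  have hmem : ∀ j : Fin (seq1 A).length, (seq1 A).get j ∈ seq1 A := fun j => List.get_mem _ _
  rw [Q, numLE_full (2 * (t * GG A)) (ys A t) (seq1 A).length hlen
    (fun j => t * GG A - al A t ((seq1 A).get j))
    (fun j => t * GG A - 1 + be A t ((seq1 A).get j)) hget]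
  · have h1 := card_slots (2 * (t * GG A)) (seq1 A).length (fun j =>
      Icc (t * GG A - al A t ((seq1 A).get j)) (t * GG A - 1 + be A t ((seq1 A).get j)))
      (fun j v hv => by
        rw [Finset.mem_Icc] at hv
        have h2 := al_bound ht (hmem j)
        have h3 := be_bound ht (hmem j)
        omega)
    simp only [Finset.mem_Icc] at h1
    rw [h1]
    have h2 : List.ofFn (fun j : Fin (seq1 A).length =>
        Icc (t * GG A - al A t ((seq1 A).get j)) (t * GG A - 1 + be A t ((seq1 A).get j))) =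
        (seq1 A).map (fun x => Icc (t * GG A - al A t x) (t * GG A - 1) ∪
          Icc (t * GG A) (t * GG A - 1 + be A t x)) := by
      conv_rhs => rw [← List.ofFn_get (seq1 A), List.map_ofFn]
      congr 1
      funext j
      simp only [Function.comp]
      have h2 := al_bound ht (hmem j)
      have h3 := be_bound ht (hmem j)
      ext v
      rw [Finset.mem_union, Finset.mem_Icc, Finset.mem_Icc, Finset.mem_Icc]
      omega
    rw [h2]
    by_cases hne : ∃ x, x ∈ seq1 A
    · obtain ⟨x0, hx0⟩ := hne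
      have hpos : 1 ≤ t * GG A := by
        have := al_bound ht hx0
        omega
      rw [TT_split (fun x => Icc (t * GG A - al A t x) (t * GG A - 1))
        (fun x => Icc (t * GG A) (t * GG A - 1 + be A t x)) (al A t) (be A t) (seq1 A) (seq2 A)
        seq1_nodup seq_perm]
      · rw [ZP_eval]
        push_cast
        refine Finset.sum_congr rfl fun L _ => ?_
        rw [WN_cast (al A t) (fun x => -(na x : ℤ) + ((UU A * key1 A x : ℕ) : ℤ) * t),
          WN_cast (be A t) (fun x => -(nb A x : ℤ) + ((UU A * key2 A x : ℕ) : ℤ) * t)]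
        · push_cast
          rfl
        · intro x hx
          exact be_cast ht (seq_perm.mem_iff.2 (List.mem_filter.1 hx).1)
        · intro x hx
          exact al_cast ht (List.mem_filter.1 hx).1
      · intro x hx
        have := al_bound ht hx
        rw [Nat.card_Icc]
        omega
      · intro x hx
        have := be_bound ht hx
        rw [Nat.card_Icc]
        omega
      · intro x y
        rw [Finset.disjoint_left]
        intro v hv hv'
        rw [Finset.mem_Icc] at hv hv'
        omega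
      · refine (List.pairwise_iff_getElem.2 fun i j hi hj hij => ?_)
        have h3 := List.pairwise_iff_getElem.1 (seq1_pairwise (A := A)) i j hi hj hij
        have h4 : al A t (seq1 A)[i] ≤ al A t (seq1 A)[j] :=
          mono_aux ht h3 (na_bound (List.getElem_mem hj))
        intro v hv
        rw [Finset.mem_Icc] at hv ⊢
        omega
      · refine (List.pairwise_iff_getElem.2 fun i j hi hj hij => ?_)
        have h3 := List.pairwise_iff_getElem.1 (seq2_pairwise (A := A)) i j hi hj hij
        have h4 : be A t (seq2 A)[i] ≤ be A t (seq2 A)[j] :=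
          mono_aux ht h3 (nb_bound (seq_perm.mem_iff.2 (List.getElem_mem hj)))
        intro v hv
        rw [Finset.mem_Icc] at hv ⊢
        omega
    · have h3 : seq1 A = [] := by
        rw [List.eq_nil_iff_forall_not_mem]
        intro x hx
        exact hne ⟨x, hx⟩
      have h4 : seq2 A = [] := by
        have := seq_perm (A := A)
        rw [h3] at this
        exact this.nil_eq.symm
      rw [h3, h4, ZP_eval]
      simp [TT_nil, WZ]
  · intro j
    have h2 := al_bound ht (hmem j)
    have h3 := be_bound ht (hmem j)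
    omega
  · intro j
    have h2 := al_bound ht (hmem j)
    have h3 := be_bound ht (hmem j)
    omega
  · intro i j h
    have h2 := al_bound ht (hmem j)
    have h3 := be_bound ht (hmem i)
    omega

/-- **The reduction identity.** -/
theorem identityQ (hsq : ∀ r ∈ A, r.length = A.length) (hdeg : ∀ j < A.length, 1 ≤ degL A j)
    (g : ℕ → ℕ) (hg : ∀ t, 1 ≤ t → t ≤ (seq1 A).length + 1 → g t = numLE (Q A t))
    (hg0 : g 0 = 0) :
    ∑ t ∈ range ((seq1 A).length + 1 + 1), (-1 : ℤ) ^ t * (((seq1 A).length + 1).choose t) *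
      ((g t : ℕ) : ℤ) =
      -((-1) ^ A.length * (∏ h ∈ range A.length, cst (kap A h)) * F A) := by
  rw [extrap0 (ZP (seq1 A) (seq2 A) (fun x => -(na x : ℤ)) (fun x => -(nb A x : ℤ))
      (fun x => ((UU A * key1 A x : ℕ) : ℤ)) (fun x => ((UU A * key2 A x : ℕ) : ℤ)))
    (seq1 A).length (ZP_natDegree _ _ _ _ _ _ seq_perm) (fun t => ((g t : ℕ) : ℤ)),
    ZP_zero hsq hdeg]
  · intro t h1 h2
    rw [hg t h1 h2, numLE_Q h1]
  · simp [hg0]

/-- the absolute values of the constants -/
theorem cst_natAbs (κ : ℕ) : (cst κ).natAbs = κ.factorial * κ.factorial := by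
  unfold cst
  rw [Int.natAbs_mul]
  have h1 : ∀ m : ℕ, (∏ q ∈ range m, ((m : ℤ) - q)).natAbs = m.factorial := by
    intro m
    have h2 : (∏ q ∈ range m, ((m : ℤ) - q)) = (m.factorial : ℤ) := by
      rw [← Finset.prod_range_reflect]
      rw [← Finset.prod_range_add_one_eq_factorial]
      push_cast
      refine Finset.prod_congr rfl fun q hq => ?_
      rw [Finset.mem_range] at hq
      rw [Nat.cast_sub (by omega), Nat.cast_sub (by omega)]
      push_cast
      ring
    rw [h2, Int.natAbs_natCast]
  have h3 : (∏ k ∈ range κ, ((k : ℤ) - κ)).natAbs = κ.factorial := by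
    rw [← h1 κ, ← Int.natAbsHom_apply, ← Int.natAbsHom_apply, map_prod, map_prod]
    simp only [Int.natAbsHom_apply]
    refine Finset.prod_congr rfl fun k _ => ?_
    rw [← Int.natAbs_neg]
    congr 1
    ring
  rw [h1, h3]

end Pool.Agent.TH686.LE
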