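import Pool.Agent.TH686.LE.Mem
import Pool.Agent.TH686.LE.CA

/-!
# Membership in `#P` for restricted classes
-/

namespace Pool.Agent.TH686.LE

open Classical in
/-- the number of linear extensions for the matrices of a class; `0` otherwise -/
noncomputable def numLEc (C : List (List Bool) → Prop) (A : List (List Bool)) : ℕ :=
  if C A then numLE A else 0

theorem numLEc_size (C : List (List Bool) → Prop) (A : List (List Bool)) :
    (numLEc C A).size ≤ A.length * A.length + 1 := by
  rw [numLEc]
  split_ifs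
  · exact numLE_size A
  · simp

end Pool.Agent.TH686.LE

namespace Pool.Agent.NPC.H686LE

open Pool.Agent.TH686.LE
open Pool.Agent.H549R2.Convex Pool.Agent.NPC.Cnt
open Pool.Agent.NPC.H549Convex (LL ent_poly sqB sqB_poly)

/-- test of one pair of indices -/
def caT (z : (LL × ℕ) × ℕ × ℕ) : Bool :=
  (!(decide (z.2.1 < z.2.2) && decide (z.2.2 < z.1.2)) || ent z.1.1 z.2.1 z.2.2) &&
    (!(decide (z.1.2 ≤ z.2.1) && decide (z.1.2 ≤ z.2.2)) || !ent z.1.1 z.2.1 z.2.2)

theorem caT_p : Poly caT := by
  have hA : Poly (fun z : (LL × ℕ) × ℕ × ℕ => z.1.1) := Poly.fst (Poly.fst Poly.id)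
  have hm : Poly (fun z : (LL × ℕ) × ℕ × ℕ => z.1.2) := Poly.snd (Poly.fst Poly.id)
  have hi : Poly (fun z : (LL × ℕ) × ℕ × ℕ => z.2.1) := Poly.fst (Poly.snd Poly.id)
  have hj : Poly (fun z : (LL × ℕ) × ℕ × ℕ => z.2.2) := Poly.snd (Poly.snd Poly.id)
  have he : Poly (fun z : (LL × ℕ) × ℕ × ℕ => ent z.1.1 z.2.1 z.2.2) :=
    ent_poly.comp (f := fun z : (LL × ℕ) × ℕ × ℕ => (z.1.1, z.2.1, z.2.2))
      (Poly.pair hA (Poly.pair hi hj))
  exact Poly.and (Poly.or (Poly.not (Poly.and (Poly.decide_lt hi hj) (Poly.decide_lt hj hm))) he)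
    (Poly.or (Poly.not (Poly.and (Poly.decide_le hm hi) (Poly.decide_le hm hj))) (Poly.not he))

/-- test of the union of a chain and an antichain -/
def caB (A : LL) : Bool := (List.range (A.length + 1)).any fun m =>
  (List.range A.length).all fun i => (List.range A.length).all fun j => caT ((A, m), i, j)

theorem caB_p : Poly caB := by
  have h1 : Poly (fun z : ((LL × ℕ) × ℕ) × ℕ => caT (z.1.1, z.1.2, z.2)) :=
    caT_p.comp (f := fun z : ((LL × ℕ) × ℕ) × ℕ => (z.1.1, z.1.2, z.2))
      (Poly.pair (Poly.fst (Poly.fst Poly.id)) (Poly.pair (Poly.snd (Poly.fst Poly.id))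
        (Poly.snd Poly.id)))
  have h2 : Poly (fun z : (LL × ℕ) × ℕ => (List.range z.1.1.length).all fun j =>
      caT (z.1, z.2, j)) :=
    all_p (f := fun (z : (LL × ℕ) × ℕ) j => caT (z.1, z.2, j))
      (UPoly.length (Poly.fst (Poly.fst Poly.id))) h1
  have h3 : Poly (fun z : LL × ℕ => (List.range z.1.length).all fun i =>
      (List.range z.1.length).all fun j => caT (z, i, j)) :=
    all_p (f := fun (z : LL × ℕ) i => (List.range z.1.length).all fun j => caT (z, i, j))
      (UPoly.length (Poly.fst Poly.id)) h2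
  exact Poly.any (p := fun (A : LL) m => (List.range A.length).all fun i =>
    (List.range A.length).all fun j => caT ((A, m), i, j))
    (UPoly.add (UPoly.length Poly.id) (UPoly.const 1)).range h3

theorem caB_iff {A : LL} (hsq : ∀ r ∈ A, r.length = A.length) :
    caB A = true ↔ ChainAntichain A := by
  unfold caB ChainAntichain
  simp only [List.any_eq_true, List.all_eq_true, List.mem_range, caT, Bool.and_eq_true,
    Bool.or_eq_true, Bool.not_eq_true', Bool.and_eq_false_iff, decide_eq_false_iff_not,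
    lt_iff_ent]
  constructor
  · rintro ⟨m, hm, h⟩
    refine ⟨m, by omega, fun i j hij hjm => ?_, fun i j hi hj he => ?_⟩
    · rcases (h i (by omega) j (by omega)).1 with h1 | h1
      · omega
      · exact h1
    · have hb := lt_bound hsq ((lt_iff_ent A i j).2 he)
      rcases (h i hb.1 j hb.2).2 with h1 | h1
      · omega
      · rw [he] at h1; exact absurd h1 (by simp)
  · rintro ⟨m, hm, h1, h2⟩
    refine ⟨m, by omega, fun i _ j _ => ⟨?_, ?_⟩⟩
    · by_cases h3 : i < j ∧ j < m
      · exact Or.inr (h1 i j h3.1 h3.2)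
      · left; omega
    · by_cases h3 : m ≤ i ∧ m ≤ j
      · right
        have := h2 i j h3.1 h3.2
        simpa using this
      · left; omega

/-- test of the restricted class -/
def vcB (A : LL) : Bool := vB A && caB A

theorem vcB_p : Poly vcB := Poly.and vB_p caB_p

theorem vcB_iff (A : LL) : vcB A = true ↔ (IntervalOrder A ∧ NFree A) ∧ ChainAntichain A := by
  rw [vcB, Bool.and_eq_true, vB_iff]
  constructor
  · rintro ⟨h1, h2⟩
    exact ⟨h1, (caB_iff h1.1.1).1 h2⟩
  · rintro ⟨h1, h2⟩
    exact ⟨h1, (caB_iff h1.1.1).2 h2⟩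

/-- test of a certificate -/
def crtG (cB : LL → Bool) (A : LL) (w : List ℕ) : Bool :=
  cB A && (decide (w.length = A.length) &&
    ((List.range A.length).all (fun i => decide (w.getD i 0 < A.length)) &&
    (List.range A.length).all (fun i => (List.range A.length).all fun k =>
      (!decide (w.getD i 0 = w.getD k 0) || decide (i = k)) &&
      (!ent A i k || decide (w.getD i 0 < w.getD k 0)))))

theorem crtG_p {cB : LL → Bool} (hcB : Poly cB) :
    Poly (fun x : LL × List ℕ => crtG cB x.1 x.2) := by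
  have hA : Poly (fun x : LL × List ℕ => x.1) := Poly.fst Poly.id
  have hn : UPoly (fun x : LL × List ℕ => x.1.length) := UPoly.length hA
  have hw1 : Poly (fun z : (LL × List ℕ) × ℕ => z.1.2.getD z.2 0) :=
    Poly.getD (Poly.snd (Poly.fst Poly.id)) (Poly.snd Poly.id) (Poly.const 0)
  have h1 : Poly (fun z : (LL × List ℕ) × ℕ => decide (z.1.2.getD z.2 0 < z.1.1.length)) :=
    Poly.decide_lt hw1 (Poly.length (Poly.fst (Poly.fst Poly.id)))
  have hwi : Poly (fun z : ((LL × List ℕ) × ℕ) × ℕ => z.1.1.2.getD z.1.2 0) :=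
    Poly.getD (Poly.snd (Poly.fst (Poly.fst Poly.id))) (Poly.snd (Poly.fst Poly.id))
      (Poly.const 0)
  have hwk : Poly (fun z : ((LL × List ℕ) × ℕ) × ℕ => z.1.1.2.getD z.2 0) :=
    Poly.getD (Poly.snd (Poly.fst (Poly.fst Poly.id))) (Poly.snd Poly.id) (Poly.const 0)
  have he : Poly (fun z : ((LL × List ℕ) × ℕ) × ℕ => ent z.1.1.1 z.1.2 z.2) :=
    ent_poly.comp (f := fun z : ((LL × List ℕ) × ℕ) × ℕ => (z.1.1.1, z.1.2, z.2))
      (Poly.pair (Poly.fst (Poly.fst (Poly.fst Poly.id)))
        (Poly.pair (Poly.snd (Poly.fst Poly.id)) (Poly.snd Poly.id)))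
  have h2 : Poly (fun z : ((LL × List ℕ) × ℕ) × ℕ =>
      (!decide (z.1.1.2.getD z.1.2 0 = z.1.1.2.getD z.2 0) || decide (z.1.2 = z.2)) &&
      (!ent z.1.1.1 z.1.2 z.2 || decide (z.1.1.2.getD z.1.2 0 < z.1.1.2.getD z.2 0))) :=
    Poly.and (Poly.or (Poly.not (Poly.decide_eq hwi hwk))
      (Poly.decide_eq (Poly.snd (Poly.fst Poly.id)) (Poly.snd Poly.id)))
      (Poly.or (Poly.not he) (Poly.decide_lt hwi hwk))
  have h3 : Poly (fun z : (LL × List ℕ) × ℕ => (List.range z.1.1.length).all fun k =>
      (!decide (z.1.2.getD z.2 0 = z.1.2.getD k 0) || decide (z.2 = k)) &&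
      (!ent z.1.1 z.2 k || decide (z.1.2.getD z.2 0 < z.1.2.getD k 0))) :=
    all_p (f := fun (z : (LL × List ℕ) × ℕ) k =>
      (!decide (z.1.2.getD z.2 0 = z.1.2.getD k 0) || decide (z.2 = k)) &&
      (!ent z.1.1 z.2 k || decide (z.1.2.getD z.2 0 < z.1.2.getD k 0)))
      (UPoly.length (Poly.fst (Poly.fst Poly.id))) h2
  have h4 := all_p (α := LL × List ℕ) (f := fun (x : LL × List ℕ) i =>
    decide (x.2.getD i 0 < x.1.length)) hn h1
  have h5 := all_p (α := LL × List ℕ) (f := fun (x : LL × List ℕ) i =>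
    (List.range x.1.length).all fun k =>
      (!decide (x.2.getD i 0 = x.2.getD k 0) || decide (i = k)) &&
      (!ent x.1 i k || decide (x.2.getD i 0 < x.2.getD k 0))) hn h3
  exact Poly.and (hcB.comp hA) (Poly.and (Poly.decide_eq (Poly.length (Poly.snd Poly.id))
    (Poly.length hA)) (Poly.and h4 h5))

theorem crtG_card {cB : LL → Bool} {C : LL → Prop} (hC : ∀ A, cB A = true ↔ C A) (A : LL) :
    Nat.card {w : List ℕ // crtG cB A w = true} = numLEc C A := by
  classical
  by_cases hv : C A
  · rw [numLEc, if_pos hv, numLE]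
    have hcrt : ∀ w : List ℕ, crtG cB A w = true ↔ w.length = A.length ∧
        (∀ i < A.length, w.getD i 0 < A.length) ∧
        ∀ i < A.length, ∀ k < A.length, (w.getD i 0 = w.getD k 0 → i = k) ∧
          (Lt A i k → w.getD i 0 < w.getD k 0) := by
      intro w
      unfold crtG
      rw [(hC A).2 hv]
      simp only [Bool.true_and, Bool.and_eq_true, decide_eq_true_eq, List.all_eq_true,
        List.mem_range, Bool.or_eq_true, Bool.not_eq_true', decide_eq_false_iff_not]
      refine and_congr Iff.rfl (and_congr Iff.rfl ?_)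
      refine forall_congr' fun i => forall_congr' fun _ => forall_congr' fun k =>
        forall_congr' fun _ => ?_
      rw [lt_iff_ent]
      cases ent A i k <;> simp <;> tauto
    symm
    have hgd : ∀ (f : Fin A.length → Fin A.length) (i : ℕ) (hi : i < A.length),
        (List.ofFn (fun i => (f i).val)).getD i 0 = (f ⟨i, hi⟩).val := by
      intro f i hi
      rw [List.getD_eq_getElem _ _ (by rw [List.length_ofFn]; exact hi), List.getElem_ofFn]
    refine Nat.card_congr (Equiv.ofBijective
      (fun σ : {σ : Equiv.Perm (Fin A.length) //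
        ∀ i j : Fin A.length, Lt A i j → σ i < σ j} =>
        (⟨List.ofFn (fun i => (σ.1 i).val), ?_⟩ : {w : List ℕ // crtG cB A w = true})) ⟨?_, ?_⟩)
    · rw [hcrt]
      refine ⟨List.length_ofFn, fun i hi => ?_, fun i hi k hk => ⟨fun h => ?_, fun h => ?_⟩⟩
      · rw [hgd σ.1 i hi]
        exact (σ.1 ⟨i, hi⟩).2
      · rw [hgd σ.1 i hi, hgd σ.1 k hk] at h
        have h1 := σ.1.injective (Fin.ext h)
        exact Fin.mk.inj_iff.1 h1
      · rw [hgd σ.1 i hi, hgd σ.1 k hk]
        exact σ.2 ⟨i, hi⟩ ⟨k, hk⟩ h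
    · intro f g h
      apply Subtype.ext
      have h1 := congrArg Subtype.val h
      simp only at h1
      have h2 := List.ofFn_injective h1
      apply Equiv.ext
      intro i
      exact Fin.ext (congrFun h2 i)
    · rintro ⟨w, hc⟩
      obtain ⟨hlen, hlt, hinj⟩ := (hcrt w).1 hc
      have hinj' : Function.Injective
          (fun i : Fin A.length => (⟨w.getD i.val 0, hlt i.val i.2⟩ : Fin A.length)) := by
        intro i k h
        exact Fin.ext ((hinj i.val i.2 k.val k.2).1 (Fin.mk.inj_iff.1 h))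
      refine ⟨⟨Equiv.ofBijective _ (Finite.injective_iff_bijective.1 hinj'),
        fun i j hij => ?_⟩, ?_⟩
      · exact Fin.lt_def.2 ((hinj i.val i.2 j.val j.2).2 hij)
      · apply Subtype.ext
        simp only
        apply List.ext_getElem
        · rw [List.length_ofFn, hlen]
        · intro i h1 h2
          rw [List.getElem_ofFn]
          simp only [Equiv.ofBijective_apply]
          rw [List.getD_eq_getElem w _ h2]
  · rw [numLEc, if_neg hv]
    have : ∀ w, ¬ crtG cB A w = true := by
      intro w h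
      unfold crtG at h
      simp only [Bool.and_eq_true] at h
      exact hv ((hC A).1 h.1)
    have : IsEmpty {w : List ℕ // crtG cB A w = true} := ⟨fun w => this w.1 w.2⟩
    exact Nat.card_of_isEmpty

theorem memG {cB : LL → Bool} (hcB : Poly cB) {C : LL → Prop} (hC : ∀ A, cB A = true ↔ C A) :
    SharpP (strFn (numLEc C)) := by
  have h := sharpP_typed (crtG cB) (crtG_p hcB)
    (Polynomial.X * (Polynomial.C 4 * Polynomial.X + Polynomial.C 2) + Polynomial.C 1) ?_
  · have e : (fun A : LL => Nat.card {w : List ℕ // crtG cB A w = true}) = numLEc C :=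
      funext (crtG_card hC)
    rw [e] at h
    exact h
  · intro A w hc
    unfold crtG at hc
    simp only [Bool.and_eq_true, decide_eq_true_eq, List.all_eq_true, List.mem_range] at hc
    obtain ⟨_, hlen, hlt, _⟩ := hc
    have h1 : ∀ a ∈ w, sz a ≤ 4 * A.length + 1 := by
      intro a ha
      obtain ⟨i, hi, rfl⟩ := List.mem_iff_getElem.1 ha
      have h2 := hlt i (by omega)
      rw [List.getD_eq_getElem w _ hi] at h2
      have h3 := sz_nat_le w[i]
      have h4 : (w[i]).size ≤ w[i] := Nat.size_le.2 Nat.lt_two_pow_self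
      omega
    have h2 := sz_le_length_mul w _ h1
    have h3 := length_lt_sz A
    simp only [Polynomial.eval_add, Polynomial.eval_mul, Polynomial.eval_X, Polynomial.eval_C]
    have h4 : w.length * (4 * A.length + 1 + 1) ≤ sz A * (4 * sz A + 2) :=
      Nat.mul_le_mul (by omega) (by omega)
    omega

end Pool.Agent.NPC.H686LE
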