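import Pool.Agent.TH686.LE.Defs
import Pool.Agent.H549R2.NRed

/-!
# Membership in `#P`
-/

namespace Pool.Agent.TH686.LE

open Finset

theorem lt_bound {A : List (List Bool)} (hsq : ∀ r ∈ A, r.length = A.length) {i j : ℕ}
    (h : Lt A i j) : i < A.length ∧ j < A.length := by
  unfold Lt at h
  have hi : i < A.length := by
    by_contra hc
    have h3 : A.getD i [] = [] := List.getD_eq_default _ _ (not_lt.1 hc)
    rw [h3] at h
    simp at h
  refine ⟨hi, ?_⟩
  rw [List.getD_eq_getElem _ _ hi] at h
  have h2 : (A[i]).length = A.length := hsq _ (List.getElem_mem hi)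
  by_contra hc
  have h3 : (A[i]).length ≤ j := by omega
  rw [List.getD_eq_default _ _ h3] at h
  simp at h

/-- Fishburn's theorem -/
theorem intervalOrder_iff (A : List (List Bool)) : IntervalOrder A ↔
    (∀ r ∈ A, r.length = A.length) ∧ (∀ i < A.length, ¬ Lt A i i) ∧
      ∀ a < A.length, ∀ b < A.length, ∀ c < A.length, ∀ d < A.length,
        Lt A a b → Lt A c d → Lt A a d ∨ Lt A c b := by
  classical
  constructor
  · rintro ⟨h1, l, r, h2⟩
    refine ⟨h1, fun i hi h3 => ?_, fun a ha b hb c hc d hd hab hcd => ?_⟩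
    · have h4 := ((h2 i hi).2 i hi).1 h3
      have h5 := (h2 i hi).1
      omega
    · have h3 := ((h2 a ha).2 b hb).1 hab
      have h4 := ((h2 c hc).2 d hd).1 hcd
      rcases le_total (r a) (r c) with h5 | h5
      · left; exact ((h2 a ha).2 d hd).2 (h5.trans h4)
      · right; exact ((h2 c hc).2 b hb).2 (h5.trans h3)
  · rintro ⟨h1, h2, h3⟩
    refine ⟨h1, ?_⟩
    let pr : ℕ → Finset ℕ := fun x => (range A.length).filter (fun y => Lt A y x)
    let l : ℕ → ℕ := fun x => (pr x).card
    let r : ℕ → ℕ := fun x => ((range A.length).filter (fun z => ¬ Lt A x z)).sup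
      (fun z => (pr z).card + 1)
    refine ⟨l, r, fun i hi => ⟨?_, fun j hj => ⟨fun hij => ?_, fun hij => ?_⟩⟩⟩
    · have h4 : i ∈ (range A.length).filter (fun z => ¬ Lt A i z) := by
        rw [mem_filter, mem_range]; exact ⟨hi, h2 i hi⟩
      exact Finset.le_sup (f := fun z => (pr z).card + 1) h4
    · refine Finset.sup_le fun z hz => ?_
      rw [mem_filter, mem_range] at hz
      obtain ⟨hz, hiz⟩ := hz
      refine Finset.card_lt_card ⟨?_, ?_⟩
      · intro y hy
        simp only [pr, mem_filter, mem_range] at hy ⊢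
        refine ⟨hy.1, ?_⟩
        rcases h3 i hi j hj y hy.1 z hz hij hy.2 with h5 | h5
        · exact absurd h5 hiz
        · exact h5
      · intro hc
        have h6 : i ∈ pr z := hc (by simp only [pr, mem_filter, mem_range]; exact ⟨hi, hij⟩)
        simp only [pr, mem_filter] at h6
        exact hiz h6.2
    · by_contra h4
      have h5 : j ∈ (range A.length).filter (fun z => ¬ Lt A i z) := by
        rw [mem_filter, mem_range]; exact ⟨hj, h4⟩
      have h6 := Finset.le_sup (f := fun z => (pr z).card + 1) h5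
      have h7 : (pr j).card + 1 ≤ (pr j).card := h6.trans hij
      omega

theorem numLE_le (A : List (List Bool)) : numLE A ≤ A.length.factorial := by
  classical
  unfold numLE
  rw [Nat.card_eq_fintype_card]
  refine (Fintype.card_subtype_le _).trans ?_
  rw [Fintype.card_perm, Fintype.card_fin]

theorem numLE_size (A : List (List Bool)) : (numLE A).size ≤ A.length * A.length + 1 := by
  rw [Nat.size_le]
  have h1 := numLE_le A
  have h2 : A.length.factorial ≤ A.length ^ A.length := Nat.factorial_le_pow _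
  have h3 : A.length ^ A.length ≤ (2 ^ A.length) ^ A.length :=
    Nat.pow_le_pow_left (Nat.lt_two_pow_self).le _
  rw [← pow_mul] at h3
  have h4 : 2 ^ (A.length * A.length) < 2 ^ (A.length * A.length + 1) :=
    Nat.pow_lt_pow_right (by norm_num) (by omega)
  omega

open Classical in
/-- the number of linear extensions, for the matrices of N-free interval orders; `0` otherwise -/
noncomputable def numLE' (A : List (List Bool)) : ℕ :=
  if IntervalOrder A ∧ NFree A then numLE A else 0

theorem numLE'_size (A : List (List Bool)) : (numLE' A).size ≤ A.length * A.length + 1 := by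
  rw [numLE']
  split_ifs
  · exact numLE_size A
  · simp

end Pool.Agent.TH686.LE

namespace Pool.Agent.NPC.H686LE

open Pool.Agent.TH686.LE
open Pool.Agent.H549R2.Convex Pool.Agent.NPC.Cnt
open Pool.Agent.NPC.H549Convex (LL ent_poly sqB sqB_poly)

section Loops

variable {α : Type} [TEnc α]

theorem all_p {n : α → ℕ} {f : α → ℕ → Bool} (hn : UPoly n)
    (hf : Poly (fun p : α × ℕ => f p.1 p.2)) : Poly (fun a => (List.range (n a)).all (f a)) :=
  Poly.all (p := f) hn.range hf

/-- two indices -/
abbrev Z2 : Type := (LL × ℕ) × ℕ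

/-- four indices -/
abbrev Z4 : Type := (((LL × ℕ) × ℕ) × ℕ) × ℕ

/-- loop over four indices -/
def all4 (ts : Z4 → Bool) (A : LL) : Bool :=
  (List.range A.length).all fun a => (List.range A.length).all fun b =>
    (List.range A.length).all fun c => (List.range A.length).all fun d => ts ((((A, a), b), c), d)

theorem all4_p {ts : Z4 → Bool} (h : Poly ts) : Poly (all4 ts) := by
  have h4 : Poly (fun z : ((LL × ℕ) × ℕ) × ℕ => (List.range z.1.1.1.length).all fun d =>
      ts (z, d)) :=
    all_p (f := fun (z : ((LL × ℕ) × ℕ) × ℕ) d => ts (z, d))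
      (UPoly.length (Poly.fst (Poly.fst (Poly.fst Poly.id)))) h
  have h3 : Poly (fun z : (LL × ℕ) × ℕ => (List.range z.1.1.length).all fun c =>
      (List.range z.1.1.length).all fun d => ts ((z, c), d)) :=
    all_p (f := fun (z : (LL × ℕ) × ℕ) c => (List.range z.1.1.length).all fun d =>
      ts ((z, c), d)) (UPoly.length (Poly.fst (Poly.fst Poly.id))) h4
  have h2 : Poly (fun z : LL × ℕ => (List.range z.1.length).all fun b =>
      (List.range z.1.length).all fun c => (List.range z.1.length).all fun d =>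
        ts (((z, b), c), d)) :=
    all_p (f := fun (z : LL × ℕ) b => (List.range z.1.length).all fun c =>
      (List.range z.1.length).all fun d => ts (((z, b), c), d))
      (UPoly.length (Poly.fst Poly.id)) h3
  exact all_p (f := fun (A : LL) a => (List.range A.length).all fun b =>
      (List.range A.length).all fun c => (List.range A.length).all fun d =>
        ts ((((A, a), b), c), d)) (UPoly.length Poly.id) h2

theorem all4_iff {ts : Z4 → Bool} {A : LL} : all4 ts A = true ↔
    ∀ a < A.length, ∀ b < A.length, ∀ c < A.length, ∀ d < A.length,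
      ts ((((A, a), b), c), d) = true := by
  unfold all4
  simp only [List.all_eq_true, List.mem_range]

end Loops

/-- irreflexivity -/
def irB (A : LL) : Bool := (List.range A.length).all fun i => !ent A i i

theorem irB_p : Poly irB :=
  all_p (f := fun (A : LL) i => !ent A i i) (UPoly.length Poly.id)
    (Poly.not (ent_poly.comp (f := fun p : LL × ℕ => (p.1, p.2, p.2))
      (Poly.pair (Poly.fst Poly.id) (Poly.pair (Poly.snd Poly.id) (Poly.snd Poly.id)))))

/-- test of the Ferrers condition -/
def feT (z : Z4) : Bool :=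
  !(ent z.1.1.1.1 z.1.1.1.2 z.1.1.2 && ent z.1.1.1.1 z.1.2 z.2) ||
    (ent z.1.1.1.1 z.1.1.1.2 z.2 || ent z.1.1.1.1 z.1.2 z.1.1.2)

/-- test of a covering pair -/
def cvT (z : Z2) : Bool :=
  ent z.1.1 z.1.2 z.2 && (List.range z.1.1.length).all fun k =>
    !(ent z.1.1 z.1.2 k && ent z.1.1 k z.2)

theorem cvT_p : Poly cvT := by
  have hA : Poly (fun z : Z2 × ℕ => z.1.1.1) := Poly.fst (Poly.fst (Poly.fst Poly.id))
  have hi : Poly (fun z : Z2 × ℕ => z.1.1.2) := Poly.snd (Poly.fst (Poly.fst Poly.id))
  have hj : Poly (fun z : Z2 × ℕ => z.1.2) := Poly.snd (Poly.fst Poly.id)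
  have hk : Poly (fun z : Z2 × ℕ => z.2) := Poly.snd Poly.id
  have h1 : Poly (fun z : Z2 × ℕ => ent z.1.1.1 z.1.1.2 z.2) :=
    ent_poly.comp (f := fun z : Z2 × ℕ => (z.1.1.1, z.1.1.2, z.2))
      (Poly.pair hA (Poly.pair hi hk))
  have h2 : Poly (fun z : Z2 × ℕ => ent z.1.1.1 z.2 z.1.2) :=
    ent_poly.comp (f := fun z : Z2 × ℕ => (z.1.1.1, z.2, z.1.2))
      (Poly.pair hA (Poly.pair hk hj))
  have h3 : Poly (fun z : Z2 => (List.range z.1.1.length).all fun k =>
      !(ent z.1.1 z.1.2 k && ent z.1.1 k z.2)) :=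
    all_p (f := fun (z : Z2) k => !(ent z.1.1 z.1.2 k && ent z.1.1 k z.2))
      (UPoly.length (Poly.fst (Poly.fst Poly.id))) (Poly.not (Poly.and h1 h2))
  have h4 : Poly (fun z : Z2 => ent z.1.1 z.1.2 z.2) :=
    ent_poly.comp (f := fun z : Z2 => (z.1.1, z.1.2, z.2))
      (Poly.pair (Poly.fst (Poly.fst Poly.id)) (Poly.pair (Poly.snd (Poly.fst Poly.id))
        (Poly.snd Poly.id)))
  exact Poly.and h4 h3

/-- test of the condition of N-free orders -/
def nfT (z : Z4) : Bool :=
  !(cvT ((z.1.1.1.1, z.1.1.1.2), z.1.2) && (cvT ((z.1.1.1.1, z.1.1.2), z.1.2) &&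
    cvT ((z.1.1.1.1, z.1.1.2), z.2))) || cvT ((z.1.1.1.1, z.1.1.1.2), z.2)

theorem feT_p : Poly feT := by
  have hA : Poly (fun z : Z4 => z.1.1.1.1) := Poly.fst (Poly.fst (Poly.fst (Poly.fst Poly.id)))
  have ha : Poly (fun z : Z4 => z.1.1.1.2) := Poly.snd (Poly.fst (Poly.fst (Poly.fst Poly.id)))
  have hb : Poly (fun z : Z4 => z.1.1.2) := Poly.snd (Poly.fst (Poly.fst Poly.id))
  have hc : Poly (fun z : Z4 => z.1.2) := Poly.snd (Poly.fst Poly.id)
  have hd : Poly (fun z : Z4 => z.2) := Poly.snd Poly.id
  have he : ∀ {a b : Z4 → ℕ}, Poly a → Poly b →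
      Poly (fun z : Z4 => ent z.1.1.1.1 (a z) (b z)) := fun {a b} ha hb =>
    ent_poly.comp (f := fun z : Z4 => (z.1.1.1.1, a z, b z)) (Poly.pair hA (Poly.pair ha hb))
  exact Poly.or (Poly.not (Poly.and (he ha hb) (he hc hd))) (Poly.or (he ha hd) (he hc hb))

theorem nfT_p : Poly nfT := by
  have hA : Poly (fun z : Z4 => z.1.1.1.1) := Poly.fst (Poly.fst (Poly.fst (Poly.fst Poly.id)))
  have ha : Poly (fun z : Z4 => z.1.1.1.2) := Poly.snd (Poly.fst (Poly.fst (Poly.fst Poly.id)))
  have hb : Poly (fun z : Z4 => z.1.1.2) := Poly.snd (Poly.fst (Poly.fst Poly.id))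
  have hc : Poly (fun z : Z4 => z.1.2) := Poly.snd (Poly.fst Poly.id)
  have hd : Poly (fun z : Z4 => z.2) := Poly.snd Poly.id
  have he : ∀ {a b : Z4 → ℕ}, Poly a → Poly b →
      Poly (fun z : Z4 => cvT ((z.1.1.1.1, a z), b z)) := fun {a b} ha hb =>
    cvT_p.comp (f := fun z : Z4 => ((z.1.1.1.1, a z), b z)) (Poly.pair (Poly.pair hA ha) hb)
  exact Poly.or (Poly.not (Poly.and (he ha hc) (Poly.and (he hb hc) (he hb hd)))) (he ha hd)

/-- test for N-free interval orders -/
def vB (A : LL) : Bool := sqB A && (irB A && (all4 feT A && all4 nfT A))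

theorem vB_p : Poly vB :=
  Poly.and sqB_poly (Poly.and irB_p (Poly.and (all4_p feT_p) (all4_p nfT_p)))

theorem sqB_iff (A : LL) : sqB A = true ↔ ∀ r ∈ A, r.length = A.length := by
  rw [sqB, List.all_eq_true]
  simp

theorem lt_iff_ent (A : LL) (i j : ℕ) : Lt A i j ↔ ent A i j = true := Iff.rfl

theorem cvT_iff {A : LL} (hsq : ∀ r ∈ A, r.length = A.length) (i j : ℕ) :
    cvT ((A, i), j) = true ↔ Cov A i j := by
  unfold cvT Cov
  simp only [Bool.and_eq_true, List.all_eq_true, List.mem_range, Bool.not_eq_true',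
    Bool.and_eq_false_iff, lt_iff_ent]
  refine and_congr Iff.rfl ⟨fun h k hk => ?_, fun h k _ => ?_⟩
  · have h1 := (lt_bound hsq ((lt_iff_ent A i k).2 hk.1)).2
    rcases h k h1 with h2 | h2
    · rw [hk.1] at h2; exact absurd h2 (by simp)
    · rw [hk.2] at h2; exact absurd h2 (by simp)
  · have h1 := h k
    cases h2 : ent A i k with
    | false => left; rfl
    | true =>
      cases h3 : ent A k j with
      | false => right; rfl
      | true => exact absurd ⟨h2, h3⟩ h1

theorem vB_iff (A : LL) : vB A = true ↔ IntervalOrder A ∧ NFree A := by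
  unfold vB
  rw [Bool.and_eq_true, Bool.and_eq_true, Bool.and_eq_true, sqB_iff, intervalOrder_iff,
    all4_iff, all4_iff]
  have h0 : irB A = true ↔ ∀ i < A.length, ¬ Lt A i i := by
    unfold irB
    simp only [List.all_eq_true, List.mem_range, Bool.not_eq_true', lt_iff_ent,
      Bool.not_eq_true]
  rw [h0]
  constructor
  · rintro ⟨hsq, h1, h2, h3⟩
    refine ⟨⟨hsq, h1, fun a ha b hb c hc d hd hab hcd => ?_⟩, fun a b c d hac hbc hbd => ?_⟩
    · have h4 := h2 a ha b hb c hc d hd
      simp only [feT, Bool.or_eq_true, Bool.not_eq_true', Bool.and_eq_false_iff] at h4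
      rw [lt_iff_ent] at hab hcd
      rw [hab, hcd] at h4
      simpa [lt_iff_ent] using h4
    · have ha := (lt_bound hsq hac.1).1
      have hc := (lt_bound hsq hac.1).2
      have hb := (lt_bound hsq hbc.1).1
      have hd := (lt_bound hsq hbd.1).2
      have h4 := h3 a ha b hb c hc d hd
      simp only [nfT] at h4
      rw [← cvT_iff hsq] at hac hbc hbd ⊢
      rw [hac, hbc, hbd] at h4
      simpa using h4
  · rintro ⟨⟨hsq, h1, h2⟩, h3⟩
    refine ⟨hsq, h1, fun a ha b hb c hc d hd => ?_, fun a ha b hb c hc d hd => ?_⟩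
    · have h4 := h2 a ha b hb c hc d hd
      simp only [feT, Bool.or_eq_true, Bool.not_eq_true', Bool.and_eq_false_iff]
      simp only [lt_iff_ent] at h4
      cases h5 : ent A a b with
      | false => left; left; rfl
      | true =>
        cases h6 : ent A c d with
        | false => left; right; rfl
        | true => right; exact h4 h5 h6
    · have h4 := h3 a b c d
      rw [← cvT_iff hsq, ← cvT_iff hsq, ← cvT_iff hsq, ← cvT_iff hsq] at h4
      simp only [nfT, Bool.or_eq_true, Bool.not_eq_true', Bool.and_eq_false_iff]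
      cases h5 : cvT ((A, a), c) with
      | false => left; left; rfl
      | true =>
        cases h6 : cvT ((A, b), c) with
        | false => left; right; left; rfl
        | true =>
          cases h7 : cvT ((A, b), d) with
          | false => left; right; right; rfl
          | true => right; exact h4 h5 h6 h7

/-- test of a certificate -/
def crt (A : LL) (w : List ℕ) : Bool :=
  vB A && (decide (w.length = A.length) &&
    ((List.range A.length).all (fun i => decide (w.getD i 0 < A.length)) &&
    (List.range A.length).all (fun i => (List.range A.length).all fun k =>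
      (!decide (w.getD i 0 = w.getD k 0) || decide (i = k)) &&
      (!ent A i k || decide (w.getD i 0 < w.getD k 0)))))

theorem crt_p : Poly (fun x : LL × List ℕ => crt x.1 x.2) := by
  have hA : Poly (fun x : LL × List ℕ => x.1) := Poly.fst Poly.id
  have hn : UPoly (fun x : LL × List ℕ => x.1.length) := UPoly.length hA
  have hw1 : Poly (fun z : (LL × List ℕ) × ℕ => z.1.2.getD z.2 0) :=
    Poly.getD (Poly.snd (Poly.fst Poly.id)) (Poly.snd Poly.id) (Poly.const 0)
  have h1 : Poly (fun z : (LL × List ℕ) × ℕ => decide (z.1.2.getD z.2 0 < z.1.1.length)) :=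
    Poly.decide_lt hw1 (Poly.length (Poly.fst (Poly.fst Poly.id)))
  have hwi : Poly (fun z : ((LL × List ℕ) × ℕ) × ℕ => z.1.1.2.getD z.1.2 0) :=
    Poly.getD (Poly.snd (Poly.fst (Poly.fst Poly.id))) (Poly.snd (Poly.fst Poly.id))
      (Poly.const 0)
  have hwk : Poly (fun z : ((LL × List ℕ) × ℕ) × ℕ => z.1.1.2.getD z.2 0) :=
    Poly.getD (Poly.snd (Poly.fst (Poly.fst Poly.id))) (Poly.snd Poly.id) (Poly.const 0)
  have he : Poly (fun z : ((LL × List ℕ) × ℕ) × ℕ => ent z.1.1.1 z.1.2 z.2) :=
    ent_poly.comp (f := fun z : ((LL × List ℕ) × ℕ) × ℕ => (z.1.1.1, z.1.2, z.2))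
      (Poly.pair (Poly.fst (Poly.fst (Poly.fst Poly.id)))
        (Poly.pair (Poly.snd (Poly.fst Poly.id)) (Poly.snd Poly.id)))
  have h2 : Poly (fun z : ((LL × List ℕ) × ℕ) × ℕ =>
      (!decide (z.1.1.2.getD z.1.2 0 = z.1.1.2.getD z.2 0) || decide (z.1.2 = z.2)) &&
      (!ent z.1.1.1 z.1.2 z.2 || decide (z.1.1.2.getD z.1.2 0 < z.1.1.2.getD z.2 0))) :=
    Poly.and (Poly.or (Poly.not (Poly.decide_eq hwi hwk))
      (Poly.decide_eq (Poly.snd (Poly.fst Poly.id)) (Poly.snd Poly.id)))
      (Poly.or (Poly.not he) (Poly.decide_lt hwi hwk))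
  have h3 : Poly (fun z : (LL × List ℕ) × ℕ => (List.range z.1.1.length).all fun k =>
      (!decide (z.1.2.getD z.2 0 = z.1.2.getD k 0) || decide (z.2 = k)) &&
      (!ent z.1.1 z.2 k || decide (z.1.2.getD z.2 0 < z.1.2.getD k 0))) :=
    all_p (f := fun (z : (LL × List ℕ) × ℕ) k =>
      (!decide (z.1.2.getD z.2 0 = z.1.2.getD k 0) || decide (z.2 = k)) &&
      (!ent z.1.1 z.2 k || decide (z.1.2.getD z.2 0 < z.1.2.getD k 0)))
      (UPoly.length (Poly.fst (Poly.fst Poly.id))) h2
  have h4 := all_p (α := LL × List ℕ) (f := fun (x : LL × List ℕ) i =>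
    decide (x.2.getD i 0 < x.1.length)) hn h1
  have h5 := all_p (α := LL × List ℕ) (f := fun (x : LL × List ℕ) i =>
    (List.range x.1.length).all fun k =>
      (!decide (x.2.getD i 0 = x.2.getD k 0) || decide (i = k)) &&
      (!ent x.1 i k || decide (x.2.getD i 0 < x.2.getD k 0))) hn h3
  exact Poly.and (vB_p.comp hA) (Poly.and (Poly.decide_eq (Poly.length (Poly.snd Poly.id))
    (Poly.length hA)) (Poly.and h4 h5))

theorem crt_card (A : LL) : Nat.card {w : List ℕ // crt A w = true} = numLE' A := by
  classical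
  by_cases hv : IntervalOrder A ∧ NFree A
  · rw [numLE', if_pos hv, numLE]
    have hcrt : ∀ w : List ℕ, crt A w = true ↔ w.length = A.length ∧
        (∀ i < A.length, w.getD i 0 < A.length) ∧
        ∀ i < A.length, ∀ k < A.length, (w.getD i 0 = w.getD k 0 → i = k) ∧
          (Lt A i k → w.getD i 0 < w.getD k 0) := by
      intro w
      unfold crt
      rw [(vB_iff A).2 hv]
      simp only [Bool.true_and, Bool.and_eq_true, decide_eq_true_eq, List.all_eq_true,
        List.mem_range, Bool.or_eq_true, Bool.not_eq_true', decide_eq_false_iff_not]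
      refine and_congr Iff.rfl (and_congr Iff.rfl ?_)
      refine forall_congr' fun i => forall_congr' fun _ => forall_congr' fun k =>
        forall_congr' fun _ => ?_
      rw [lt_iff_ent]
      cases ent A i k <;> simp <;> tauto
    symm
    have hgd : ∀ (f : Fin A.length → Fin A.length) (i : ℕ) (hi : i < A.length),
        (List.ofFn (fun i => (f i).val)).getD i 0 = (f ⟨i, hi⟩).val := by
      intro f i hi
      rw [List.getD_eq_getElem _ _ (by rw [List.length_ofFn]; exact hi), List.getElem_ofFn]
    refine Nat.card_congr (Equiv.ofBijective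
      (fun σ : {σ : Equiv.Perm (Fin A.length) //
        ∀ i j : Fin A.length, Lt A i j → σ i < σ j} =>
        (⟨List.ofFn (fun i => (σ.1 i).val), ?_⟩ : {w : List ℕ // crt A w = true})) ⟨?_, ?_⟩)
    · rw [hcrt]
      refine ⟨List.length_ofFn, fun i hi => ?_, fun i hi k hk => ⟨fun h => ?_, fun h => ?_⟩⟩
      · rw [hgd σ.1 i hi]
        exact (σ.1 ⟨i, hi⟩).2
      · rw [hgd σ.1 i hi, hgd σ.1 k hk] at h
        have h1 := σ.1.injective (Fin.ext h)
        exact Fin.mk.inj_iff.1 h1
      · rw [hgd σ.1 i hi, hgd σ.1 k hk]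
        exact σ.2 ⟨i, hi⟩ ⟨k, hk⟩ h
    · intro f g h
      apply Subtype.ext
      have h1 := congrArg Subtype.val h
      simp only at h1
      have h2 := List.ofFn_injective h1
      apply Equiv.ext
      intro i
      exact Fin.ext (congrFun h2 i)
    · rintro ⟨w, hc⟩
      obtain ⟨hlen, hlt, hinj⟩ := (hcrt w).1 hc
      have hinj' : Function.Injective
          (fun i : Fin A.length => (⟨w.getD i.val 0, hlt i.val i.2⟩ : Fin A.length)) := by
        intro i k h
        exact Fin.ext ((hinj i.val i.2 k.val k.2).1 (Fin.mk.inj_iff.1 h))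
      refine ⟨⟨Equiv.ofBijective _ (Finite.injective_iff_bijective.1 hinj'),
        fun i j hij => ?_⟩, ?_⟩
      · exact Fin.lt_def.2 ((hinj i.val i.2 j.val j.2).2 hij)
      · apply Subtype.ext
        simp only
        apply List.ext_getElem
        · rw [List.length_ofFn, hlen]
        · intro i h1 h2
          rw [List.getElem_ofFn]
          simp only [Equiv.ofBijective_apply]
          rw [List.getD_eq_getElem w _ h2]
  · rw [numLE', if_neg hv]
    have : ∀ w, ¬ crt A w = true := by
      intro w h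
      unfold crt at h
      simp only [Bool.and_eq_true] at h
      exact hv ((vB_iff A).1 h.1)
    haveI : IsEmpty {w : List ℕ // crt A w = true} := ⟨fun w => this w.1 w.2⟩
    exact Nat.card_of_isEmpty

theorem mem : SharpP (strFn numLE') := by
  have h := sharpP_typed crt crt_p
    (Polynomial.X * (Polynomial.C 4 * Polynomial.X + Polynomial.C 2) + Polynomial.C 1) ?_
  · have e : (fun A : LL => Nat.card {w : List ℕ // crt A w = true}) = numLE' := funext crt_card
    rw [e] at h
    exact h
  · intro A w hc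
    unfold crt at hc
    simp only [Bool.and_eq_true, decide_eq_true_eq, List.all_eq_true, List.mem_range] at hc
    obtain ⟨_, hlen, hlt, _⟩ := hc
    have h1 : ∀ a ∈ w, sz a ≤ 4 * A.length + 1 := by
      intro a ha
      obtain ⟨i, hi, rfl⟩ := List.mem_iff_getElem.1 ha
      have h2 := hlt i (by omega)
      rw [List.getD_eq_getElem w _ hi] at h2
      have h3 := sz_nat_le w[i]
      have h4 : (w[i]).size ≤ w[i] := Nat.size_le.2 Nat.lt_two_pow_self
      omega
    have h2 := sz_le_length_mul w _ h1
    have h3 := length_lt_sz A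
    simp only [Polynomial.eval_add, Polynomial.eval_mul, Polynomial.eval_X, Polynomial.eval_C]
    have h4 : w.length * (4 * A.length + 1 + 1) ≤ sz A * (4 * sz A + 2) :=
      Nat.mul_le_mul (by omega) (by omega)
    omega

end Pool.Agent.NPC.H686LE
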