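import Pool.Agent.TH686.LE.CA
import Pool.Agent.TH686.LE.Mem
import Pool.Agent.H549R2.NRed

/-!
# The reduction runs in polynomial time
-/

namespace Pool.Agent.NPC.H686CA

open Pool.Agent.TH686.LE
open Pool.Agent.H549R2.Convex Pool.Agent.NPC.Cnt Pool.Agent.NPC.H549NRed
open Pool.Agent.NPC.H549Convex (LL ent_poly degL_poly degL_le sqB sqB_poly degB degB_poly
  sum_filter_range_list fp_of_poly poly_prod upoly_fact)
open Pool.Agent.NPC.H549PM (upoly_min altp altp_poly)

theorem kap_p : Poly (fun p : LL × ℕ => kap p.1 p.2) := Poly.sub degL_poly (Poly.const 1)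

theorem kap_u : UPoly (fun p : LL × ℕ => kap p.1 p.2) :=
  UPoly.of_le kap_p (UPoly.length (Poly.fst Poly.id)) (fun p => kap_le (A := p.1) p.2)

/-- partial sums, with bounded index -/
def KKm (A : LL) (j : ℕ) : ℕ := KK A (min j A.length)

theorem KKm_p : Poly (fun p : LL × ℕ => KKm p.1 p.2) := by
  have h1 : UPoly (fun p : LL × ℕ => min p.2 p.1.length) :=
    upoly_min (Poly.snd Poly.id) (UPoly.length (Poly.fst Poly.id))
  have h2 : Poly (fun q : (LL × ℕ) × ℕ => kap q.1.1 q.2) :=
    kap_p.comp (f := fun q : (LL × ℕ) × ℕ => (q.1.1, q.2))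
      (Poly.pair (Poly.fst (Poly.fst Poly.id)) (Poly.snd Poly.id))
  exact Poly.sum (Poly.map (F := fun (p : LL × ℕ) h => kap p.1 h) h1.range h2)

theorem rowE_p : Poly (fun p : LL × ℕ => rowE p.1 p.2) := by
  have he : Poly (fun q : (LL × ℕ) × ℕ => ent q.1.1 q.1.2 q.2) :=
    ent_poly.comp (f := fun q : (LL × ℕ) × ℕ => (q.1.1, q.1.2, q.2))
      (Poly.pair (Poly.fst (Poly.fst Poly.id)) (Poly.pair (Poly.snd (Poly.fst Poly.id))
        (Poly.snd Poly.id)))
  have h1 : Poly (fun p : LL × ℕ => (List.range p.1.length).filter (fun j => ent p.1 p.2 j)) :=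
    Poly.filter (p := fun (p : LL × ℕ) j => ent p.1 p.2 j) (Poly.range_length (Poly.fst Poly.id))
      he
  have h2 : Poly (fun q : (LL × ℕ) × ℕ => ((0, q.1.2, q.2) : El)) :=
    Poly.pair (Poly.const 0) (Poly.pair (Poly.snd (Poly.fst Poly.id)) (Poly.snd Poly.id))
  exact Poly.map (F := fun (p : LL × ℕ) j => ((0, p.2, j) : El)) h1 h2

theorem rdc_p : Poly (fun p : LL × ℕ => rdc p.1 p.2) := by
  have h2 : Poly (fun q : (LL × ℕ) × ℕ => ((2, q.1.2, q.2) : El)) :=
    Poly.pair (Poly.const 2) (Poly.pair (Poly.snd (Poly.fst Poly.id)) (Poly.snd Poly.id))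
  exact Poly.map (F := fun (p : LL × ℕ) q => ((2, p.2, q) : El)) kap_u.range h2

theorem rd_p : Poly (fun A : LL => rd A) :=
  Poly.flatMap (F := fun (A : LL) j => rdc A j) (Poly.range_length Poly.id) rdc_p

theorem seq1_p : Poly (fun A : LL => seq1 A) := by
  have h1 : Poly (fun p : LL × ℕ => [((1, p.2, 0) : El)]) :=
    Poly.cons (Poly.pair (Poly.const 1) (Poly.pair (Poly.snd Poly.id) (Poly.const 0)))
      (Poly.const [])
  have h2 : Poly (fun p : LL × ℕ => rowE p.1 p.2 ++ [((1, p.2, 0) : El)]) :=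
    Poly.append rowE_p h1
  have h3 : Poly (fun A : LL => (List.range A.length).flatMap
      (fun i => rowE A i ++ [((1, i, 0) : El)])) :=
    Poly.flatMap (F := fun (A : LL) i => rowE A i ++ [((1, i, 0) : El)])
      (Poly.range_length Poly.id) h2
  exact Poly.append rd_p h3

theorem YY_u : UPoly (fun A : LL => YY A) := by
  have h : UPoly (fun A : LL => A.length + 1) := UPoly.add (UPoly.length Poly.id) (UPoly.const 1)
  exact UPoly.add (UPoly.mul h h) (UPoly.const 1)

theorem UU_u : UPoly (fun A : LL => UU A) := by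
  have h : UPoly (fun A : LL => A.length + 1) := UPoly.add (UPoly.length Poly.id) (UPoly.const 1)
  exact UPoly.mul (UPoly.const 4) (UPoly.mul h h)

theorem GG_u : UPoly (fun A : LL => GG A) := by
  have h : UPoly (fun A : LL => 2 * A.length + 2) :=
    UPoly.add (UPoly.mul (UPoly.const 2) (UPoly.length Poly.id)) (UPoly.const 2)
  exact UPoly.mul UU_u (UPoly.mul YY_u h)

section Elements

theorem x1_p : Poly (fun p : LL × El => p.2.1) := Poly.fst (Poly.snd Poly.id)

theorem x2_p : Poly (fun p : LL × El => p.2.2.1) := Poly.fst (Poly.snd (Poly.snd Poly.id))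

theorem x3_p : Poly (fun p : LL × El => p.2.2.2) := Poly.snd (Poly.snd (Poly.snd Poly.id))

theorem is0_p : Poly (fun p : LL × El => decide (p.2.1 = 0)) := Poly.decide_eq x1_p (Poly.const 0)

theorem is1_p : Poly (fun p : LL × El => decide (p.2.1 = 1)) := Poly.decide_eq x1_p (Poly.const 1)

theorem na_p : Poly (fun p : LL × El => na p.2) :=
  Poly.cond is0_p (Poly.add (Poly.mul (Poly.const 2) x2_p) (Poly.const 1))
    (Poly.cond is1_p (Poly.mul (Poly.const 2) x2_p) (Poly.const 0))

/-- the function `nb`, with bounded index -/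
def nbm (A : LL) (x : El) : ℕ := bif decide (x.1 = 0) then 2 * KKm A x.2.2 + kap A x.2.2 else
  bif decide (x.1 = 1) then 0 else 2 * KKm A x.2.1 + 2 * x.2.2

theorem nbm_p : Poly (fun p : LL × El => nbm p.1 p.2) := by
  have h1 : Poly (fun p : LL × El => KKm p.1 p.2.2.2) :=
    KKm_p.comp (f := fun p : LL × El => (p.1, p.2.2.2)) (Poly.pair (Poly.fst Poly.id) x3_p)
  have h2 : Poly (fun p : LL × El => kap p.1 p.2.2.2) :=
    kap_p.comp (f := fun p : LL × El => (p.1, p.2.2.2)) (Poly.pair (Poly.fst Poly.id) x3_p)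
  have h3 : Poly (fun p : LL × El => KKm p.1 p.2.2.1) :=
    KKm_p.comp (f := fun p : LL × El => (p.1, p.2.2.1)) (Poly.pair (Poly.fst Poly.id) x2_p)
  exact Poly.cond is0_p (Poly.add (Poly.mul (Poly.const 2) h1) h2)
    (Poly.cond is1_p (Poly.const 0) (Poly.add (Poly.mul (Poly.const 2) h3)
      (Poly.mul (Poly.const 2) x3_p)))

theorem YYx_p : Poly (fun p : LL × El => YY p.1) :=
  YY_u.toPoly.comp (f := fun p : LL × El => p.1) (Poly.fst Poly.id)

theorem key1_p : Poly (fun p : LL × El => key1 p.1 p.2) := by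
  have hl : Poly (fun p : LL × El => p.1.length) := Poly.length (Poly.fst Poly.id)
  have h0 : Poly (fun p : LL × El => YY p.1 * (2 * p.2.2.1 + 1) + p.2.2.2) :=
    Poly.add (Poly.mul YYx_p (Poly.add (Poly.mul (Poly.const 2) x2_p) (Poly.const 1))) x3_p
  have h1 : Poly (fun p : LL × El => YY p.1 * (2 * p.2.2.1 + 2)) :=
    Poly.mul YYx_p (Poly.add (Poly.mul (Poly.const 2) x2_p) (Poly.const 2))
  have h2 : Poly (fun p : LL × El => 1 + p.2.2.1 * (p.1.length + 1) + p.2.2.2) :=
    Poly.add (Poly.add (Poly.const 1) (Poly.mul x2_p (Poly.add hl (Poly.const 1)))) x3_p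
  exact Poly.cond is0_p h0 (Poly.cond is1_p h1 h2)

theorem key2_p : Poly (fun p : LL × El => key2 p.1 p.2) := by
  have h0 : Poly (fun p : LL × El => YY p.1 * (2 * p.2.2.2 + 1) + p.2.2.1) :=
    Poly.add (Poly.mul YYx_p (Poly.add (Poly.mul (Poly.const 2) x3_p) (Poly.const 1))) x2_p
  have h1 : Poly (fun p : LL × El => 1 + p.2.2.1) := Poly.add (Poly.const 1) x2_p
  have h2 : Poly (fun p : LL × El => YY p.1 * (2 * p.2.2.1 + 2) + p.2.2.2) :=
    Poly.add (Poly.mul YYx_p (Poly.add (Poly.mul (Poly.const 2) x2_p) (Poly.const 2))) x3_p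
  exact Poly.cond is0_p h0 (Poly.cond is1_p h1 h2)

end Elements

/-- the parameter of a query -/
def tt (p : LL × ℕ) : ℕ := min p.2 (seq1 p.1).length + 1

theorem tt_u : UPoly tt := by
  have h : UPoly (fun p : LL × ℕ => (seq1 p.1).length) :=
    UPoly.length (seq1_p.comp (f := fun p : LL × ℕ => p.1) (Poly.fst Poly.id))
  exact UPoly.add (upoly_min (Poly.snd Poly.id) h) (UPoly.const 1)

/-- the intervals of the antichain -/
def ysm (A : LL) (t : ℕ) : List (ℕ × ℕ) :=
  (seq1 A).map (fun x => (t * GG A - (t * (UU A * key1 A x) - na x),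
    t * GG A - 1 + (t * (UU A * key2 A x) - nbm A x)))

theorem ysm_eq (A : LL) (t : ℕ) : ysm A t = ys A t := by
  unfold ysm ys
  refine List.map_congr_left fun x hx => ?_
  have h : nbm A x = nb A x := by
    unfold nbm nb KKm
    rcases mem_cases hx with ⟨h1, h2, h3⟩ | ⟨h1, h2, h3⟩ | ⟨h1, h2, h3⟩
    · rw [Nat.min_eq_left h2.le]
      simp [h1]
    · simp [h1]
    · rw [Nat.min_eq_left h3.le]
      simp [h1]
  rw [h]
  rfl

theorem ysm_p : Poly (fun p : LL × ℕ => ysm p.1 (tt p)) := by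
  have hx : Poly (fun q : (LL × ℕ) × El => (q.1.1, q.2)) :=
    Poly.pair (Poly.fst (Poly.fst Poly.id)) (Poly.snd Poly.id)
  have ht : Poly (fun q : (LL × ℕ) × El => tt q.1) :=
    tt_u.toPoly.comp (f := fun q : (LL × ℕ) × El => q.1) (Poly.fst Poly.id)
  have hG : Poly (fun q : (LL × ℕ) × El => GG q.1.1) :=
    GG_u.toPoly.comp (f := fun q : (LL × ℕ) × El => q.1.1) (Poly.fst (Poly.fst Poly.id))
  have hU : Poly (fun q : (LL × ℕ) × El => UU q.1.1) :=
    UU_u.toPoly.comp (f := fun q : (LL × ℕ) × El => q.1.1) (Poly.fst (Poly.fst Poly.id))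
  have h1 : Poly (fun q : (LL × ℕ) × El => key1 q.1.1 q.2) :=
    key1_p.comp (f := fun q : (LL × ℕ) × El => (q.1.1, q.2)) hx
  have h2 : Poly (fun q : (LL × ℕ) × El => key2 q.1.1 q.2) :=
    key2_p.comp (f := fun q : (LL × ℕ) × El => (q.1.1, q.2)) hx
  have h3 : Poly (fun q : (LL × ℕ) × El => na q.2) :=
    na_p.comp (f := fun q : (LL × ℕ) × El => (q.1.1, q.2)) hx
  have h4 : Poly (fun q : (LL × ℕ) × El => nbm q.1.1 q.2) :=
    nbm_p.comp (f := fun q : (LL × ℕ) × El => (q.1.1, q.2)) hx
  have h5 : Poly (fun q : (LL × ℕ) × El => tt q.1 * GG q.1.1 -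
      (tt q.1 * (UU q.1.1 * key1 q.1.1 q.2) - na q.2)) :=
    Poly.sub (Poly.mul ht hG) (Poly.sub (Poly.mul ht (Poly.mul hU h1)) h3)
  have h6 : Poly (fun q : (LL × ℕ) × El => tt q.1 * GG q.1.1 - 1 +
      (tt q.1 * (UU q.1.1 * key2 q.1.1 q.2) - nbm q.1.1 q.2)) :=
    Poly.add (Poly.sub (Poly.mul ht hG) (Poly.const 1))
      (Poly.sub (Poly.mul ht (Poly.mul hU h2)) h4)
  have h7 : Poly (fun p : LL × ℕ => seq1 p.1) :=
    seq1_p.comp (f := fun p : LL × ℕ => p.1) (Poly.fst Poly.id)
  exact Poly.map (F := fun (p : LL × ℕ) x => (tt p * GG p.1 -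
      (tt p * (UU p.1 * key1 p.1 x) - na x), tt p * GG p.1 - 1 +
      (tt p * (UU p.1 * key2 p.1 x) - nbm p.1 x))) h7 (Poly.pair h5 h6)

theorem ordM_p : Poly (fun L : List (ℕ × ℕ) => ordM L) := by
  have h1 : Poly (fun z : (List (ℕ × ℕ) × (ℕ × ℕ)) × (ℕ × ℕ) => decide (z.1.2.2 ≤ z.2.1)) :=
    Poly.decide_le (Poly.snd (Poly.snd (Poly.fst Poly.id))) (Poly.fst (Poly.snd Poly.id))
  have h2 : Poly (fun z : List (ℕ × ℕ) × (ℕ × ℕ) => z.1.map fun q => decide (z.2.2 ≤ q.1)) :=
    Poly.map (F := fun (z : List (ℕ × ℕ) × (ℕ × ℕ)) q => decide (z.2.2 ≤ q.1))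
      (Poly.fst Poly.id) h1
  exact Poly.map (F := fun (L : List (ℕ × ℕ)) p => L.map fun q => decide (p.2 ≤ q.1)) Poly.id h2

theorem Q_p : Poly (fun p : LL × ℕ => Q p.1 (tt p)) := by
  have h1 : UPoly (fun p : LL × ℕ => 2 * (tt p * GG p.1)) :=
    UPoly.mul (UPoly.const 2) (UPoly.mul tt_u
      (GG_u.comp (f := fun p : LL × ℕ => p.1) (Poly.fst Poly.id)))
  have h2 : Poly (fun p : LL × ℕ => chainL (2 * (tt p * GG p.1))) :=
    Poly.map (F := fun (_ : LL × ℕ) k => (k, k + 1)) h1.range
      (Poly.pair (Poly.snd Poly.id) (Poly.succ (Poly.snd Poly.id)))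
  have h3 : Poly (fun p : LL × ℕ => chainL (2 * (tt p * GG p.1)) ++ ysm p.1 (tt p)) :=
    Poly.append h2 ysm_p
  have h4 : Poly (fun p : LL × ℕ => ordM (chainL (2 * (tt p * GG p.1)) ++ ysm p.1 (tt p))) :=
    ordM_p.comp (f := fun p : LL × ℕ => chainL (2 * (tt p * GG p.1)) ++ ysm p.1 (tt p)) h3
  refine h4.congr fun p => ?_
  rw [ysm_eq]
  rfl

/-- the queries -/
def qs (A : LL) : List LL := (List.range ((seq1 A).length + 1)).map (fun j => Q A (tt (A, j)))

theorem qs_p : Poly qs := by
  have h1 : UPoly (fun A : LL => (seq1 A).length + 1) :=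
    UPoly.add (UPoly.length seq1_p) (UPoly.const 1)
  exact Poly.map (F := fun (A : LL) j => Q A (tt (A, j))) h1.range Q_p

/-- the constant of the reduction -/
def CC (A : LL) : ℕ :=
  ((List.range A.length).map (fun j => (kap A j).factorial * (kap A j).factorial)).prod

theorem CC_p : Poly CC := by
  have h1 : Poly (fun p : LL × ℕ => (kap p.1 p.2).factorial) := upoly_fact kap_u
  exact poly_prod (Poly.map (F := fun (A : LL) j => (kap A j).factorial * (kap A j).factorial)
    (Poly.range_length Poly.id) (Poly.mul h1 h1))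

/-- the terms of the alternating sum -/
def tm (p : LL × List ℕ) (t : ℕ) : ℕ := bif decide (t = 0) then 0 else p.2.getD (t - 1) 0

theorem tm_p : Poly (fun q : (LL × List ℕ) × ℕ => tm q.1 q.2) := by
  have ht : Poly (fun q : (LL × List ℕ) × ℕ => q.2) := Poly.snd Poly.id
  have h1 : Poly (fun q : (LL × List ℕ) × ℕ => decide (q.2 = 0)) :=
    Poly.decide_eq ht (Poly.const 0)
  have h2 : Poly (fun q : (LL × List ℕ) × ℕ => q.1.2.getD (q.2 - 1) 0) :=
    Poly.getD (Poly.snd (Poly.fst Poly.id)) (Poly.sub ht (Poly.const 1)) (Poly.const 0)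
  exact Poly.cond h1 (Poly.const 0) h2

/-- the final computation from the answers -/
def post (p : LL × List ℕ) : ℕ :=
  bif sqB p.1 then
    (bif degB p.1 then
      ((altp ((seq1 p.1).length + 1) (tm p) 0 - altp ((seq1 p.1).length + 1) (tm p) 1) +
      (altp ((seq1 p.1).length + 1) (tm p) 1 - altp ((seq1 p.1).length + 1) (tm p) 0)) / CC p.1
    else 0)
  else 0

theorem post_p : Poly post := by
  have h0 : Poly (fun p : LL × List ℕ => sqB p.1) := sqB_poly.comp (Poly.fst Poly.id)
  have h1 : Poly (fun p : LL × List ℕ => degB p.1) := degB_poly.comp (Poly.fst Poly.id)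
  have h2 : Poly (fun p : LL × List ℕ => CC p.1) :=
    CC_p.comp (f := fun p : LL × List ℕ => p.1) (Poly.fst Poly.id)
  have hs : Poly (fun p : LL × List ℕ => seq1 p.1) :=
    seq1_p.comp (f := fun p : LL × List ℕ => p.1) (Poly.fst Poly.id)
  have hq : UPoly (fun p : LL × List ℕ => (seq1 p.1).length + 1) :=
    UPoly.add (UPoly.length hs) (UPoly.const 1)
  have h3 := altp_poly (g := tm) hq tm_p 0
  have h4 := altp_poly (g := tm) hq tm_p 1
  exact Poly.cond h0 (Poly.cond h1 (Poly.div (Poly.add (Poly.sub h3 h4) (Poly.sub h4 h3)) h2)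
    (Poly.const 0)) (Poly.const 0)

theorem altp_sub (q : ℕ) (g : ℕ → ℕ) : ((altp q g 0 : ℕ) : ℤ) - (altp q g 1 : ℕ) =
    ∑ t ∈ Finset.range (q + 1), (-1 : ℤ) ^ t * (q.choose t) * ((g t : ℕ) : ℤ) := by
  rw [altp, altp, sum_filter_range_list, sum_filter_range_list]
  push_cast
  rw [← Finset.sum_sub_distrib]
  refine Finset.sum_congr rfl fun t ht => ?_
  rw [Finset.mem_range] at ht
  rw [Nat.min_eq_left (by omega : t ≤ q)]
  simp only [decide_eq_true_eq]
  rcases Nat.even_or_odd t with h' | h'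
  · rw [if_pos (Nat.even_iff.1 h'), if_neg (by have := Nat.even_iff.1 h'; omega), h'.neg_one_pow]
    ring
  · rw [if_neg (by have := Nat.odd_iff.1 h'; omega), if_pos (Nat.odd_iff.1 h'), h'.neg_one_pow]
    ring

/-- the promise -/
def Valid (A : LL) : Prop := (IntervalOrder A ∧ NFree A) ∧ ChainAntichain A

theorem prod_list (g : ℕ → ℕ) (n : ℕ) : ((List.range n).map g).prod = ∏ i ∈ Finset.range n, g i :=
  prod_range_list g n

theorem CC_natAbs (A : LL) :
    (∏ h ∈ Finset.range A.length, cst (kap A h)).natAbs = CC A := by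
  rw [CC, prod_list, ← Int.natAbsHom_apply, map_prod]
  refine Finset.prod_congr rfl fun h _ => ?_
  rw [Int.natAbsHom_apply, cst_natAbs]

theorem CC_pos (A : LL) : 0 < CC A := by
  rw [CC, prod_list]
  exact Finset.prod_pos fun h _ => Nat.mul_pos (Nat.factorial_pos _) (Nat.factorial_pos _)

theorem post_correct (A : LL) : post (A, (qs A).map numLE) = F A := by
  unfold post
  simp only
  cases hs : sqB A with
  | false =>
    rw [cond_false]
    have : ¬ ∀ r ∈ A, r.length = A.length := by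
      intro h
      rw [sqB, Bool.eq_false_iff] at hs
      apply hs
      rw [List.all_eq_true]
      intro r hr
      simp [h r hr]
    rw [F, if_neg this]
  | true =>
    have hsq : ∀ r ∈ A, r.length = A.length := by
      intro r hr
      rw [sqB, List.all_eq_true] at hs
      simpa using hs r hr
    rw [cond_true]
    cases hd : degB A with
    | false =>
      rw [cond_false]
      rw [degB, List.all_eq_false] at hd
      obtain ⟨j, hj, hj2⟩ := hd
      rw [List.mem_range] at hj
      simp only [decide_eq_true_eq, not_lt, Nat.le_zero] at hj2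
      exact (F_zero A hsq j hj hj2).symm
    | true =>
      rw [cond_true]
      have hdeg : ∀ j < A.length, 1 ≤ degL A j := by
        intro j hj
        rw [degB, List.all_eq_true] at hd
        have := hd j (List.mem_range.2 hj)
        simp only [decide_eq_true_eq] at this
        exact this
      have hg : ∀ t, 1 ≤ t → t ≤ (seq1 A).length + 1 →
          tm (A, (qs A).map numLE) t = numLE (Q A t) := by
        intro t h1 h2
        obtain ⟨j, rfl⟩ : ∃ j, t = j + 1 := ⟨t - 1, by omega⟩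
        have e1 : tm (A, (qs A).map numLE) (j + 1) = ((qs A).map numLE).getD j 0 := by
          simp [tm]
        have hlen : j < ((qs A).map numLE).length := by simp [qs]; omega
        rw [e1, List.getD_eq_getElem _ _ hlen, List.getElem_map]
        have h3 : (qs A)[j]'(by simpa using hlen) = Q A (j + 1) := by
          simp only [qs, List.getElem_map, List.getElem_range, tt,
            Nat.min_eq_left (by omega : j ≤ (seq1 A).length)]
        rw [h3]
      have hid := identityQ hsq hdeg (tm (A, (qs A).map numLE)) hg (by simp [tm])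
      have hsub := altp_sub ((seq1 A).length + 1) (tm (A, (qs A).map numLE))
      rw [hid] at hsub
      generalize altp ((seq1 A).length + 1) (tm (A, (qs A).map numLE)) 0 = u at hsub ⊢
      generalize altp ((seq1 A).length + 1) (tm (A, (qs A).map numLE)) 1 = v at hsub ⊢
      have h5 : (u - v) + (v - u) = CC A * F A := by
        have h6 := congrArg Int.natAbs hsub
        rw [Int.natAbs_neg, Int.natAbs_mul, Int.natAbs_mul, CC_natAbs, Int.natAbs_natCast] at h6
        have h7 : ((-1 : ℤ) ^ A.length).natAbs = 1 := by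
          rw [Int.natAbs_pow]; simp
        rw [h7, one_mul] at h6
        rw [← h6]
        omega
      rw [h5, Nat.mul_div_cancel_left _ (CC_pos A)]

/-- permanents reduce to counting the linear extensions of the restricted posets -/
theorem nred_le : NRed (fun _ : LL => True) F Valid numLE := by
  refine ⟨qs, post, qs_p, post_p, fun A _ => ⟨fun B hB => ?_, post_correct A⟩⟩
  rw [qs, List.mem_map] at hB
  obtain ⟨j, _, rfl⟩ := hB
  exact Q_valid (by simp [tt])

theorem nred_all : NRed (fun _ : CNF ℕ => True) (fun φ => satCount φ) Valid numLE :=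
  nred_sat.comp nred_le

end Pool.Agent.NPC.H686CA
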