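import Mathlib

/-!
# Linear extensions of a chain together with interval elements: counting by insertion
-/

namespace Pool.Agent.TH686.LE

open Finset

/-- insert a new last element at position `q` -/
def insFun {N : ℕ} (q : Fin (N + 1)) (τ : Equiv.Perm (Fin N)) (i : Fin (N + 1)) : Fin (N + 1) :=
  Fin.lastCases (motive := fun _ => Fin (N + 1)) q (fun i => q.succAbove (τ i)) i

theorem insFun_last {N : ℕ} (q : Fin (N + 1)) (τ : Equiv.Perm (Fin N)) :
    insFun q τ (Fin.last N) = q := by
  simp [insFun]

theorem insFun_castSucc {N : ℕ} (q : Fin (N + 1)) (τ : Equiv.Perm (Fin N)) (i : Fin N) :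
    insFun q τ i.castSucc = q.succAbove (τ i) := by
  simp [insFun]

theorem insFun_injective {N : ℕ} (q : Fin (N + 1)) (τ : Equiv.Perm (Fin N)) :
    Function.Injective (insFun q τ) := by
  intro a b h
  induction a using Fin.lastCases with
  | last =>
    induction b using Fin.lastCases with
    | last => rfl
    | cast b =>
      rw [insFun_last, insFun_castSucc] at h
      exact absurd h.symm (Fin.succAbove_ne _ _)
  | cast a =>
    induction b using Fin.lastCases with
    | last =>
      rw [insFun_last, insFun_castSucc] at h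
      exact absurd h (Fin.succAbove_ne _ _)
    | cast b =>
      rw [insFun_castSucc, insFun_castSucc] at h
      rw [τ.injective (Fin.succAbove_right_injective h)]

/-- insert a new last element at position `q` -/
noncomputable def ins {N : ℕ} (q : Fin (N + 1)) (τ : Equiv.Perm (Fin N)) :
    Equiv.Perm (Fin (N + 1)) :=
  Equiv.ofBijective (insFun q τ) (Finite.injective_iff_bijective.1 (insFun_injective q τ))

theorem ins_last {N : ℕ} (q : Fin (N + 1)) (τ : Equiv.Perm (Fin N)) :
    ins q τ (Fin.last N) = q := insFun_last q τ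

theorem ins_castSucc {N : ℕ} (q : Fin (N + 1)) (τ : Equiv.Perm (Fin N)) (i : Fin N) :
    ins q τ i.castSucc = q.succAbove (τ i) := insFun_castSucc q τ i

theorem ins_bijective (N : ℕ) :
    Function.Bijective (fun p : Fin (N + 1) × Equiv.Perm (Fin N) => ins p.1 p.2) := by
  rw [Fintype.bijective_iff_injective_and_card]
  constructor
  · rintro ⟨q, τ⟩ ⟨q', τ'⟩ h
    simp only at h
    have h1 : q = q' := by
      have := congrArg (fun σ : Equiv.Perm (Fin (N + 1)) => σ (Fin.last N)) h
      simpa only [ins_last] using this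
    subst h1
    have h2 : τ = τ' := by
      ext i
      have := congrArg (fun σ : Equiv.Perm (Fin (N + 1)) => σ i.castSucc) h
      simp only [ins_castSucc] at this
      exact congrArg Fin.val (Fin.succAbove_right_injective this)
    rw [h2]
  · rw [Fintype.card_prod, Fintype.card_perm, Fintype.card_perm, Fintype.card_fin,
      Fintype.card_fin, Nat.factorial_succ]

/-- the chain elements `0, …, M-1` appear in increasing order -/
def Inc (M n : ℕ) (σ : Equiv.Perm (Fin (M + n))) : Prop :=
  StrictMono (fun k : Fin M => σ (Fin.castAdd n k))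

instance (M n : ℕ) : DecidablePred (Inc M n) := fun σ => by
  unfold Inc StrictMono; infer_instance

/-- the number of chain elements before an element -/
def slot (M n : ℕ) (σ : Equiv.Perm (Fin (M + n))) (e : Fin (M + n)) : ℕ :=
  (univ.filter (fun k : Fin M => σ (Fin.castAdd n k) < σ e)).card

theorem inc_ins {M n : ℕ} (q : Fin (M + n + 1)) (τ : Equiv.Perm (Fin (M + n))) :
    Inc M (n + 1) (ins q τ) ↔ Inc M n τ := by
  have h : ∀ k : Fin M, (ins q τ : Equiv.Perm (Fin (M + (n + 1)))) (Fin.castAdd (n + 1) k) =
      q.succAbove (τ (Fin.castAdd n k)) := fun k => ins_castSucc q τ (Fin.castAdd n k)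
  unfold Inc
  constructor
  · intro h1 a b hab
    have h2 := h1 hab
    simp only [h] at h2
    exact Fin.succAbove_lt_succAbove_iff.1 h2
  · intro h1 a b hab
    simp only [h]
    exact Fin.succAbove_lt_succAbove_iff.2 (h1 hab)

theorem slot_ins_castSucc {M n : ℕ} (q : Fin (M + n + 1)) (τ : Equiv.Perm (Fin (M + n)))
    (e : Fin (M + n)) : slot M (n + 1) (ins q τ) e.castSucc = slot M n τ e := by
  unfold slot
  congr 1
  refine Finset.filter_congr fun k _ => ?_
  have h : (ins q τ : Equiv.Perm (Fin (M + (n + 1)))) (Fin.castAdd (n + 1) k) =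
      q.succAbove (τ (Fin.castAdd n k)) := ins_castSucc q τ (Fin.castAdd n k)
  rw [h, ins_castSucc]
  exact Fin.succAbove_lt_succAbove_iff

/-- number of chain elements before position `q` -/
def spos (M n : ℕ) (τ : Equiv.Perm (Fin (M + n))) (q : ℕ) : ℕ :=
  (univ.filter (fun k : Fin M => (τ (Fin.castAdd n k)).val < q)).card

theorem slot_ins_last {M n : ℕ} (q : Fin (M + n + 1)) (τ : Equiv.Perm (Fin (M + n))) :
    slot M (n + 1) (ins q τ) (Fin.last (M + n)) = spos M n τ q.val := by
  unfold slot spos
  congr 1
  refine Finset.filter_congr fun k _ => ?_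
  have h : (ins q τ : Equiv.Perm (Fin (M + (n + 1)))) (Fin.castAdd (n + 1) k) =
      q.succAbove (τ (Fin.castAdd n k)) := ins_castSucc q τ (Fin.castAdd n k)
  have h2 : (ins q τ : Equiv.Perm (Fin (M + (n + 1)))) (Fin.last (M + n)) = q := ins_last q τ
  rw [h, h2, Fin.succAbove_lt_iff_castSucc_lt]
  rfl

theorem spos_apply {M n : ℕ} (τ : Equiv.Perm (Fin (M + n))) (e : Fin (M + n)) :
    spos M n τ (τ e).val = slot M n τ e := rfl

theorem spos_last {M n : ℕ} (τ : Equiv.Perm (Fin (M + n))) : spos M n τ (M + n) = M := by
  unfold spos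
  rw [Finset.filter_true_of_mem (fun k _ => (τ (Fin.castAdd n k)).2), Finset.card_univ,
    Fintype.card_fin]

theorem slot_chain {M n : ℕ} {τ : Equiv.Perm (Fin (M + n))} (h : Inc M n τ) (k : Fin M) :
    slot M n τ (Fin.castAdd n k) = k.val := by
  unfold slot
  have h1 : (univ.filter (fun k' : Fin M => τ (Fin.castAdd n k') < τ (Fin.castAdd n k))) =
      univ.filter (fun k' : Fin M => k' < k) := by
    refine Finset.filter_congr fun k' _ => ?_
    exact h.lt_iff_lt
  rw [h1]
  have h2 : (univ.filter (fun k' : Fin M => k' < k)) = Finset.Iio k := by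
    ext a; simp
  rw [h2, Fin.card_Iio]

/-- the number of positions in a block -/
theorem card_pos {M n : ℕ} {τ : Equiv.Perm (Fin (M + n))} (h : Inc M n τ) (r B g : ℕ)
    (hM : M = r * B) (hr : 0 < r) (hg : g < B) :
    (univ.filter (fun q : Fin (M + n + 1) => spos M n τ q.val / r = g)).card =
      r + (univ.filter (fun j : Fin n => slot M n τ (Fin.natAdd M j) / r = g)).card := by
  have hlast : spos M n τ (M + n) / r ≠ g := by
    rw [spos_last, hM, Nat.mul_div_cancel_left _ hr]
    omega
  have hchain : (univ.filter (fun k : Fin M => k.val / r = g)).card = r := by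
    have h1 : (univ.filter (fun k : Fin M => k.val / r = g)).map Fin.valEmbedding =
        Finset.Ico (r * g) (r * g + r) := by
      ext x
      simp only [Finset.mem_map, Finset.mem_filter, Finset.mem_univ, true_and,
        Fin.valEmbedding_apply, Finset.mem_Ico]
      have hle : r * g + r ≤ M := by
        rw [hM, ← Nat.mul_succ]
        exact Nat.mul_le_mul_left _ hg
      constructor
      · rintro ⟨k, hk, rfl⟩
        have h2 := Nat.div_add_mod k.val r
        have h3 := Nat.mod_lt k.val hr
        rw [hk] at h2
        constructor <;> omega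
      · rintro ⟨h2, h3⟩
        refine ⟨⟨x, by omega⟩, ?_, rfl⟩
        simp only
        rw [Nat.div_eq_iff hr]
        constructor
        · rw [mul_comm]; omega
        · rw [mul_comm]; omega
    rw [← Finset.card_map Fin.valEmbedding, h1, Nat.card_Ico]
    omega
  rw [Finset.card_filter, Fin.sum_univ_castSucc]
  simp only [Fin.val_castSucc, Fin.val_last, if_neg hlast, add_zero]
  rw [← Equiv.sum_comp τ (fun i => if spos M n τ i.val / r = g then 1 else 0)]
  rw [Fin.sum_univ_add]
  rw [Finset.card_filter (fun j : Fin n => slot M n τ (Fin.natAdd M j) / r = g)]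
  refine congrArg₂ (· + ·) (Eq.trans ?_ hchain) rfl
  rw [Finset.card_filter]
  refine Finset.sum_congr rfl fun k _ => ?_
  rw [spos_apply, slot_chain h]

/-- number of earlier equal values -/
def eq_before {n : ℕ} (f : Fin n → ℕ) (i : Fin n) : ℕ :=
  (univ.filter (fun j : Fin n => j < i ∧ f j = f i)).card

theorem eq_before_castSucc {n : ℕ} (f : Fin (n + 1) → ℕ) (i : Fin n) :
    eq_before f i.castSucc = eq_before (fun j => f j.castSucc) i := by
  unfold eq_before
  rw [Finset.card_filter, Fin.sum_univ_castSucc, Finset.card_filter]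
  have h : ¬ (Fin.last n < i.castSucc ∧ f (Fin.last n) = f i.castSucc) := by
    rintro ⟨h, _⟩
    exact absurd h (not_lt.2 (Fin.le_last _))
  rw [if_neg h, add_zero]
  refine Finset.sum_congr rfl fun j _ => ?_
  simp only [Fin.castSucc_lt_castSucc_iff]

theorem eq_before_last {n : ℕ} (f : Fin (n + 1) → ℕ) :
    eq_before f (Fin.last n) =
      (univ.filter (fun j : Fin n => f j.castSucc = f (Fin.last n))).card := by
  unfold eq_before
  rw [Finset.card_filter, Fin.sum_univ_castSucc, Finset.card_filter]
  have h : ¬ (Fin.last n < Fin.last n ∧ f (Fin.last n) = f (Fin.last n)) := fun h =>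
    absurd h.1 (lt_irrefl _)
  rw [if_neg h, add_zero]
  refine Finset.sum_congr rfl fun j _ => ?_
  simp only [Fin.castSucc_lt_last, true_and]

/-- the arrangements with prescribed blocks -/
def Arr (M n r : ℕ) (f : Fin n → ℕ) : Finset (Equiv.Perm (Fin (M + n))) :=
  univ.filter (fun σ => Inc M n σ ∧ ∀ j : Fin n, slot M n σ (Fin.natAdd M j) / r = f j)

theorem card_arr (M r B : ℕ) (hM : M = r * B) (hr : 0 < r) : ∀ (n : ℕ) (f : Fin n → ℕ),
    (∀ i, f i < B) → (Arr M n r f).card = ∏ i : Fin n, (r + eq_before f i) := by
  intro n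
  induction n with
  | zero =>
    intro f _
    rw [Fin.prod_univ_zero, Finset.card_eq_one]
    refine ⟨1, ?_⟩
    ext σ
    rw [Finset.mem_singleton, Arr, Finset.mem_filter]
    constructor
    · rintro ⟨_, h, _⟩
      have h1 : StrictMono (σ : Fin M → Fin M) := h
      have h2 : (σ : Fin M → Fin M) = id := by
        have h3 : (h1.orderIsoOfSurjective _ σ.surjective) = OrderIso.refl (Fin M) :=
          Subsingleton.elim _ _
        have h4 := congrArg (fun e : Fin M ≃o Fin M => (e : Fin M → Fin M)) h3
        simpa using h4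
      ext i
      exact congrArg Fin.val (congrFun h2 i)
    · rintro rfl
      refine ⟨Finset.mem_univ _, fun a b hab => ?_, fun j => j.elim0⟩
      exact hab
  | succ n ih =>
    intro f hf
    have h1 : (Arr M (n + 1) r f).card =
        ∑ τ ∈ Arr M n r (fun j => f j.castSucc),
          (univ.filter (fun q : Fin (M + n + 1) => spos M n τ q.val / r = f (Fin.last n))).card := by
      rw [Finset.card_eq_sum_ones, Arr, Finset.sum_filter]
      refine ((ins_bijective (M + n)).sum_comp (fun σ : Equiv.Perm (Fin (M + (n + 1))) =>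
        if Inc M (n + 1) σ ∧ ∀ j : Fin (n + 1), slot M (n + 1) σ (Fin.natAdd M j) / r = f j
        then 1 else 0)).symm.trans ?_
      rw [Fintype.sum_prod_type_right, Arr, Finset.sum_filter]
      refine Finset.sum_congr rfl fun τ _ => ?_
      simp only
      have h2 : ∀ q : Fin (M + n + 1), (Inc M (n + 1) (ins q τ) ∧
          ∀ j : Fin (n + 1), slot M (n + 1) (ins q τ) (Fin.natAdd M j) / r = f j) ↔
          ((Inc M n τ ∧ ∀ j : Fin n, slot M n τ (Fin.natAdd M j) / r = f j.castSucc) ∧
            spos M n τ q.val / r = f (Fin.last n)) := by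
        intro q
        rw [inc_ins, Fin.forall_fin_succ']
        have e1 : ∀ j : Fin n, slot M (n + 1) (ins q τ) (Fin.natAdd M j.castSucc) =
            slot M n τ (Fin.natAdd M j) := fun j => slot_ins_castSucc q τ (Fin.natAdd M j)
        have e2 : slot M (n + 1) (ins q τ) (Fin.natAdd M (Fin.last n)) = spos M n τ q.val :=
          slot_ins_last q τ
        simp only [e1, e2, and_assoc]
      simp only [h2]
      split_ifs with h3
      · rw [Finset.card_filter]
        refine Finset.sum_congr rfl fun q _ => ?_
        by_cases h4 : spos M n τ q.val / r = f (Fin.last n)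
        · rw [if_pos ⟨h3, h4⟩, if_pos h4]
        · rw [if_neg (fun h5 => h4 h5.2), if_neg h4]
      · simp only [h3, false_and, if_false, Finset.sum_const_zero]
    rw [h1, Fin.prod_univ_castSucc]
    simp only [eq_before_castSucc, eq_before_last]
    rw [← ih (fun j => f j.castSucc) (fun i => hf _)]
    rw [Finset.sum_congr rfl (g := fun _ => r + (univ.filter (fun j : Fin n =>
      f j.castSucc = f (Fin.last n))).card)]
    · rw [Finset.sum_const, smul_eq_mul]
    · intro τ hτ
      rw [Arr, Finset.mem_filter] at hτ
      rw [card_pos hτ.2.1 r B _ hM hr (hf _)]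
      simp only [hτ.2.2]

end Pool.Agent.TH686.LE
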