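import Mathlib

/-!
# Finite posets given by 0-1 matrices: interval orders, N-free orders, linear extensions
-/

namespace Pool.Agent.TH686.LE

/-- The relation that `i` is below `j`, given by the list of rows `A`: the entry in row `i` and column
`j` is `true`. -/
def Lt (A : List (List Bool)) (i j : ℕ) : Prop := (A.getD i []).getD j false = true

/-- `A` is a square matrix and describes an interval order on `{0, …, A.length - 1}`: there are
nondegenerate intervals `[l i, r i]` such that `i` is below `j` iff the interval of `i` ends not
later than that of `j` starts. -/
def IntervalOrder (A : List (List Bool)) : Prop :=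
  (∀ row ∈ A, row.length = A.length) ∧
    ∃ l r : ℕ → ℕ, ∀ i < A.length, l i < r i ∧ ∀ j < A.length, (Lt A i j ↔ r i ≤ l j)

/-- `j` covers `i`. -/
def Cov (A : List (List Bool)) (i j : ℕ) : Prop := Lt A i j ∧ ∀ k, ¬ (Lt A i k ∧ Lt A k j)

/-- The order is N-free: if `c` covers `a` and `b`, and `d` covers `b`, then `d` covers `a` (so the
diagram of the order contains no induced `N`). -/
def NFree (A : List (List Bool)) : Prop :=
  ∀ a b c d, Cov A a c → Cov A b c → Cov A b d → Cov A a d

/-- The number of linear extensions: of the arrangements of the elements, in positions
`0, …, A.length - 1`, in which each element comes after all the elements below it. -/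
noncomputable def numLE (A : List (List Bool)) : ℕ :=
  Nat.card {σ : Equiv.Perm (Fin A.length) // ∀ i j : Fin A.length, Lt A i j → σ i < σ j}

end Pool.Agent.TH686.LE
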