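import Pool.Agent.TH686.LE.Count

/-!
# The number of arrangements is a polynomial in `r`; its value at `-1`
-/

namespace Pool.Agent.TH686.LE

open Finset

/-- the arrangements with blocks in prescribed sets -/
def ArrS (M n r : ℕ) (R : Fin n → Finset ℕ) : Finset (Equiv.Perm (Fin (M + n))) :=
  univ.filter (fun σ => Inc M n σ ∧ ∀ j : Fin n, slot M n σ (Fin.natAdd M j) / r ∈ R j)

theorem card_arrS (M r B : ℕ) (hM : M = r * B) (hr : 0 < r) (n : ℕ) (R : Fin n → Finset ℕ)
    (hR : ∀ i, ∀ v ∈ R i, v < B) :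
    (ArrS M n r R).card = ∑ f ∈ Fintype.piFinset R, ∏ i : Fin n, (r + eq_before f i) := by
  rw [Finset.card_eq_sum_card_fiberwise (f := fun σ : Equiv.Perm (Fin (M + n)) =>
    fun j : Fin n => slot M n σ (Fin.natAdd M j) / r) (t := Fintype.piFinset R)]
  · refine Finset.sum_congr rfl fun f hf => ?_
    rw [Fintype.mem_piFinset] at hf
    rw [← card_arr M r B hM hr n f (fun i => hR i _ (hf i))]
    congr 1
    ext σ
    simp only [ArrS, Arr, Finset.mem_filter, Finset.mem_univ, true_and]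
    constructor
    · rintro ⟨⟨h1, _⟩, h2⟩
      exact ⟨h1, fun j => congrFun h2 j⟩
    · rintro ⟨h1, h2⟩
      exact ⟨⟨h1, fun j => by rw [h2 j]; exact hf j⟩, funext h2⟩
  · intro σ hσ
    simp only [ArrS, Finset.coe_filter, Finset.mem_univ, true_and, Set.mem_ofPred_eq] at hσ
    exact Finset.mem_coe.2 (Fintype.mem_piFinset.2 hσ.2)

open Polynomial in
/-- the polynomial -/
noncomputable def PolR {n : ℕ} (R : Fin n → Finset ℕ) : Polynomial ℤ :=
  ∑ f ∈ Fintype.piFinset R, ∏ i : Fin n, (X + C (eq_before f i : ℤ))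

theorem PolR_eval {n : ℕ} (R : Fin n → Finset ℕ) (x : ℤ) :
    (PolR R).eval x = ∑ f ∈ Fintype.piFinset R, ∏ i : Fin n, (x + eq_before f i) := by
  simp [PolR, Polynomial.eval_finsetSum, Polynomial.eval_prod]

theorem PolR_natDegree {n : ℕ} (R : Fin n → Finset ℕ) : (PolR R).natDegree ≤ n := by
  refine Polynomial.natDegree_sum_le_of_forall_le _ _ fun f _ => ?_
  refine (Polynomial.natDegree_prod_le _ _).trans ?_
  refine (Finset.sum_le_card_nsmul _ _ 1 fun i _ => ?_).trans (by simp)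
  rw [Polynomial.natDegree_X_add_C]

theorem PolR_pos (M r B : ℕ) (hM : M = r * B) (hr : 0 < r) {n : ℕ} (R : Fin n → Finset ℕ)
    (hR : ∀ i, ∀ v ∈ R i, v < B) : (PolR R).eval (r : ℤ) = ((ArrS M n r R).card : ℤ) := by
  rw [PolR_eval, card_arrS M r B hM hr n R hR]
  push_cast
  rfl

theorem eq_before_zero_of_inj {n : ℕ} {f : Fin n → ℕ} (hf : Function.Injective f) (i : Fin n) :
    eq_before f i = 0 := by
  rw [eq_before, Finset.card_eq_zero, Finset.filter_eq_empty_iff]
  rintro j _ ⟨h1, h2⟩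
  exact absurd (hf h2) h1.ne

theorem exists_eq_before_one {n : ℕ} {f : Fin n → ℕ} (hf : ¬ Function.Injective f) :
    ∃ i : Fin n, eq_before f i = 1 := by
  classical
  have h0 : ∃ i : Fin n, ∃ j, j < i ∧ f j = f i := by
    rw [Function.Injective] at hf
    push Not at hf
    obtain ⟨a, b, h1, h2⟩ := hf
    rcases lt_or_gt_of_ne h2 with h3 | h3
    · exact ⟨b, a, h3, h1⟩
    · exact ⟨a, b, h3, h1.symm⟩
  obtain ⟨i, hi, hmin⟩ := WellFounded.has_min (wellFounded_lt (α := Fin n))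
    {i : Fin n | ∃ j, j < i ∧ f j = f i} h0
  obtain ⟨j, hj1, hj2⟩ := hi
  refine ⟨i, ?_⟩
  rw [eq_before, Finset.card_eq_one]
  refine ⟨j, ?_⟩
  ext k
  simp only [Finset.mem_filter, Finset.mem_univ, true_and, Finset.mem_singleton]
  constructor
  · rintro ⟨h1, h2⟩
    rcases lt_trichotomy k j with h3 | h3 | h3
    · exact absurd hj1 (hmin j ⟨k, h3, h2.trans hj2.symm⟩)
    · exact h3
    · exact absurd h1 (hmin k ⟨j, h3, hj2.trans h2.symm⟩)
  · rintro rfl
    exact ⟨hj1, hj2⟩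

theorem PolR_neg_one {n : ℕ} (R : Fin n → Finset ℕ) :
    (PolR R).eval (-1) =
      (-1) ^ n * (((Fintype.piFinset R).filter Function.Injective).card : ℤ) := by
  rw [PolR_eval, Finset.card_filter]
  push_cast
  rw [Finset.mul_sum]
  refine Finset.sum_congr rfl fun f _ => ?_
  by_cases h : Function.Injective f
  · rw [if_pos h]
    simp [eq_before_zero_of_inj h]
  · rw [if_neg h, mul_zero]
    obtain ⟨i, hi⟩ := exists_eq_before_one h
    exact Finset.prod_eq_zero (Finset.mem_univ i) (by rw [hi]; norm_num)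

open Polynomial in
/-- **Extrapolation.** -/
theorem extrap (Q : Polynomial ℤ) (n : ℕ) (h : Q.natDegree ≤ n) :
    ∑ t ∈ range (n + 3 + 1), (-1 : ℤ) ^ t * ((n + 3).choose t) *
      (((t - 1) * (t - 2) : ℕ) * Q.eval ((t : ℤ) - 1)) = -2 * Q.eval (-1) := by
  have hdeg : (X * (X - C 1) * Q : Polynomial ℤ).natDegree < n + 3 := by
    refine lt_of_le_of_lt (Polynomial.natDegree_mul_le) ?_
    have h1 : (X * (X - C 1) : Polynomial ℤ).natDegree ≤ 2 := by
      refine (Polynomial.natDegree_mul_le).trans ?_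
      have := Polynomial.natDegree_X_sub_C_le (1 : ℤ)
      have := Polynomial.natDegree_X_le (R := ℤ)
      omega
    omega
  have h2 := Polynomial.fwdDiff_iter_eq_zero_of_degree_lt hdeg
  have h3 := congrFun h2 (-1)
  rw [fwdDiff_iter_eq_sum_shift] at h3
  have h4 : ∑ t ∈ range (n + 3 + 1), (-1 : ℤ) ^ t * ((n + 3).choose t) *
      (((t : ℤ) - 1) * ((t : ℤ) - 2) * Q.eval ((t : ℤ) - 1)) = 0 := by
    have h5 := congrArg (fun z : ℤ => (-1 : ℤ) ^ (n + 3) * z) h3
    simp only [Pi.zero_apply, mul_zero] at h5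
    rw [← h5, Finset.mul_sum]
    refine Finset.sum_congr rfl fun t ht => ?_
    rw [Finset.mem_range] at ht
    have e1 : (-1 : ℤ) ^ t = (-1) ^ (n + 3) * (-1) ^ (n + 3 - t) := by
      rw [← pow_add]
      have e2 : n + 3 + (n + 3 - t) = t + 2 * (n + 3 - t) := by omega
      rw [e2, pow_add, pow_mul]
      simp
    have e3 : (-1 : ℤ) + t • (1 : ℤ) = (t : ℤ) - 1 := by
      rw [nsmul_eq_mul]; ring
    rw [e1, e3]
    simp only [Polynomial.eval_mul, Polynomial.eval_X, Polynomial.eval_sub, Polynomial.eval_C,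
      smul_eq_mul]
    ring
  have h6 : ∑ t ∈ range (n + 3 + 1), (-1 : ℤ) ^ t * ((n + 3).choose t) *
      (((t - 1) * (t - 2) : ℕ) * Q.eval ((t : ℤ) - 1)) =
      ∑ t ∈ range (n + 3 + 1), ((-1 : ℤ) ^ t * ((n + 3).choose t) *
      (((t : ℤ) - 1) * ((t : ℤ) - 2) * Q.eval ((t : ℤ) - 1)) -
        if t = 0 then 2 * Q.eval (-1) else 0) := by
    refine Finset.sum_congr rfl fun t _ => ?_
    rcases t with _ | _ | t
    · simp
    · simp
    · have e1 : ((t + 1 + 1 - 1) * (t + 1 + 1 - 2) : ℕ) = (t + 1) * t := rfl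
      rw [if_neg (by omega), e1]
      push_cast
      ring
  rw [h6, Finset.sum_sub_distrib, h4, Finset.sum_ite_eq' (range (n + 3 + 1)) 0]
  simp

end Pool.Agent.TH686.LE
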