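import Pool.Agent.TH686.LE.Extrap

/-!
# Counting arrangements with prescribed sets of slots by successive insertion
-/

namespace Pool.Agent.TH686.LE

open Finset

/-- weights by successive insertion: `n s` elements are in the slot `s` so far -/
def TT : List (Finset ℕ) → (ℕ → ℕ) → ℕ
  | [], _ => 1
  | I :: l, n => ∑ s ∈ I, (n s + 1) * TT l (n + Pi.single s 1)

theorem TT_nil (n : ℕ → ℕ) : TT [] n = 1 := rfl

theorem TT_cons (I : Finset ℕ) (l : List (Finset ℕ)) (n : ℕ → ℕ) :
    TT (I :: l) n = ∑ s ∈ I, (n s + 1) * TT l (n + Pi.single s 1) := rfl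

theorem TT_swap (I J : Finset ℕ) (l : List (Finset ℕ)) (n : ℕ → ℕ) :
    TT (I :: J :: l) n = TT (J :: I :: l) n := by
  simp only [TT_cons, Finset.mul_sum]
  rw [Finset.sum_comm]
  refine Finset.sum_congr rfl fun t _ => Finset.sum_congr rfl fun s _ => ?_
  rw [add_right_comm n (Pi.single s 1) (Pi.single t 1), ← mul_assoc, ← mul_assoc]
  congr 1
  by_cases h : s = t
  · subst h; rfl
  · rw [Pi.add_apply, Pi.add_apply, Pi.single_eq_of_ne (fun h' => h h'.symm) 1,
      Pi.single_eq_of_ne h 1]
    ring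

theorem TT_perm {l l' : List (Finset ℕ)} (h : l.Perm l') : ∀ n, TT l n = TT l' n := by
  induction h with
  | nil => intro n; rfl
  | cons x _ ih =>
    intro n
    rw [TT_cons, TT_cons]
    exact Finset.sum_congr rfl fun s _ => by rw [ih]
  | swap x y l => intro n; exact TT_swap _ _ _ _
  | trans _ _ ih1 ih2 => intro n; rw [ih1, ih2]

section Expand

variable {E : Type*} [DecidableEq E]

theorem TT_expand (lf rt : E → Finset ℕ) (hd : ∀ x, Disjoint (lf x) (rt x)) :
    ∀ (l : List E), l.Nodup → ∀ n, TT (l.map (fun x => lf x ∪ rt x)) n =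
      ∑ L ∈ l.toFinset.powerset, TT (l.map (fun x => if x ∈ L then lf x else rt x)) n
  | [], _, n => by simp
  | x :: l, hl, n => by
    rw [List.nodup_cons] at hl
    have hx : x ∉ l.toFinset := by simpa using hl.1
    rw [List.toFinset_cons, Finset.sum_powerset_insert hx, ← Finset.sum_add_distrib]
    have h1 : ∀ L ∈ l.toFinset.powerset,
        TT ((x :: l).map (fun y => if y ∈ L then lf y else rt y)) n +
        TT ((x :: l).map (fun y => if y ∈ insert x L then lf y else rt y)) n =
        ∑ s ∈ lf x ∪ rt x, (n s + 1) *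
          TT (l.map (fun y => if y ∈ L then lf y else rt y)) (n + Pi.single s 1) := by
      intro L hL
      rw [Finset.mem_powerset] at hL
      have hxL : x ∉ L := fun h => hx (hL h)
      have h2 : l.map (fun y => if y ∈ insert x L then lf y else rt y) =
          l.map (fun y => if y ∈ L then lf y else rt y) := by
        refine List.map_congr_left fun y hy => ?_
        have hyx : y ≠ x := fun h => hl.1 (h ▸ hy)
        simp only [Finset.mem_insert, hyx, false_or]
      rw [List.map_cons, List.map_cons, h2, if_neg hxL, if_pos (Finset.mem_insert_self x L),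
        TT_cons, TT_cons, Finset.sum_union (hd x), add_comm]
    rw [Finset.sum_congr rfl h1, Finset.sum_comm, List.map_cons, TT_cons]
    refine Finset.sum_congr rfl fun s _ => ?_
    rw [TT_expand lf rt hd l hl.2, Finset.mul_sum]

end Expand

/-- product for nested sets -/
def PP : ℕ → List (Finset ℕ) → (ℕ → ℕ) → ℕ
  | _, [], _ => 1
  | c, I :: l, n => (I.card + ∑ s ∈ I, n s + c) * PP (c + 1) l n

theorem PP_cons (c : ℕ) (I : Finset ℕ) (l : List (Finset ℕ)) (n : ℕ → ℕ) :
    PP c (I :: l) n = (I.card + ∑ s ∈ I, n s + c) * PP (c + 1) l n := rfl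

theorem sum_single (I : Finset ℕ) (n : ℕ → ℕ) (s : ℕ) :
    ∑ t ∈ I, (n + Pi.single s 1 : ℕ → ℕ) t = (∑ t ∈ I, n t) + if s ∈ I then 1 else 0 := by
  simp only [Pi.add_apply]
  rw [Finset.sum_add_distrib]
  congr 1
  simp only [Pi.single_apply]
  rw [Finset.sum_ite_eq' I s]

theorem PP_mem (s : ℕ) : ∀ (l : List (Finset ℕ)) (c : ℕ) (n : ℕ → ℕ), (∀ I ∈ l, s ∈ I) →
    PP c l (n + Pi.single s 1) = PP (c + 1) l n
  | [], c, n, _ => rfl
  | I :: l, c, n, h => by
    rw [PP_cons, PP_cons, PP_mem s l (c + 1) n (fun J hJ => h J (List.mem_cons_of_mem _ hJ)),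
      sum_single, if_pos (h I List.mem_cons_self)]
    congr 1
    omega

theorem PP_notMem (s : ℕ) : ∀ (l : List (Finset ℕ)) (c : ℕ) (n : ℕ → ℕ), (∀ I ∈ l, s ∉ I) →
    PP c l (n + Pi.single s 1) = PP c l n
  | [], c, n, _ => rfl
  | I :: l, c, n, h => by
    rw [PP_cons, PP_cons, PP_notMem s l (c + 1) n (fun J hJ => h J (List.mem_cons_of_mem _ hJ)),
      sum_single, if_neg (h I List.mem_cons_self), add_zero]

theorem TT_nested : ∀ (l : List (Finset ℕ)) (n : ℕ → ℕ), l.Pairwise (· ⊆ ·) → TT l n = PP 0 l n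
  | [], n, _ => rfl
  | I :: l, n, h => by
    rw [List.pairwise_cons] at h
    rw [TT_cons, PP_cons]
    have h1 : ∀ s ∈ I, (n s + 1) * TT l (n + Pi.single s 1) = (n s + 1) * PP (0 + 1) l n := by
      intro s hs
      rw [TT_nested l _ h.2, PP_mem s l 0 n (fun J hJ => h.1 J hJ hs)]
    rw [Finset.sum_congr rfl h1, ← Finset.sum_mul, Finset.sum_add_distrib]
    congr 1
    simp
    ring

theorem TT_nested_append (l' : List (Finset ℕ)) (h' : l'.Pairwise (· ⊆ ·)) :
    ∀ (l : List (Finset ℕ)) (n : ℕ → ℕ), l.Pairwise (· ⊆ ·) →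
      (∀ I ∈ l, ∀ J ∈ l', Disjoint I J) → TT (l ++ l') n = PP 0 l n * PP 0 l' n
  | [], n, _, _ => by
    rw [List.nil_append, TT_nested l' n h']
    simp [PP]
  | I :: l, n, h, hd => by
    rw [List.pairwise_cons] at h
    rw [List.cons_append, TT_cons, PP_cons]
    have h1 : ∀ s ∈ I, (n s + 1) * TT (l ++ l') (n + Pi.single s 1) =
        (n s + 1) * (PP (0 + 1) l n * PP 0 l' n) := by
      intro s hs
      rw [TT_nested_append l' h' l _ h.2 (fun J hJ => hd J (List.mem_cons_of_mem _ hJ)),
        PP_mem s l 0 n (fun J hJ => h.1 J hJ hs), PP_notMem s l' 0 n (fun J hJ hsJ =>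
          Finset.disjoint_left.1 (hd I List.mem_cons_self J hJ) hs hsJ)]
    rw [Finset.sum_congr rfl h1, ← Finset.sum_mul, Finset.sum_add_distrib, ← mul_assoc]
    congr 2
    simp
    ring

section Weights

variable {E : Type*}

/-- product of the values plus ranks, in natural numbers -/
def WN (α : E → ℕ) : ℕ → List E → ℕ
  | _, [] => 1
  | c, x :: l => (α x + c) * WN α (c + 1) l

theorem PP_map (α : E → ℕ) (S : E → Finset ℕ) : ∀ (l : List E) (c : ℕ),
    (∀ x ∈ l, (S x).card = α x) → PP c (l.map S) 0 = WN α c l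
  | [], c, _ => rfl
  | x :: l, c, h => by
    rw [List.map_cons, PP_cons, PP_map α S l (c + 1) (fun y hy => h y (List.mem_cons_of_mem _ hy)),
      h x List.mem_cons_self]
    simp [WN]

/-- the number of arrangements of elements with intervals around a common point -/
theorem TT_split [DecidableEq E] (lf rt : E → Finset ℕ) (α β : E → ℕ) (l1 l2 : List E)
    (hnd : l1.Nodup) (hp : l1.Perm l2) (hα : ∀ x ∈ l1, (lf x).card = α x)
    (hβ : ∀ x ∈ l1, (rt x).card = β x) (hd : ∀ x y, Disjoint (lf x) (rt y))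
    (h1 : l1.Pairwise (fun x y => lf x ⊆ lf y)) (h2 : l2.Pairwise (fun x y => rt x ⊆ rt y)) :
    TT (l1.map (fun x => lf x ∪ rt x)) 0 = ∑ L ∈ l1.toFinset.powerset,
      WN α 0 (l1.filter (fun x => decide (x ∈ L))) *
        WN β 0 (l2.filter (fun x => !decide (x ∈ L))) := by
  rw [TT_expand lf rt (fun x => hd x x) l1 hnd]
  refine Finset.sum_congr rfl fun L _ => ?_
  set p : E → Bool := fun x => decide (x ∈ L) with hp0
  have e1 : (l1.map (fun x => if x ∈ L then lf x else rt x)).Perm
      ((l1.filter p).map lf ++ (l2.filter (fun x => !p x)).map rt) := by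
    have h3 : (l1.map (fun x => if x ∈ L then lf x else rt x)).Perm
        ((l1.filter p ++ l1.filter (fun x => !p x)).map
          (fun x => if x ∈ L then lf x else rt x)) :=
      ((List.filter_append_perm p l1).symm).map _
    refine h3.trans ?_
    rw [List.map_append]
    refine List.Perm.append ?_ ?_
    · refine List.Perm.of_eq (List.map_congr_left fun x hx => ?_)
      rw [List.mem_filter] at hx
      have : x ∈ L := by simpa [hp0] using hx.2
      rw [if_pos this]
    · have h4 : (l1.filter (fun x => !p x)).map (fun x => if x ∈ L then lf x else rt x) =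
          (l1.filter (fun x => !p x)).map rt := by
        refine List.map_congr_left fun x hx => ?_
        rw [List.mem_filter] at hx
        have : x ∉ L := by simpa [hp0] using hx.2
        rw [if_neg this]
      rw [h4]
      exact (hp.filter _).map _
  rw [TT_perm e1, TT_nested_append]
  · rw [PP_map α lf _ 0 (fun x hx => hα x (List.mem_filter.1 hx).1),
      PP_map β rt _ 0 (fun x hx => hβ x (hp.mem_iff.2 (List.mem_filter.1 hx).1))]
  · rw [List.pairwise_map]
    exact h2.filter _
  · rw [List.pairwise_map]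
    exact h1.filter _
  · intro I hI J hJ
    rw [List.mem_map] at hI hJ
    obtain ⟨x, _, rfl⟩ := hI
    obtain ⟨y, _, rfl⟩ := hJ
    exact hd x y

end Weights

theorem eq_before_zero {n : ℕ} (f : Fin (n + 1) → ℕ) : eq_before f 0 = 0 := by
  rw [eq_before, Finset.card_eq_zero, Finset.filter_eq_empty_iff]
  rintro j _ ⟨h, _⟩
  exact absurd h (Fin.not_lt_zero j)

theorem eq_before_succ {n : ℕ} (f : Fin (n + 1) → ℕ) (i : Fin n) :
    eq_before f i.succ = (if f 0 = f i.succ then 1 else 0) + eq_before (fun j => f j.succ) i := by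
  unfold eq_before
  rw [Finset.card_filter, Fin.sum_univ_succ, Finset.card_filter]
  congr 1
  · simp only [Fin.succ_pos, true_and]
  · refine Finset.sum_congr rfl fun j _ => ?_
    simp only [Fin.succ_lt_succ_iff]

theorem TT_ofFn : ∀ (N : ℕ) (I : Fin N → Finset ℕ) (n : ℕ → ℕ),
    TT (List.ofFn I) n = ∑ f ∈ Fintype.piFinset I, ∏ i : Fin N, (1 + n (f i) + eq_before f i)
  | 0, I, n => by simp [TT_nil, Fintype.piFinset_of_isEmpty]
  | N + 1, I, n => by
    rw [List.ofFn_succ, TT_cons]
    have h1 : ∀ s ∈ I 0, (n s + 1) * TT (List.ofFn fun i : Fin N => I i.succ) (n + Pi.single s 1) =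
        ∑ f ∈ Fintype.piFinset (fun i : Fin N => I i.succ),
          ∏ i : Fin (N + 1), (1 + n ((Fin.cons s f : Fin (N + 1) → ℕ) i) +
            eq_before (Fin.cons s f : Fin (N + 1) → ℕ) i) := by
      intro s _
      rw [TT_ofFn N, Finset.mul_sum]
      refine Finset.sum_congr rfl fun f _ => ?_
      rw [Fin.prod_univ_succ, eq_before_zero]
      simp only [Fin.cons_zero, add_zero]
      rw [add_comm 1 (n s)]
      congr 1
      refine Finset.prod_congr rfl fun i _ => ?_
      rw [eq_before_succ]
      simp only [Fin.cons_zero, Fin.cons_succ, Pi.add_apply, Pi.single_apply]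
      simp only [eq_comm (a := f i) (b := s)]
      ring
    rw [Finset.sum_congr rfl h1, ← Finset.sum_product']
    refine Finset.sum_bij (fun p _ => (Fin.cons p.1 p.2 : Fin (N + 1) → ℕ)) ?_ ?_ ?_ ?_
    · rintro ⟨s, f⟩ hp
      rw [Finset.mem_product, Fintype.mem_piFinset] at hp
      rw [Fintype.mem_piFinset]
      intro i
      refine Fin.cases ?_ (fun j => ?_) i
      · simpa using hp.1
      · simpa using hp.2 j
    · rintro ⟨s, f⟩ _ ⟨s', f'⟩ _ h
      simp only at h
      rw [Fin.cons_inj] at h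
      exact Prod.ext h.1 h.2
    · intro f hf
      rw [Fintype.mem_piFinset] at hf
      refine ⟨(f 0, Fin.tail f), ?_, ?_⟩
      · rw [Finset.mem_product, Fintype.mem_piFinset]
        exact ⟨hf 0, fun j => hf j.succ⟩
      · exact Fin.cons_self_tail f
    · intro p _
      rfl

/-- the number of arrangements with prescribed sets of slots -/
theorem card_slots (M N : ℕ) (I : Fin N → Finset ℕ) (hI : ∀ i, ∀ v ∈ I i, v < M) :
    (univ.filter (fun σ : Equiv.Perm (Fin (M + N)) => Inc M N σ ∧
      ∀ j : Fin N, slot M N σ (Fin.natAdd M j) ∈ I j)).card = TT (List.ofFn I) 0 := by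
  rw [TT_ofFn]
  have h := card_arrS M 1 M (one_mul M).symm one_pos N I hI
  rw [ArrS] at h
  simp only [Nat.div_one] at h
  rw [h]
  simp

end Pool.Agent.TH686.LE
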