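import Pool.Agent.TH686.LE.Ins
import Pool.Agent.H549R2.Convex6

/-!
# The value at zero is the permanent
-/

namespace Pool.Agent.TH686.LE

open Finset Pool.Agent.H549R2.Convex

/-- elements: edges `(0, i, j)`, elements `(1, i, 0)` for the rows and `(2, j, q)` for the columns -/
abbrev El := ℕ × ℕ × ℕ

section WZ

variable {E : Type*}

/-- product of the values plus ranks -/
def WZ (α : E → ℤ) : ℤ → List E → ℤ
  | _, [] => 1
  | c, x :: l => (α x + c) * WZ α (c + 1) l

theorem WZ_append (α : E → ℤ) : ∀ (l l' : List E) (c : ℤ),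
    WZ α c (l ++ l') = WZ α c l * WZ α (c + l.length) l'
  | [], l', c => by simp [WZ]
  | x :: l, l', c => by
    rw [List.cons_append, WZ, WZ, WZ_append α l l' (c + 1), mul_assoc]
    congr 3
    push_cast [List.length_cons]
    ring

theorem WZ_const (α : E → ℤ) (v : ℤ) : ∀ (l : List E) (c : ℤ), (∀ x ∈ l, α x = v) →
    WZ α c l = ∏ k ∈ range l.length, (v + c + k)
  | [], c, _ => by simp [WZ]
  | x :: l, c, h => by
    rw [WZ, WZ_const α v l (c + 1) (fun y hy => h y (List.mem_cons_of_mem _ hy)),
      h x List.mem_cons_self, List.length_cons, Finset.prod_range_succ']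
    rw [mul_comm]
    congr 1
    · refine Finset.prod_congr rfl fun k _ => ?_
      push_cast
      ring
    · simp

theorem WZ_range (α : E → ℤ) (g : ℕ → E) (c : ℤ) : ∀ m : ℕ,
    WZ α c ((List.range m).map g) = ∏ q ∈ range m, (α (g q) + c + q)
  | 0 => by simp [WZ]
  | m + 1 => by
    rw [List.range_succ, List.map_append, WZ_append, WZ_range α g c m, Finset.prod_range_succ]
    simp [WZ]
    left
    ring

theorem WZ_head (α : E → ℤ) (x : E) (l l' : List E) (h : x ∈ l) (h0 : ∀ y ∈ l, α y = 0) :
    WZ α 0 (l ++ l') = 0 := by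
  cases l with
  | nil => simp at h
  | cons y l =>
    rw [List.cons_append, WZ, h0 y List.mem_cons_self]
    simp

end WZ

variable (A : List (List Bool))

/-- column degrees minus one -/
def kap (j : ℕ) : ℕ := degL A j - 1

/-- partial sums -/
def KK (j : ℕ) : ℕ := ((List.range j).map (kap A)).sum

/-- the edges of a row -/
def rowE (i : ℕ) : List El :=
  ((List.range A.length).filter (fun j => ent A i j)).map (fun j => (0, i, j))

/-- the edges of a column -/
def colE (j : ℕ) : List El :=
  ((List.range A.length).filter (fun i => ent A i j)).map (fun i => (0, i, j))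

/-- the additional elements of a column -/
def rdc (j : ℕ) : List El := (List.range (kap A j)).map (fun q => (2, j, q))

/-- the additional elements of the columns -/
def rd : List El := (List.range A.length).flatMap (rdc A)

/-- the additional elements of the rows -/
def ld : List El := (List.range A.length).map (fun i => (1, i, 0))

/-- the elements in the first order -/
def seq1 : List El := rd A ++ (List.range A.length).flatMap (fun i => rowE A i ++ [(1, i, 0)])

/-- the elements in the second order -/
def seq2 : List El := ld A ++ (List.range A.length).flatMap (fun j => colE A j ++ rdc A j)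

/-- minus the first value -/
def na (x : El) : ℕ := bif decide (x.1 = 0) then 2 * x.2.1 + 1 else
  bif decide (x.1 = 1) then 2 * x.2.1 else 0

/-- minus the second value -/
def nb (x : El) : ℕ := bif decide (x.1 = 0) then 2 * KK A x.2.2 + kap A x.2.2 else
  bif decide (x.1 = 1) then 0 else 2 * KK A x.2.1 + 2 * x.2.2

variable {A}

theorem mem_rowE {i : ℕ} {x : El} : x ∈ rowE A i ↔
    x.1 = 0 ∧ x.2.1 = i ∧ x.2.2 < A.length ∧ ent A i x.2.2 = true := by
  unfold rowE
  rw [List.mem_map]
  constructor
  · rintro ⟨j, hj, rfl⟩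
    rw [List.mem_filter, List.mem_range] at hj
    exact ⟨rfl, rfl, hj.1, hj.2⟩
  · rintro ⟨h1, h2, h3, h4⟩
    refine ⟨x.2.2, ?_, ?_⟩
    · rw [List.mem_filter, List.mem_range]
      exact ⟨h3, h4⟩
    · rw [← h1, ← h2]

theorem mem_colE {j : ℕ} {x : El} : x ∈ colE A j ↔
    x.1 = 0 ∧ x.2.1 < A.length ∧ x.2.2 = j ∧ ent A x.2.1 j = true := by
  unfold colE
  rw [List.mem_map]
  constructor
  · rintro ⟨i, hi, rfl⟩
    rw [List.mem_filter, List.mem_range] at hi
    exact ⟨rfl, hi.1, rfl, hi.2⟩
  · rintro ⟨h1, h2, h3, h4⟩
    refine ⟨x.2.1, ?_, ?_⟩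
    · rw [List.mem_filter, List.mem_range]
      exact ⟨h2, h4⟩
    · rw [← h1, ← h3]

theorem mem_rdc {j : ℕ} {x : El} : x ∈ rdc A j ↔ x.1 = 2 ∧ x.2.1 = j ∧ x.2.2 < kap A j := by
  unfold rdc
  rw [List.mem_map]
  constructor
  · rintro ⟨q, hq, rfl⟩
    rw [List.mem_range] at hq
    exact ⟨rfl, rfl, hq⟩
  · rintro ⟨h1, h2, h3⟩
    exact ⟨x.2.2, List.mem_range.2 h3, by rw [← h1, ← h2]⟩

theorem mem_rd {x : El} : x ∈ rd A ↔ x.1 = 2 ∧ x.2.1 < A.length ∧ x.2.2 < kap A x.2.1 := by
  unfold rd
  rw [List.mem_flatMap]
  constructor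
  · rintro ⟨j, hj, hx⟩
    rw [List.mem_range] at hj
    rw [mem_rdc] at hx
    obtain ⟨h1, h2, h3⟩ := hx
    subst h2
    exact ⟨h1, hj, h3⟩
  · rintro ⟨h1, h2, h3⟩
    exact ⟨x.2.1, List.mem_range.2 h2, mem_rdc.2 ⟨h1, rfl, h3⟩⟩

theorem mem_ld {x : El} : x ∈ ld A ↔ x.1 = 1 ∧ x.2.1 < A.length ∧ x.2.2 = 0 := by
  unfold ld
  rw [List.mem_map]
  constructor
  · rintro ⟨i, hi, rfl⟩
    exact ⟨rfl, List.mem_range.1 hi, rfl⟩
  · rintro ⟨h1, h2, h3⟩
    exact ⟨x.2.1, List.mem_range.2 h2, by rw [← h1, ← h3]⟩

theorem mem_seq1 {x : El} : x ∈ seq1 A ↔ x ∈ rd A ∨ x ∈ ld A ∨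
    (x.1 = 0 ∧ x.2.1 < A.length ∧ x.2.2 < A.length ∧ ent A x.2.1 x.2.2 = true) := by
  unfold seq1
  rw [List.mem_append, List.mem_flatMap, mem_ld]
  refine or_congr Iff.rfl ?_
  constructor
  · rintro ⟨i, hi, hx⟩
    rw [List.mem_range] at hi
    rw [List.mem_append, List.mem_singleton, mem_rowE] at hx
    rcases hx with ⟨h1, h2, h3, h4⟩ | rfl
    · right
      subst h2
      exact ⟨h1, hi, h3, h4⟩
    · left
      exact ⟨rfl, hi, rfl⟩
  · rintro (⟨h1, h2, h3⟩ | ⟨h1, h2, h3, h4⟩)
    · refine ⟨x.2.1, List.mem_range.2 h2, ?_⟩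
      rw [List.mem_append, List.mem_singleton]
      right
      rw [← h1, ← h3]
    · refine ⟨x.2.1, List.mem_range.2 h2, ?_⟩
      rw [List.mem_append, mem_rowE]
      left
      exact ⟨h1, rfl, h3, h4⟩

theorem mem_seq2 {x : El} : x ∈ seq2 A ↔ x ∈ rd A ∨ x ∈ ld A ∨
    (x.1 = 0 ∧ x.2.1 < A.length ∧ x.2.2 < A.length ∧ ent A x.2.1 x.2.2 = true) := by
  unfold seq2
  rw [List.mem_append, List.mem_flatMap, mem_rd]
  constructor
  · rintro (h | ⟨j, hj, hx⟩)
    · exact Or.inr (Or.inl h)
    · rw [List.mem_range] at hj
      rw [List.mem_append, mem_colE, mem_rdc] at hx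
      rcases hx with ⟨h1, h2, h3, h4⟩ | ⟨h1, h2, h3⟩
      · right; right
        subst h3
        exact ⟨h1, h2, hj, h4⟩
      · left
        subst h2
        exact ⟨h1, hj, h3⟩
  · rintro (⟨h1, h2, h3⟩ | h | ⟨h1, h2, h3, h4⟩)
    · right
      exact ⟨x.2.1, List.mem_range.2 h2, List.mem_append.2 (Or.inr (mem_rdc.2 ⟨h1, rfl, h3⟩))⟩
    · left; exact h
    · right
      exact ⟨x.2.2, List.mem_range.2 h3, List.mem_append.2 (Or.inl (mem_colE.2 ⟨h1, h2, rfl, h4⟩))⟩

section Zero

variable (A)
variable (L : Finset El)

/-- the condition on the set of the elements on the left -/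
def Good : Prop := (∀ x ∈ rd A, x ∉ L) ∧ (∀ x ∈ ld A, x ∈ L) ∧
  (∀ i < A.length, ((rowE A i).filter (fun x => decide (x ∈ L))).length = 1) ∧
  (∀ j < A.length, ((colE A j).filter (fun x => !decide (x ∈ L))).length = kap A j)

variable {A L}

theorem prod_left (h : ℕ) : (∏ k ∈ range h, ((k : ℤ) - 1)) * h = if h = 1 then -1 else 0 := by
  rcases h with _ | _ | h
  · simp
  · simp
  · rw [if_neg (by omega), Finset.prod_eq_zero (i := 1) (by simp) (by simp), zero_mul]

theorem left_part (i : ℕ) :
    WZ (fun x : El => -(na x : ℤ)) 0 ((List.range i).flatMap (fun h =>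
      (rowE A h).filter (fun x => decide (x ∈ L)) ++ [(1, h, 0)])) =
      (if ∀ h < i, ((rowE A h).filter (fun x => decide (x ∈ L))).length = 1 then (-1) ^ i else 0) ∧
    ((∀ h < i, ((rowE A h).filter (fun x => decide (x ∈ L))).length = 1) →
      ((List.range i).flatMap (fun h =>
      (rowE A h).filter (fun x => decide (x ∈ L)) ++ [(1, h, 0)])).length = 2 * i) := by
  induction i with
  | zero => simp [WZ]
  | succ i ih =>
    obtain ⟨ih1, ih2⟩ := ih
    rw [List.range_succ, List.flatMap_append, List.flatMap_singleton]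
    constructor
    · rw [WZ_append, ih1]
      by_cases h : ∀ h < i, ((rowE A h).filter (fun x => decide (x ∈ L))).length = 1
      · rw [if_pos h, ih2 h, WZ_append]
        rw [WZ_const _ (-(2 * i + 1)) ((rowE A i).filter (fun x => decide (x ∈ L)))]
        · have e1 : (∏ k ∈ range ((rowE A i).filter (fun x => decide (x ∈ L))).length,
              (-(2 * (i : ℤ) + 1) + (0 + ((2 * i : ℕ) : ℤ)) + k)) =
              ∏ k ∈ range ((rowE A i).filter (fun x => decide (x ∈ L))).length, ((k : ℤ) - 1) := by
            refine Finset.prod_congr rfl fun k _ => ?_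
            push_cast; ring
          have e2 : WZ (fun x : El => -(na x : ℤ)) (0 + ((2 * i : ℕ) : ℤ) +
              ((rowE A i).filter (fun x => decide (x ∈ L))).length) [(1, i, 0)] =
              ((rowE A i).filter (fun x => decide (x ∈ L))).length := by
            simp [WZ, na]
          rw [e1, e2, prod_left]
          by_cases h2 : ((rowE A i).filter (fun x => decide (x ∈ L))).length = 1
          · rw [if_pos h2, if_pos, pow_succ]
            intro h' hh'
            rcases Nat.lt_succ_iff_lt_or_eq.1 hh' with h3 | h3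
            · exact h h' h3
            · rw [h3]; exact h2
          · rw [if_neg h2, if_neg, mul_zero]
            intro h3
            exact h2 (h3 i (Nat.lt_succ_self i))
        · intro x hx
          rw [List.mem_filter, mem_rowE] at hx
          obtain ⟨⟨h1, h2, _, _⟩, _⟩ := hx
          simp [na, h1, h2]
      · rw [if_neg h, zero_mul, if_neg]
        intro h3
        exact h fun h' hh' => h3 h' (by omega)
    · intro h
      rw [List.length_append, List.length_append, ih2 (fun h' hh' => h h' (by omega)),
        h i (Nat.lt_succ_self i)]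
      simp
      ring

/-- the constants of the columns -/
def cst (κ : ℕ) : ℤ := (∏ k ∈ range κ, ((k : ℤ) - κ)) * ∏ q ∈ range κ, ((κ : ℤ) - q)

theorem prod_right (h κ : ℕ) : (∏ k ∈ range h, ((k : ℤ) - κ)) * ∏ q ∈ range κ, ((h : ℤ) - q) =
    if h = κ then cst κ else 0 := by
  rcases lt_trichotomy h κ with h1 | h1 | h1
  · rw [if_neg (by omega), Finset.prod_eq_zero (s := range κ) (i := h) (by simpa using h1)
      (by simp), mul_zero]
  · rw [if_pos h1, h1]; rfl
  · rw [if_neg (by omega), Finset.prod_eq_zero (s := range h) (i := κ) (by simpa using h1)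
      (by simp), zero_mul]

theorem KK_succ (A : List (List Bool)) (j : ℕ) : KK A (j + 1) = KK A j + kap A j := by
  unfold KK
  rw [List.range_succ, List.map_append, List.sum_append]
  simp

theorem right_part (j : ℕ) :
    WZ (fun x : El => -(nb A x : ℤ)) 0 ((List.range j).flatMap (fun h =>
      (colE A h).filter (fun x => !decide (x ∈ L)) ++ rdc A h)) =
      (if ∀ h < j, ((colE A h).filter (fun x => !decide (x ∈ L))).length = kap A h then
        ∏ h ∈ range j, cst (kap A h) else 0) ∧
    ((∀ h < j, ((colE A h).filter (fun x => !decide (x ∈ L))).length = kap A h) →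
      ((List.range j).flatMap (fun h =>
      (colE A h).filter (fun x => !decide (x ∈ L)) ++ rdc A h)).length = 2 * KK A j) := by
  induction j with
  | zero => simp [WZ, KK]
  | succ j ih =>
    obtain ⟨ih1, ih2⟩ := ih
    rw [List.range_succ, List.flatMap_append, List.flatMap_singleton]
    constructor
    · rw [WZ_append, ih1]
      by_cases h : ∀ h < j, ((colE A h).filter (fun x => !decide (x ∈ L))).length = kap A h
      · rw [if_pos h, ih2 h, WZ_append]
        rw [WZ_const _ (-(2 * KK A j + kap A j)) ((colE A j).filter (fun x => !decide (x ∈ L)))]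
        · have e1 : (∏ k ∈ range ((colE A j).filter (fun x => !decide (x ∈ L))).length,
              (-(2 * (KK A j : ℤ) + kap A j) + (0 + ((2 * KK A j : ℕ) : ℤ)) + k)) =
              ∏ k ∈ range ((colE A j).filter (fun x => !decide (x ∈ L))).length,
                ((k : ℤ) - kap A j) := by
            refine Finset.prod_congr rfl fun k _ => ?_
            push_cast; ring
          have e2 : WZ (fun x : El => -(nb A x : ℤ)) (0 + ((2 * KK A j : ℕ) : ℤ) +
              ((colE A j).filter (fun x => !decide (x ∈ L))).length) (rdc A j) =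
              ∏ q ∈ range (kap A j),
                ((((colE A j).filter (fun x => !decide (x ∈ L))).length : ℤ) - q) := by
            rw [rdc, WZ_range]
            refine Finset.prod_congr rfl fun q _ => ?_
            simp only [nb, OfNat.ofNat_ne_zero, OfNat.ofNat_ne_one, decide_false, cond_false]
            push_cast; ring
          rw [e1, e2, prod_right]
          by_cases h2 : ((colE A j).filter (fun x => !decide (x ∈ L))).length = kap A j
          · rw [if_pos h2, if_pos, Finset.prod_range_succ]
            intro h' hh'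
            rcases Nat.lt_succ_iff_lt_or_eq.1 hh' with h3 | h3
            · exact h h' h3
            · rw [h3]; exact h2
          · rw [if_neg h2, if_neg, mul_zero]
            intro h3
            exact h2 (h3 j (Nat.lt_succ_self j))
        · intro x hx
          rw [List.mem_filter, mem_colE] at hx
          obtain ⟨⟨h1, _, h2, _⟩, _⟩ := hx
          simp [nb, h1, h2]
      · rw [if_neg h, zero_mul, if_neg]
        intro h3
        exact h fun h' hh' => h3 h' (by omega)
    · intro h
      rw [List.length_append, List.length_append, ih2 (fun h' hh' => h h' (by omega)),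
        h j (Nat.lt_succ_self j), KK_succ]
      simp [rdc]
      ring

/-- the term of a set `L` -/
theorem term_eq [Decidable (Good A L)] :
    WZ (fun x : El => -(na x : ℤ)) 0 ((seq1 A).filter (fun x => decide (x ∈ L))) *
      WZ (fun x : El => -(nb A x : ℤ)) 0 ((seq2 A).filter (fun x => !decide (x ∈ L))) =
    if Good A L then (-1) ^ A.length * ∏ h ∈ range A.length, cst (kap A h) else 0 := by
  unfold seq1 seq2
  rw [List.filter_append, List.filter_append, List.filter_flatMap, List.filter_flatMap]
  by_cases h1 : ∀ x ∈ rd A, x ∉ L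
  · by_cases h2 : ∀ x ∈ ld A, x ∈ L
    · have e1 : (rd A).filter (fun x => decide (x ∈ L)) = [] := by
        rw [List.filter_eq_nil_iff]
        intro x hx
        simpa using h1 x hx
      have e2 : (ld A).filter (fun x => !decide (x ∈ L)) = [] := by
        rw [List.filter_eq_nil_iff]
        intro x hx
        simpa using h2 x hx
      have e3 : (List.range A.length).flatMap (fun a => (rowE A a ++ [(1, a, 0)]).filter
          (fun x => decide (x ∈ L))) = (List.range A.length).flatMap (fun h =>
          (rowE A h).filter (fun x => decide (x ∈ L)) ++ [(1, h, 0)]) := by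
        refine List.flatMap_congr fun i hi => ?_
        rw [List.mem_range] at hi
        rw [List.filter_append]
        congr 1
        have h3 : ((1, i, 0) : El) ∈ L := h2 _ (mem_ld.2 ⟨rfl, hi, rfl⟩)
        simp [h3]
      have e4 : (List.range A.length).flatMap (fun a => (colE A a ++ rdc A a).filter
          (fun x => !decide (x ∈ L))) = (List.range A.length).flatMap (fun h =>
          (colE A h).filter (fun x => !decide (x ∈ L)) ++ rdc A h) := by
        refine List.flatMap_congr fun j hj => ?_
        rw [List.mem_range] at hj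
        rw [List.filter_append]
        congr 1
        rw [List.filter_eq_self]
        intro x hx
        have h3 : x ∉ L := h1 x (by
          rw [mem_rdc] at hx
          rw [mem_rd]
          obtain ⟨h4, h5, h6⟩ := hx
          subst h5
          exact ⟨h4, hj, h6⟩)
        simpa using h3
      rw [e1, e2, List.nil_append, List.nil_append, e3, e4, (left_part A.length).1,
        (right_part A.length).1]
      by_cases h3 : ∀ i < A.length, ((rowE A i).filter (fun x => decide (x ∈ L))).length = 1
      · by_cases h4 : ∀ j < A.length, ((colE A j).filter (fun x => !decide (x ∈ L))).length =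
            kap A j
        · rw [if_pos h3, if_pos h4, if_pos ⟨h1, h2, h3, h4⟩]
        · rw [if_neg h4, mul_zero, if_neg (fun h => h4 h.2.2.2)]
      · rw [if_neg h3, zero_mul, if_neg (fun h => h3 h.2.2.1)]
    · rw [if_neg (fun h => h2 h.2.1)]
      push Not at h2
      obtain ⟨x, hx, hxL⟩ := h2
      rw [WZ_head (fun x : El => -(nb A x : ℤ)) x, mul_zero]
      · rw [List.mem_filter]
        exact ⟨hx, by simpa using hxL⟩
      · intro y hy
        rw [List.mem_filter, mem_ld] at hy
        simp [nb, hy.1.1]
  · rw [if_neg (fun h => h1 h.1)]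
    push Not at h1
    obtain ⟨x, hx, hxL⟩ := h1
    rw [WZ_head (fun x : El => -(na x : ℤ)) x, zero_mul]
    · rw [List.mem_filter]
      exact ⟨hx, by simpa using hxL⟩
    · intro y hy
      rw [List.mem_filter, mem_rd] at hy
      simp [na, hy.1.1]

end Zero

end Pool.Agent.TH686.LE
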