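import Pool.Agent.TH686.LE.Defs
import Pool.Agent.TH686.LE.Extrap

/-!
# The posets of the reduction
-/

namespace Pool.Agent.TH686.LE

open Finset

section Slots

variable {M n : ℕ} {σ : Equiv.Perm (Fin (M + n))}

theorem lt_slot_iff (h : Inc M n σ) (e : Fin (M + n)) (k : Fin M) :
    k.val < slot M n σ e ↔ σ (Fin.castAdd n k) < σ e := by
  unfold slot
  constructor
  · intro h1
    by_contra h2
    have h3 : (univ.filter (fun k' : Fin M => σ (Fin.castAdd n k') < σ e)) ⊆ Finset.Iio k := by
      intro a ha
      rw [Finset.mem_filter] at ha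
      rw [Finset.mem_Iio]
      by_contra h4
      exact h2 (lt_of_le_of_lt (h.monotone (not_lt.1 h4)) ha.2)
    have h4 := Finset.card_le_card h3
    rw [Fin.card_Iio] at h4
    omega
  · intro h1
    have h3 : Finset.Iic k ⊆ (univ.filter (fun k' : Fin M => σ (Fin.castAdd n k') < σ e)) := by
      intro a ha
      rw [Finset.mem_Iic] at ha
      rw [Finset.mem_filter]
      exact ⟨Finset.mem_univ _, lt_of_le_of_lt (h.monotone ha) h1⟩
    have h4 := Finset.card_le_card h3
    rw [Fin.card_Iic] at h4
    omega

theorem slot_mono {a b : Fin (M + n)} (h : σ a ≤ σ b) : slot M n σ a ≤ slot M n σ b := by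
  unfold slot
  refine Finset.card_le_card fun k hk => ?_
  rw [Finset.mem_filter] at hk ⊢
  exact ⟨hk.1, lt_of_lt_of_le hk.2 h⟩

theorem lt_of_slot_lt {a b : Fin (M + n)} (h : slot M n σ a < slot M n σ b) : σ a < σ b := by
  by_contra h1
  exact absurd (slot_mono (not_lt.1 h1)) (not_le.2 h)

/-- Linear extensions of a chain with interval elements are the arrangements with constraints on
the slots. -/
theorem le_iff (σ : Equiv.Perm (Fin (M + n))) (I : Fin (M + n) → ℕ × ℕ) (S T : Fin n → ℕ)
    (hI1 : ∀ k : Fin M, I (Fin.castAdd n k) = (k.val, k.val + 1))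
    (hI2 : ∀ j : Fin n, I (Fin.natAdd M j) = (S j, T j))
    (hS : ∀ j, S j < M) (hT : ∀ j, T j < M) (hST : ∀ i j, T i ≤ S j → T i < S j) :
    (∀ a b, (I a).2 ≤ (I b).1 → σ a < σ b) ↔
      (Inc M n σ ∧ ∀ j : Fin n, S j ≤ slot M n σ (Fin.natAdd M j) ∧
        slot M n σ (Fin.natAdd M j) ≤ T j) := by
  constructor
  · intro h
    have hinc : Inc M n σ := by
      intro a b hab
      apply h
      rw [hI1, hI1]
      exact hab
    refine ⟨hinc, fun j => ⟨?_, ?_⟩⟩
    · by_contra h1
      have h2 := hS j
      have h3 := (lt_slot_iff hinc (Fin.natAdd M j) ⟨S j - 1, by omega⟩).2 (by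
        apply h
        rw [hI1, hI2]
        simp only
        omega)
      simp only at h3
      omega
    · by_contra h1
      have h3 := (lt_slot_iff hinc (Fin.natAdd M j) ⟨T j, hT j⟩).1 (by simp only; omega)
      have h4 := h (Fin.natAdd M j) (Fin.castAdd n ⟨T j, hT j⟩) (by
        rw [hI1, hI2])
      exact absurd h3 (not_lt.2 h4.le)
  · rintro ⟨hinc, h⟩ a b hab
    induction a using Fin.addCases with
    | left a =>
      rw [hI1] at hab
      induction b using Fin.addCases with
      | left b =>
        rw [hI1] at hab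
        exact hinc (Fin.lt_def.2 hab)
      | right b =>
        rw [hI2] at hab
        simp only at hab
        refine (lt_slot_iff hinc _ a).1 ?_
        have := (h b).1
        omega
    | right a =>
      rw [hI2] at hab
      induction b using Fin.addCases with
      | left b =>
        rw [hI1] at hab
        simp only at hab
        have h1 := (h a).2
        have h2 : ¬ (σ (Fin.castAdd n b) < σ (Fin.natAdd M a)) := fun h3 => by
          have := (lt_slot_iff hinc _ b).2 h3
          omega
        refine lt_of_le_of_ne (not_lt.1 h2) fun h3 => ?_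
        have h4 := congrArg Fin.val (σ.injective h3)
        simp only [Fin.val_natAdd, Fin.val_castAdd] at h4
        omega
      | right b =>
        rw [hI2] at hab
        simp only at hab
        apply lt_of_slot_lt
        have h1 := (h a).2
        have h2 := (h b).1
        have h3 := hST a b hab
        omega

end Slots

/-- the matrix of the interval order of a list of intervals -/
def ordM (L : List (ℕ × ℕ)) : List (List Bool) := L.map fun p => L.map fun q => decide (p.2 ≤ q.1)

theorem ordM_length (L : List (ℕ × ℕ)) : (ordM L).length = L.length := by simp [ordM]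

theorem ordM_lt (L : List (ℕ × ℕ)) (i j : ℕ) :
    Lt (ordM L) i j ↔ i < L.length ∧ j < L.length ∧ (L.getD i (0, 0)).2 ≤ (L.getD j (0, 0)).1 := by
  unfold Lt ordM
  by_cases hi : i < L.length
  · have h1 : (L.map fun p => L.map fun q => decide (p.2 ≤ q.1)).getD i [] =
        L.map fun q => decide ((L.getD i (0, 0)).2 ≤ q.1) := by
      rw [List.getD_eq_getElem _ _ (by simpa using hi), List.getElem_map,
        List.getD_eq_getElem _ _ hi]
    rw [h1]
    by_cases hj : j < L.length
    · rw [List.getD_eq_getElem _ _ (by simpa using hj), List.getElem_map,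
        List.getD_eq_getElem (l := L) (n := j) _ hj]
      simp only [decide_eq_true_eq, hi, hj, true_and]
    · rw [List.getD_eq_default _ _ (by simpa using hj)]
      simp only [hj, false_and, and_false, Bool.false_eq_true]
  · rw [List.getD_eq_default (n := i) _ _ (by simpa using hi)]
    simp only [hi, false_and]
    simp

/-- the intervals of a chain of length `M` -/
def chainL (M : ℕ) : List (ℕ × ℕ) := (List.range M).map fun k => (k, k + 1)

/-- the intervals of the poset: a chain and further intervals -/
def full (M : ℕ) (X : List (ℕ × ℕ)) : List (ℕ × ℕ) := chainL M ++ X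

theorem full_length (M : ℕ) (X : List (ℕ × ℕ)) : (full M X).length = M + X.length := by
  simp [full, chainL]

theorem full_left (M : ℕ) (X : List (ℕ × ℕ)) (k : ℕ) (hk : k < M) :
    (full M X).getD k (0, 0) = (k, k + 1) := by
  rw [List.getD_eq_getElem _ _ (by rw [full_length]; omega)]
  unfold full chainL
  rw [List.getElem_append_left (by simpa using hk), List.getElem_map, List.getElem_range]

theorem full_right (M : ℕ) (X : List (ℕ × ℕ)) (j : ℕ) (hj : j < X.length) :
    (full M X).getD (M + j) (0, 0) = X.getD j (0, 0) := by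
  rw [List.getD_eq_getElem _ _ (by rw [full_length]; omega), List.getD_eq_getElem _ _ hj]
  unfold full chainL
  rw [List.getElem_append_right (by simp)]
  congr 1
  simp

/-- all members of the list of intervals are nondegenerate and end at most at `M` -/
theorem full_mem (M : ℕ) (X : List (ℕ × ℕ)) (hX : ∀ p ∈ X, p.1 < p.2 ∧ p.2 ≤ M) :
    ∀ i < (full M X).length, ((full M X).getD i (0, 0)).1 < ((full M X).getD i (0, 0)).2 ∧
      ((full M X).getD i (0, 0)).2 ≤ M := by
  intro i hi
  rw [full_length] at hi
  by_cases h : i < M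
  · rw [full_left M X i h]
    simp only
    omega
  · obtain ⟨j, rfl⟩ := Nat.exists_eq_add_of_le (not_lt.1 h)
    have hj : j < X.length := by omega
    rw [full_right M X j hj, List.getD_eq_getElem _ _ hj]
    exact hX _ (List.getElem_mem hj)

theorem intervalOrder_full (M : ℕ) (X : List (ℕ × ℕ)) (hX : ∀ p ∈ X, p.1 < p.2 ∧ p.2 ≤ M) :
    IntervalOrder (ordM (full M X)) := by
  refine ⟨fun row hrow => ?_, fun i => ((full M X).getD i (0, 0)).1,
    fun i => ((full M X).getD i (0, 0)).2, fun i hi => ?_⟩
  · rw [ordM, List.mem_map] at hrow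
    obtain ⟨p, _, rfl⟩ := hrow
    simp [ordM]
  · rw [ordM_length] at hi
    refine ⟨(full_mem M X hX i hi).1, fun j hj => ?_⟩
    rw [ordM_length] at hj
    rw [ordM_lt]
    simp only [hi, hj, true_and]

theorem cov_full (M : ℕ) (X : List (ℕ × ℕ)) (hX : ∀ p ∈ X, p.1 < p.2 ∧ p.2 ≤ M) (a b : ℕ) :
    Cov (ordM (full M X)) a b ↔ a < (full M X).length ∧ b < (full M X).length ∧
      ((full M X).getD a (0, 0)).2 = ((full M X).getD b (0, 0)).1 := by
  unfold Cov
  constructor
  · rintro ⟨h1, h2⟩
    rw [ordM_lt] at h1
    obtain ⟨ha, hb, hab⟩ := h1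
    refine ⟨ha, hb, ?_⟩
    by_contra h3
    have h4 := full_mem M X hX b hb
    set s := ((full M X).getD a (0, 0)).2 with hs
    have hs2 : s < M := by omega
    have hlen : s < (full M X).length := by rw [full_length]; omega
    refine h2 s ⟨?_, ?_⟩
    · rw [ordM_lt]
      refine ⟨ha, hlen, ?_⟩
      rw [full_left M X s hs2]
    · rw [ordM_lt]
      refine ⟨hlen, hb, ?_⟩
      rw [full_left M X s hs2]
      simp only
      omega
  · rintro ⟨ha, hb, hab⟩
    refine ⟨?_, fun k => ?_⟩
    · rw [ordM_lt]
      exact ⟨ha, hb, hab.le⟩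
    · rintro ⟨h1, h2⟩
      rw [ordM_lt] at h1 h2
      have h3 := (full_mem M X hX k h1.2.1).1
      omega

theorem nfree_full (M : ℕ) (X : List (ℕ × ℕ)) (hX : ∀ p ∈ X, p.1 < p.2 ∧ p.2 ≤ M) :
    NFree (ordM (full M X)) := by
  intro a b c d h1 h2 h3
  rw [cov_full M X hX] at h1 h2 h3 ⊢
  exact ⟨h1.1, h3.2.1, by rw [h1.2.2, ← h2.2.2, h3.2.2]⟩

theorem numLE_eq (A : List (List Bool)) (N : ℕ) (hN : A.length = N) :
    numLE A = Nat.card {σ : Equiv.Perm (Fin N) // ∀ i j : Fin N, Lt A i j → σ i < σ j} := by
  subst hN
  rfl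

/-- the number of linear extensions of the poset -/
theorem numLE_full (M : ℕ) (X : List (ℕ × ℕ)) (n : ℕ) (hn : X.length = n) (S T : Fin n → ℕ)
    (hXST : ∀ j : Fin n, X.getD j.val (0, 0) = (S j, T j))
    (hS : ∀ j, S j < M) (hT : ∀ j, T j < M) (hST : ∀ i j, T i ≤ S j → T i < S j) :
    numLE (ordM (full M X)) = (univ.filter (fun σ : Equiv.Perm (Fin (M + n)) =>
      Inc M n σ ∧ ∀ j : Fin n, S j ≤ slot M n σ (Fin.natAdd M j) ∧
        slot M n σ (Fin.natAdd M j) ≤ T j)).card := by
  classical
  have hlen : (ordM (full M X)).length = M + n := by rw [ordM_length, full_length, hn]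
  have hlen2 : (full M X).length = M + n := by rw [full_length, hn]
  rw [numLE_eq _ _ hlen, Nat.card_eq_fintype_card, Fintype.card_subtype]
  congr 1
  ext σ
  simp only [Finset.mem_filter, Finset.mem_univ, true_and]
  rw [← le_iff σ (fun i => (full M X).getD i.val (0, 0)) S T ?_ ?_ hS hT hST]
  · refine forall_congr' fun i => forall_congr' fun j => ?_
    rw [ordM_lt, hlen2]
    have hi : i.val < M + n := i.2
    have hj : j.val < M + n := j.2
    simp only [hi, hj, true_and]
  · intro k
    exact full_left M X k.val k.2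
  · intro j
    rw [← hXST j]
    exact full_right M X j.val (by rw [hn]; exact j.2)

end Pool.Agent.TH686.LE
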