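import Pool.Agent.TH686.LE.Poset
import Pool.Agent.H549R2.Convex6

/-!
# The reduction from the permanents of matrices with consecutive ones
-/

namespace Pool.Agent.TH686.LE

open Finset Pool.Agent.H549R2.Convex

/-- positions of the ones of a row -/
def posL (A : List (List Bool)) (i : ℕ) : List ℕ :=
  (List.range A.length).filter (fun j => ent A i j)

/-- first one of a row -/
def lo (A : List (List Bool)) (i : ℕ) : ℕ := (posL A i).getD 0 0

/-- last one of a row -/
def hi (A : List (List Bool)) (i : ℕ) : ℕ := (posL A i).getD ((posL A i).length - 1) 0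

/-- the additional intervals -/
def xs (A : List (List Bool)) (r : ℕ) : List (ℕ × ℕ) :=
  (List.range A.length).map (fun i => (r * lo A i, r * hi A i + r - 1))

/-- the posets of the reduction -/
def P (A : List (List Bool)) (r : ℕ) : List (List Bool) := ordM (full (r * A.length) (xs A r))

theorem mem_posL {A : List (List Bool)} {i j : ℕ} :
    j ∈ posL A i ↔ j < A.length ∧ ent A i j = true := by
  rw [posL, List.mem_filter, List.mem_range]

theorem posL_sorted (A : List (List Bool)) (i : ℕ) : (posL A i).Pairwise (· < ·) := by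
  unfold posL
  exact List.Pairwise.filter _ (List.pairwise_lt_range)

theorem lo_le_hi (A : List (List Bool)) (i : ℕ) : lo A i ≤ hi A i := by
  unfold lo hi
  by_cases h : 0 < (posL A i).length
  · rw [List.getD_eq_getElem _ _ h, List.getD_eq_getElem _ _ (by omega)]
    rcases Nat.eq_zero_or_pos ((posL A i).length - 1) with h1 | h1
    · simp only [h1]; exact le_rfl
    · exact (List.pairwise_iff_getElem.1 (posL_sorted A i) 0 _ h (by omega) h1).le
  · rw [List.getD_eq_default _ _ (by omega)]
    exact Nat.zero_le _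

theorem hi_lt (A : List (List Bool)) (i : ℕ) (hn : 0 < A.length) : hi A i < A.length := by
  unfold hi
  by_cases h : 0 < (posL A i).length
  · rw [List.getD_eq_getElem _ _ (by omega)]
    exact (mem_posL.1 (List.getElem_mem _)).1
  · rw [List.getD_eq_default _ _ (by omega)]
    exact hn

theorem lo_mem {A : List (List Bool)} {i : ℕ} (h : 0 < (posL A i).length) :
    ent A i (lo A i) = true := by
  unfold lo
  rw [List.getD_eq_getElem _ _ h]
  exact (mem_posL.1 (List.getElem_mem _)).2

theorem hi_mem {A : List (List Bool)} {i : ℕ} (h : 0 < (posL A i).length) :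
    ent A i (hi A i) = true := by
  unfold hi
  rw [List.getD_eq_getElem _ _ (by omega)]
  exact (mem_posL.1 (List.getElem_mem _)).2

theorem lo_le {A : List (List Bool)} {i j : ℕ} (hj : j < A.length) (h : ent A i j = true) :
    lo A i ≤ j := by
  have h1 := mem_posL.2 ⟨hj, h⟩
  obtain ⟨k, hk, rfl⟩ := List.mem_iff_getElem.1 h1
  unfold lo
  rw [List.getD_eq_getElem _ _ (by omega)]
  rcases Nat.eq_zero_or_pos k with h2 | h2
  · subst h2; exact le_rfl
  · exact (List.pairwise_iff_getElem.1 (posL_sorted A i) 0 k (by omega) hk h2).le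

theorem le_hi {A : List (List Bool)} {i j : ℕ} (hj : j < A.length) (h : ent A i j = true) :
    j ≤ hi A i := by
  have h1 := mem_posL.2 ⟨hj, h⟩
  obtain ⟨k, hk, rfl⟩ := List.mem_iff_getElem.1 h1
  unfold hi
  rw [List.getD_eq_getElem _ _ (by omega)]
  rcases (Nat.le_sub_one_of_lt hk).eq_or_lt with h2 | h2
  · simp only [← h2]; exact le_rfl
  · exact (List.pairwise_iff_getElem.1 (posL_sorted A i) k _ hk (by omega) h2).le

theorem ent_eq_true {A : List (List Bool)} {i j : ℕ} :
    ent A i j = true ↔ ∃ r, A[i]? = some r ∧ r[j]? = some true := by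
  unfold ent
  rw [List.getD_eq_getElem?_getD, List.getD_eq_getElem?_getD]
  cases h1 : A[i]? with
  | none => simp
  | some r =>
    simp only [Option.getD_some, Option.some.injEq]
    cases h2 : r[j]? with
    | none => simp [h2]
    | some b => simp [h2]

theorem ent_of_between {A : List (List Bool)} (hA : ∀ r ∈ A, Consec r) {i j k l : ℕ}
    (h1 : ent A i j = true) (h2 : ent A i l = true) (hjk : j ≤ k) (hkl : k ≤ l) :
    ent A i k = true := by
  rw [ent_eq_true] at h1 h2 ⊢
  obtain ⟨r, hr, hr2⟩ := h1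
  obtain ⟨r', hr', hr2'⟩ := h2
  rw [hr] at hr'
  obtain rfl := Option.some.inj hr'
  exact ⟨r, hr, hA r (List.mem_of_getElem? hr) j k l hjk hkl hr2 hr2'⟩

theorem ent_iff {A : List (List Bool)} (hA : ∀ r ∈ A, Consec r) {i : ℕ}
    (h : 0 < (posL A i).length) {j : ℕ} (hj : j < A.length) :
    ent A i j = true ↔ lo A i ≤ j ∧ j ≤ hi A i :=
  ⟨fun h1 => ⟨lo_le hj h1, le_hi hj h1⟩, fun h1 =>
    ent_of_between hA (lo_mem h) (hi_mem h) h1.1 h1.2⟩

theorem xs_length (A : List (List Bool)) (r : ℕ) : (xs A r).length = A.length := by simp [xs]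

theorem xs_getD (A : List (List Bool)) (r j : ℕ) (hj : j < A.length) :
    (xs A r).getD j (0, 0) = (r * lo A j, r * hi A j + r - 1) := by
  rw [List.getD_eq_getElem _ _ (by rw [xs_length]; exact hj)]
  simp [xs]

theorem bound {A : List (List Bool)} {r i : ℕ} (hr : 2 ≤ r) (hi' : i < A.length) :
    r * lo A i < r * hi A i + r - 1 ∧ r * hi A i + r - 1 < r * A.length := by
  have h1 := Nat.mul_le_mul_left r (lo_le_hi A i)
  have h2 := hi_lt A i (by omega)
  have h3 : r * (hi A i + 1) ≤ r * A.length := Nat.mul_le_mul_left r h2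
  rw [Nat.mul_succ] at h3
  omega

theorem xs_mem (A : List (List Bool)) (r : ℕ) (hr : 2 ≤ r) :
    ∀ p ∈ xs A r, p.1 < p.2 ∧ p.2 ≤ r * A.length := by
  intro p hp
  rw [xs, List.mem_map] at hp
  obtain ⟨i, hi', rfl⟩ := hp
  rw [List.mem_range] at hi'
  exact ⟨(bound hr hi').1, (bound hr hi').2.le⟩

/-- the posets are N-free interval orders -/
theorem P_valid (A : List (List Bool)) (r : ℕ) (hr : 2 ≤ r) :
    IntervalOrder (P A r) ∧ NFree (P A r) :=
  ⟨intervalOrder_full _ _ (xs_mem A r hr), nfree_full _ _ (xs_mem A r hr)⟩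

/-- the sets of columns -/
def RR (A : List (List Bool)) (i : Fin A.length) : Finset ℕ :=
  (range A.length).filter (fun j => ent A i.val j = true)

theorem numLE_P (A : List (List Bool)) (hA : ∀ r ∈ A, Consec r)
    (hne : ∀ i < A.length, 0 < (posL A i).length) (r : ℕ) (hr : 2 ≤ r) :
    numLE (P A r) = (ArrS (r * A.length) A.length r (RR A)).card := by
  rw [P, numLE_full (r * A.length) (xs A r) A.length (xs_length A r)
    (fun j => r * lo A j.val) (fun j => r * hi A j.val + r - 1)
    (fun j => xs_getD A r j.val j.2)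
    (fun j => lt_trans (bound hr j.2).1 (bound hr j.2).2) (fun j => (bound hr j.2).2)]
  · rw [ArrS]
    congr 1
    refine Finset.filter_congr fun σ _ => and_congr Iff.rfl (forall_congr' fun j => ?_)
    generalize slot (r * A.length) A.length σ (Fin.natAdd (r * A.length) j) = s
    rw [RR, Finset.mem_filter, Finset.mem_range]
    have hlt := hi_lt A j.val (by have := j.2; omega)
    constructor
    · rintro ⟨h1, h2⟩
      have h3 : lo A j.val ≤ s / r := by
        rw [Nat.le_div_iff_mul_le (by omega), mul_comm]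
        exact h1
      have h4 : s / r ≤ hi A j.val := by
        rw [← Nat.lt_succ_iff, Nat.div_lt_iff_lt_mul (by omega), mul_comm, Nat.mul_succ]
        omega
      exact ⟨by omega, (ent_iff hA (hne _ j.2) (by omega)).2 ⟨h3, h4⟩⟩
    · rintro ⟨h1, h2⟩
      rw [ent_iff hA (hne _ j.2) h1] at h2
      obtain ⟨h3, h4⟩ := h2
      rw [Nat.le_div_iff_mul_le (by omega), mul_comm] at h3
      rw [← Nat.lt_succ_iff, Nat.div_lt_iff_lt_mul (by omega), mul_comm, Nat.mul_succ] at h4
      omega
  · intro i j h
    refine lt_of_le_of_ne h fun h1 => ?_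
    have h2 : r * (hi A i.val + 1) = r * lo A j.val + 1 := by
      rw [Nat.mul_succ]; omega
    have h3 : r ∣ r * lo A j.val + 1 := ⟨_, h2.symm⟩
    have h4 : r ∣ 1 := (Nat.dvd_add_right (Dvd.intro _ rfl)).1 h3
    have h5 := Nat.le_of_dvd one_pos h4
    omega

theorem card_inj (A : List (List Bool)) (hsq : ∀ r ∈ A, r.length = A.length) :
    ((Fintype.piFinset (RR A)).filter Function.Injective).card = F A := by
  classical
  rw [F_eq_card' A hsq A.length rfl]
  symm
  refine Finset.card_bij (fun σ _ => fun i => (σ i).val) ?_ ?_ ?_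
  · intro σ hσ
    rw [Finset.mem_filter] at hσ
    rw [Finset.mem_filter, Fintype.mem_piFinset]
    refine ⟨fun i => ?_, fun a b hab => σ.injective (Fin.ext hab)⟩
    rw [RR, Finset.mem_filter, Finset.mem_range]
    exact ⟨(σ i).2, hσ.2 i⟩
  · intro σ _ τ _ h
    apply Equiv.ext
    intro i
    exact Fin.ext (congrFun h i)
  · intro f hf
    rw [Finset.mem_filter, Fintype.mem_piFinset] at hf
    obtain ⟨h1, h2⟩ := hf
    have h3 : ∀ i, f i < A.length := fun i => by
      have := h1 i
      rw [RR, Finset.mem_filter, Finset.mem_range] at this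
      exact this.1
    have h4 : Function.Injective (fun i : Fin A.length => (⟨f i, h3 i⟩ : Fin A.length)) := by
      intro a b hab
      exact h2 (Fin.mk.inj_iff.1 hab)
    refine ⟨Equiv.ofBijective _ (Finite.injective_iff_bijective.1 h4), ?_, ?_⟩
    · rw [Finset.mem_filter]
      refine ⟨Finset.mem_univ _, fun i => ?_⟩
      have := h1 i
      rw [RR, Finset.mem_filter] at this
      exact this.2
    · rfl

/-- **The reduction identity.** -/
theorem identity (A : List (List Bool)) (hsq : ∀ r ∈ A, r.length = A.length)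
    (hA : ∀ r ∈ A, Consec r) (hne : ∀ i < A.length, 0 < (posL A i).length) (g : ℕ → ℕ)
    (hg : ∀ j ≤ A.length, g j = numLE (P A (j + 2))) :
    ∑ t ∈ range (A.length + 3 + 1), (-1 : ℤ) ^ t * ((A.length + 3).choose t) *
      (((t - 1) * (t - 2) * g (t - 3) : ℕ) : ℤ) = -2 * ((-1) ^ A.length * (F A : ℤ)) := by
  rw [← card_inj A hsq, ← PolR_neg_one, ← extrap (PolR (RR A)) A.length (PolR_natDegree _)]
  refine Finset.sum_congr rfl fun t ht => ?_
  rw [Finset.mem_range] at ht
  rcases t with _ | _ | _ | t
  · simp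
  · simp
  · simp
  · have h1 : t + 1 + 1 + 1 - 3 = t := rfl
    have h2 : ((t + 1 + 1 + 1 : ℕ) : ℤ) - 1 = ((t + 2 : ℕ) : ℤ) := by push_cast; ring
    rw [h1, h2, hg t (by omega), numLE_P A hA hne (t + 2) (by omega),
      PolR_pos ((t + 2) * A.length) (t + 2) A.length rfl (by omega) (RR A)]
    · push_cast
      ring
    · intro i v hv
      rw [RR, Finset.mem_filter, Finset.mem_range] at hv
      exact hv.1

theorem F_zero_row (A : List (List Bool)) (i : ℕ) (hi' : i < A.length)
    (h : (posL A i).length = 0) : F A = 0 := by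
  by_cases hsq : ∀ r ∈ A, r.length = A.length
  · rw [F_eq_card' A hsq A.length rfl, Finset.card_eq_zero, Finset.filter_eq_empty_iff]
    intro σ _ hσ
    have h1 := mem_posL.2 ⟨(σ ⟨i, hi'⟩).2, hσ ⟨i, hi'⟩⟩
    simp only at h1
    rw [List.length_eq_zero_iff.1 h] at h1
    simp at h1
  · rw [F, if_neg hsq]

end Pool.Agent.TH686.LE
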