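import Pool.Agent.TH686.LE.Red
import Pool.Agent.H549R2.NRed

/-!
# The reduction runs in polynomial time
-/

namespace Pool.Agent.NPC.H686LE

open Pool.Agent.TH686.LE
open Pool.Agent.H549R2.Convex Pool.Agent.NPC.Cnt Pool.Agent.NPC.H549NRed
open Pool.Agent.NPC.H549Convex (LL ent_poly sqB sqB_poly sum_filter_range_list fp_of_poly)
open Pool.Agent.NPC.H549PM (upoly_min altp altp_poly)

theorem posL_poly : Poly (fun p : LL × ℕ => posL p.1 p.2) :=
  Poly.filter (p := fun (p : LL × ℕ) j => ent p.1 p.2 j) (Poly.range_length (Poly.fst Poly.id))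
    (ent_poly.comp (Poly.pair (Poly.fst (Poly.fst Poly.id)) (Poly.pair
      (Poly.snd (Poly.fst Poly.id)) (Poly.snd Poly.id))))

theorem lo_poly : Poly (fun p : LL × ℕ => lo p.1 p.2) :=
  Poly.getD posL_poly (Poly.const 0) (Poly.const 0)

theorem hi_poly : Poly (fun p : LL × ℕ => hi p.1 p.2) :=
  Poly.getD posL_poly (Poly.sub (Poly.length posL_poly) (Poly.const 1)) (Poly.const 0)

theorem lo_poly' : Poly (fun q : (LL × ℕ) × ℕ => lo q.1.1 q.2) :=
  lo_poly.comp (f := fun q : (LL × ℕ) × ℕ => (q.1.1, q.2))
    (Poly.pair (Poly.fst (Poly.fst Poly.id)) (Poly.snd Poly.id))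

theorem hi_poly' : Poly (fun q : (LL × ℕ) × ℕ => hi q.1.1 q.2) :=
  hi_poly.comp (f := fun q : (LL × ℕ) × ℕ => (q.1.1, q.2))
    (Poly.pair (Poly.fst (Poly.fst Poly.id)) (Poly.snd Poly.id))

theorem xs_poly : Poly (fun p : LL × ℕ => xs p.1 p.2) := by
  have hr : Poly (fun q : (LL × ℕ) × ℕ => q.1.2) := Poly.snd (Poly.fst Poly.id)
  have h1 : Poly (fun q : (LL × ℕ) × ℕ => q.1.2 * lo q.1.1 q.2) := Poly.mul hr lo_poly'
  have h2 : Poly (fun q : (LL × ℕ) × ℕ => q.1.2 * hi q.1.1 q.2 + q.1.2 - 1) :=
    Poly.sub (Poly.add (Poly.mul hr hi_poly') hr) (Poly.const 1)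
  have h3 : Poly (fun q : (LL × ℕ) × ℕ =>
      (q.1.2 * lo q.1.1 q.2, q.1.2 * hi q.1.1 q.2 + q.1.2 - 1)) := Poly.pair h1 h2
  have h4 : Poly (fun p : LL × ℕ => List.range p.1.length) :=
    Poly.range_length (Poly.fst Poly.id)
  exact Poly.map (F := fun (p : LL × ℕ) i => (p.2 * lo p.1 i, p.2 * hi p.1 i + p.2 - 1)) h4 h3

theorem ordM_poly : Poly (fun L : List (ℕ × ℕ) => ordM L) := by
  refine Poly.map (F := fun (L : List (ℕ × ℕ)) p => L.map fun q => decide (p.2 ≤ q.1)) Poly.id ?_
  exact Poly.map (F := fun (z : List (ℕ × ℕ) × (ℕ × ℕ)) q => decide (z.2.2 ≤ q.1))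
    (Poly.fst Poly.id) (Poly.decide_le (Poly.snd (Poly.snd (Poly.fst Poly.id)))
      (Poly.fst (Poly.snd Poly.id)))

/-- the parameter of a query -/
def rr (p : LL × ℕ) : ℕ := min p.2 p.1.length + 2

theorem rr_upoly : UPoly rr :=
  UPoly.add (upoly_min (Poly.snd Poly.id) (UPoly.length (Poly.fst Poly.id))) (UPoly.const 2)

theorem P_poly : Poly (fun p : LL × ℕ => P p.1 (rr p)) := by
  have h1 : UPoly (fun p : LL × ℕ => rr p * p.1.length) :=
    UPoly.mul rr_upoly (UPoly.length (Poly.fst Poly.id))
  have h2 : Poly (fun p : LL × ℕ => chainL (rr p * p.1.length)) :=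
    Poly.map (F := fun (_ : LL × ℕ) k => (k, k + 1)) h1.range
      (Poly.pair (Poly.snd Poly.id) (Poly.succ (Poly.snd Poly.id)))
  have h3 : Poly (fun p : LL × ℕ => xs p.1 (rr p)) :=
    xs_poly.comp (f := fun p : LL × ℕ => (p.1, rr p))
      (Poly.pair (Poly.fst Poly.id) rr_upoly.toPoly)
  exact ordM_poly.comp (Poly.append h2 h3)

/-- the queries -/
def qs (A : LL) : List LL := (List.range (A.length + 1)).map (fun j => P A (rr (A, j)))

theorem qs_poly : Poly qs :=
  Poly.map (F := fun (A : LL) j => P A (rr (A, j)))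
    (UPoly.add (UPoly.length Poly.id) (UPoly.const 1)).range P_poly

/-- test for nonempty rows -/
def neB (A : LL) : Bool := (List.range A.length).all fun i => decide (0 < (posL A i).length)

theorem neB_poly : Poly neB := by
  have h : Poly (fun q : LL × ℕ => decide (0 < (posL q.1 q.2).length)) :=
    Poly.decide_lt (Poly.const 0) (Poly.length posL_poly)
  exact Poly.all (p := fun (A : LL) i => decide (0 < (posL A i).length))
    (Poly.range_length Poly.id) h

/-- the terms of the alternating sum -/
def tm (p : LL × List ℕ) (t : ℕ) : ℕ := (t - 1) * (t - 2) * p.2.getD (t - 3) 0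

/-- the final computation from the answers -/
def post (p : LL × List ℕ) : ℕ :=
  bif sqB p.1 then
    (bif neB p.1 then
      (bif decide (p.1.length % 2 = 0) then
        (altp (p.1.length + 3) (tm p) 1 - altp (p.1.length + 3) (tm p) 0) / 2
      else (altp (p.1.length + 3) (tm p) 0 - altp (p.1.length + 3) (tm p) 1) / 2)
    else 0)
  else 0

theorem tm_poly : Poly (fun q : (LL × List ℕ) × ℕ => tm q.1 q.2) := by
  have ht : Poly (fun q : (LL × List ℕ) × ℕ => q.2) := Poly.snd Poly.id
  exact Poly.mul (Poly.mul (Poly.sub ht (Poly.const 1)) (Poly.sub ht (Poly.const 2)))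
    (Poly.getD (Poly.snd (Poly.fst Poly.id)) (Poly.sub ht (Poly.const 3)) (Poly.const 0))

theorem post_poly : Poly post := by
  have h0 : Poly (fun p : LL × List ℕ => sqB p.1) := sqB_poly.comp (Poly.fst Poly.id)
  have h1 : Poly (fun p : LL × List ℕ => neB p.1) := neB_poly.comp (Poly.fst Poly.id)
  have h2 : Poly (fun p : LL × List ℕ => decide (p.1.length % 2 = 0)) :=
    Poly.decide_eq (Poly.mod (Poly.length (Poly.fst Poly.id)) (Poly.const 2)) (Poly.const 0)
  have hq : UPoly (fun p : LL × List ℕ => p.1.length + 3) :=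
    UPoly.add (UPoly.length (Poly.fst Poly.id)) (UPoly.const 3)
  have h3 := altp_poly (g := tm) hq tm_poly 0
  have h4 := altp_poly (g := tm) hq tm_poly 1
  exact Poly.cond h0 (Poly.cond h1 (Poly.cond h2 (Poly.div (Poly.sub h4 h3) (Poly.const 2))
    (Poly.div (Poly.sub h3 h4) (Poly.const 2))) (Poly.const 0)) (Poly.const 0)

theorem altp_sub (q : ℕ) (g : ℕ → ℕ) : ((altp q g 0 : ℕ) : ℤ) - (altp q g 1 : ℕ) =
    ∑ t ∈ Finset.range (q + 1), (-1 : ℤ) ^ t * (q.choose t) * ((g t : ℕ) : ℤ) := by
  rw [altp, altp, sum_filter_range_list, sum_filter_range_list]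
  push_cast
  rw [← Finset.sum_sub_distrib]
  refine Finset.sum_congr rfl fun t ht => ?_
  rw [Finset.mem_range] at ht
  rw [Nat.min_eq_left (by omega : t ≤ q)]
  simp only [decide_eq_true_eq]
  rcases Nat.even_or_odd t with h' | h'
  · rw [if_pos (Nat.even_iff.1 h'), if_neg (by have := Nat.even_iff.1 h'; omega), h'.neg_one_pow]
    ring
  · rw [if_neg (by have := Nat.odd_iff.1 h'; omega), if_pos (Nat.odd_iff.1 h'), h'.neg_one_pow]
    ring

/-- the promise: N-free interval orders -/
def Valid (A : LL) : Prop := IntervalOrder A ∧ NFree A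

theorem post_correct (A : LL) (hA : ∀ r ∈ A, Consec r) : post (A, (qs A).map numLE) = F A := by
  unfold post
  simp only
  cases hs : sqB A with
  | false =>
    rw [cond_false]
    have : ¬ ∀ r ∈ A, r.length = A.length := by
      intro h
      rw [sqB, Bool.eq_false_iff] at hs
      apply hs
      rw [List.all_eq_true]
      intro r hr
      simp [h r hr]
    rw [F, if_neg this]
  | true =>
    have hsq : ∀ r ∈ A, r.length = A.length := by
      intro r hr
      rw [sqB, List.all_eq_true] at hs
      simpa using hs r hr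
    rw [cond_true]
    cases hd : neB A with
    | false =>
      rw [cond_false]
      rw [neB, List.all_eq_false] at hd
      obtain ⟨j, hj, hj2⟩ := hd
      rw [List.mem_range] at hj
      simp only [decide_eq_true_eq, not_lt, Nat.le_zero] at hj2
      exact (F_zero_row A j hj hj2).symm
    | true =>
      rw [cond_true]
      have hne : ∀ j < A.length, 0 < (posL A j).length := by
        intro j hj
        rw [neB, List.all_eq_true] at hd
        have := hd j (List.mem_range.2 hj)
        simp only [decide_eq_true_eq] at this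
        exact this
      have hg : ∀ j ≤ A.length, ((qs A).map numLE).getD j 0 = numLE (P A (j + 2)) := by
        intro j hj
        have hlen : j < ((qs A).map numLE).length := by simp [qs]; omega
        rw [List.getD_eq_getElem _ _ hlen, List.getElem_map]
        have h3 : (qs A)[j]'(by simpa using hlen) = P A (j + 2) := by
          simp only [qs, List.getElem_map, List.getElem_range, rr, Nat.min_eq_left hj]
        rw [h3]
      have hid := identity A hsq hA hne (fun j => ((qs A).map numLE).getD j 0) hg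
      have hsub := altp_sub (A.length + 3) (tm (A, (qs A).map numLE))
      have hsplit : ((altp (A.length + 3) (tm (A, (qs A).map numLE)) 0 : ℕ) : ℤ) -
          (altp (A.length + 3) (tm (A, (qs A).map numLE)) 1 : ℕ) =
          -2 * ((-1) ^ A.length * (F A : ℤ)) := by
        rw [hsub, ← hid]
        rfl
      by_cases hn : A.length % 2 = 0
      · rw [show decide (A.length % 2 = 0) = true from decide_eq_true hn, cond_true]
        rw [(Nat.even_iff.2 hn).neg_one_pow, one_mul] at hsplit
        omega
      · rw [show decide (A.length % 2 = 0) = false from decide_eq_false hn, cond_false]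
        rw [(Nat.odd_iff.2 (by omega)).neg_one_pow] at hsplit
        omega

/-- permanents of matrices with consecutive ones reduce to counting the linear extensions of
N-free interval orders -/
theorem nred_le : NRed (fun A : LL => ∀ r ∈ A, Consec r) F Valid numLE := by
  refine ⟨qs, post, qs_poly, post_poly, fun A hA => ⟨fun B hB => ?_, post_correct A hA⟩⟩
  rw [qs, List.mem_map] at hB
  obtain ⟨j, _, rfl⟩ := hB
  exact P_valid A _ (by simp [rr])

theorem nred_all : NRed (fun _ : CNF ℕ => True) (fun φ => satCount φ) Valid numLE :=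
  (nred_sat.comp nred_consec).comp nred_le

end Pool.Agent.NPC.H686LE
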